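import Mathlib

/-!
# Intersection bodies and polars of zonotopes: definitions

Everything lives in a finite dimensional real inner product space `E` with its Lebesgue measure
`volume`; `volume.toSphere` is the usual surface measure on the unit sphere of `E`.
-/

open Set MeasureTheory Metric

noncomputable section

namespace Pool.Agent.Helper54.IB

variable {E : Type*} [NormedAddCommGroup E] [InnerProductSpace ℝ E]

/-- The radial function `ρ_K(u) = max {t ≥ 0 : t u ∈ K}` of a set `K`. -/
def radial (K : Set E) (u : E) : ℝ := sSup {t : ℝ | 0 ≤ t ∧ t • u ∈ K}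

/-- Origin-symmetric star bodies: compact sets, star-shaped with respect to the origin, symmetric
about the origin, whose radial function is positive and continuous on the unit sphere. -/
structure IsSymmStarBody (K : Set E) : Prop where
  compact : IsCompact K
  star : StarConvex ℝ 0 K
  symm : ∀ x ∈ K, -x ∈ K
  pos : ∀ u : sphere (0 : E) 1, 0 < radial K u
  cont : Continuous fun u : sphere (0 : E) 1 => radial K u

/-- The inclusion of the unit sphere of `v^⊥` into the unit sphere of `E`. -/
def sphereIncl (v : E) (x : sphere (0 : (ℝ ∙ v)ᗮ) 1) : sphere (0 : E) 1 :=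
  ⟨((x : (ℝ ∙ v)ᗮ) : E), mem_sphere_zero_iff_norm.mpr (mem_sphere_zero_iff_norm.mp x.2)⟩

variable [FiniteDimensional ℝ E] [MeasurableSpace E] [BorelSpace E]

/-- The spherical Radon transform `(R f)(v) = ∫_{S ∩ v^⊥} f`, the integral being with respect to
the surface measure of the unit sphere `S ∩ v^⊥` of the hyperplane `v^⊥`. -/
def radon (f : sphere (0 : E) 1 → ℝ) (v : sphere (0 : E) 1) : ℝ :=
  ∫ x, f (sphereIncl (v : E) x) ∂((volume : Measure (ℝ ∙ (v : E))ᗮ).toSphere)

/-- `K` is an intersection body: an origin-symmetric star body for which there is a finite even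
(nonnegative) Borel measure `μ` on the unit sphere with `ρ_K = R μ`, i.e.
`∫_S ρ_K f dσ = ∫_S R f dμ` for all continuous even functions `f` on the sphere. -/
def IsIntersectionBody (K : Set E) : Prop :=
  IsSymmStarBody K ∧ ∃ μ : Measure (sphere (0 : E) 1), IsFiniteMeasure μ ∧
    μ.map (fun u => -u) = μ ∧
    ∀ f : sphere (0 : E) 1 → ℝ, Continuous f → (∀ u, f (-u) = f u) →
      ∫ u, radial K u * f u ∂((volume : Measure E).toSphere) = ∫ v, radon f v ∂μ

omit [FiniteDimensional ℝ E] [MeasurableSpace E] [BorelSpace E] in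
/-- The origin-symmetric zonotope `∑ᵢ [-vᵢ, vᵢ]`. -/
def zonotope {N : ℕ} (v : Fin N → E) : Set E :=
  {x | ∃ c : Fin N → ℝ, (∀ i, |c i| ≤ 1) ∧ x = ∑ i, c i • v i}

omit [FiniteDimensional ℝ E] [MeasurableSpace E] [BorelSpace E] in
/-- The polar body `K^* = {y : ⟪x, y⟫ ≤ 1 for all x ∈ K}`. -/
def polarBody (K : Set E) : Set E := {y | ∀ x ∈ K, inner ℝ x y ≤ (1 : ℝ)}

omit [FiniteDimensional ℝ E] [MeasurableSpace E] [BorelSpace E] in
/-- A polytope: the convex hull of a finite set, with nonempty interior. -/
def IsPolytope (K : Set E) : Prop :=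
  (∃ V : Finset E, K = convexHull ℝ (V : Set E)) ∧ (interior K).Nonempty

end Pool.Agent.Helper54.IB
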