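import Pool.Agent.Helper54.IB.PolyNorm

/-!
# Generic points and lines
-/

open Filter Topology Set

noncomputable section

namespace Pool.Agent.Helper54.IB

variable {E : Type*} [NormedAddCommGroup E] [InnerProductSpace ℝ E]

/-- `u` is not a multiple of `ξ`. -/
def NotMul (ξ u : E) : Prop := ∀ c : ℝ, u ≠ c • ξ

theorem exists_perp {ξ u : E} (h : NotMul ξ u) : ∃ w : E, inner ℝ ξ w = 0 ∧ inner ℝ u w ≠ 0 := by
  set c : ℝ := inner ℝ ξ u / inner ℝ ξ ξ with hc
  have h1 : inner ℝ ξ (u - c • ξ) = 0 := by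
    rw [inner_sub_right, inner_smul_right]
    by_cases hξ : ξ = 0
    · subst hξ; simp
    · have : (inner ℝ ξ ξ : ℝ) ≠ 0 := inner_self_ne_zero.mpr hξ
      rw [hc, div_mul_cancel₀ _ this, sub_self]
  refine ⟨u - c • ξ, h1, ?_⟩
  have h2 : inner ℝ u (u - c • ξ) = inner ℝ (u - c • ξ) (u - c • ξ) := by
    rw [inner_sub_left (u) (c • ξ) (u - c • ξ), inner_smul_left, h1]
    simp
  rw [h2]
  exact inner_self_ne_zero.mpr (sub_ne_zero.mpr (h c))

theorem exists_perp_finset (ξ : E) (U : Finset E) (h : ∀ u ∈ U, NotMul ξ u) :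
    ∃ w : E, inner ℝ ξ w = 0 ∧ ∀ u ∈ U, inner ℝ u w ≠ 0 := by
  classical
  induction U using Finset.induction_on with
  | empty => exact ⟨0, by simp, by simp⟩
  | insert u U hu ih =>
    obtain ⟨w, hw1, hw2⟩ := ih fun u' hu' => h u' (Finset.mem_insert_of_mem hu')
    obtain ⟨w', hw'1, hw'2⟩ := exists_perp (h u (Finset.mem_insert_self u U))
    -- perturb
    have hev : ∀ᶠ ε in 𝓝[>] (0 : ℝ), (∀ u' ∈ U, inner ℝ u' (w + ε • w') ≠ 0) ∧
        inner ℝ u (w + ε • w') ≠ 0 := by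
      have h1 : ∀ᶠ ε in 𝓝[>] (0 : ℝ), ∀ u' ∈ U, inner ℝ u' (w + ε • w') ≠ 0 := by
        rw [Filter.eventually_all_finset]
        intro u' hu'
        have hc : Continuous fun ε : ℝ => inner ℝ u' (w + ε • w') := by fun_prop
        have h2 := (hc.tendsto 0).mono_left (nhdsWithin_le_nhds (s := Ioi (0 : ℝ)))
        refine h2.eventually_ne ?_
        simpa using hw2 u' hu'
      have h2 : ∀ᶠ ε in 𝓝[>] (0 : ℝ), inner ℝ u (w + ε • w') ≠ 0 := by
        by_cases hz : inner ℝ u w = 0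
        · filter_upwards [self_mem_nhdsWithin] with ε hε
          rw [inner_add_right, inner_smul_right, hz, zero_add]
          exact mul_ne_zero (ne_of_gt hε) hw'2
        · have hc : Continuous fun ε : ℝ => inner ℝ u (w + ε • w') := by fun_prop
          have h2 := (hc.tendsto 0).mono_left (nhdsWithin_le_nhds (s := Ioi (0 : ℝ)))
          refine h2.eventually_ne ?_
          simpa using hz
      exact h1.and h2
    obtain ⟨ε, hε1, hε2⟩ := hev.exists
    refine ⟨w + ε • w', ?_, ?_⟩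
    · rw [inner_add_right, inner_smul_right, hw1, hw'1]; simp
    · intro u' hu'
      rcases Finset.mem_insert.mp hu' with rfl | hu'
      · exact hε2
      · exact hε1 u' hu'

/-- Near every point `y` there is `y'` with `⟪ξ, y'⟫ = ⟪ξ, y⟫` and `⟪u, y'⟫ ≠ 0` for the
finitely many `u ∈ U`. -/
theorem exists_near (ξ y : E) (U : Finset E) (h : ∀ u ∈ U, NotMul ξ u) {P : E → Prop}
    (hP : ∀ᶠ y' in 𝓝 y, P y') :
    ∃ y', P y' ∧ inner ℝ ξ y' = inner ℝ ξ y ∧ ∀ u ∈ U, inner ℝ u y' ≠ 0 := by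
  obtain ⟨w, hw1, hw2⟩ := exists_perp_finset ξ U h
  have h1 : ∀ᶠ ε in 𝓝[>] (0 : ℝ), ∀ u ∈ U, inner ℝ u (y + ε • w) ≠ 0 := by
    rw [Filter.eventually_all_finset]
    intro u hu
    by_cases hz : inner ℝ u y = 0
    · filter_upwards [self_mem_nhdsWithin] with ε hε
      rw [inner_add_right, inner_smul_right, hz, zero_add]
      exact mul_ne_zero (ne_of_gt hε) (hw2 u hu)
    · have hc : Continuous fun ε : ℝ => inner ℝ u (y + ε • w) := by fun_prop
      have h2 := (hc.tendsto 0).mono_left (nhdsWithin_le_nhds (s := Ioi (0 : ℝ)))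
      refine h2.eventually_ne ?_
      simpa using hz
  have h2 : ∀ᶠ ε in 𝓝[>] (0 : ℝ), P (y + ε • w) := by
    have hc : Continuous fun ε : ℝ => y + ε • w := by fun_prop
    have h3 := (hc.tendsto 0).mono_left (nhdsWithin_le_nhds (s := Ioi (0 : ℝ)))
    have h4 : y + (0 : ℝ) • w = y := by simp
    rw [h4] at h3
    exact h3.eventually hP
  obtain ⟨ε, hε1, hε2⟩ := (h1.and h2).exists
  refine ⟨y + ε • w, hε2, ?_, hε1⟩
  rw [inner_add_right, inner_smul_right, hw1]; simp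

/-- A function on `ℝ` that is affine near every point is affine. -/
theorem affine_of_local {f m : ℝ → ℝ}
    (h : ∀ τ, ∀ᶠ ε in 𝓝 (0 : ℝ), f (τ + ε) = f τ + ε * m τ) (τ : ℝ) :
    f τ = f 0 + τ * m 0 := by
  have hder0 : ∀ τ σ, (∀ᶠ ε in 𝓝 (0 : ℝ), f (σ + ε) = f σ + ε * m τ) → HasDerivAt f (m τ) σ := by
    intro τ σ hτ
    have h1 : HasDerivAt (fun x => f σ + (x - σ) * m τ) (m τ) σ := by
      have := (((hasDerivAt_id σ).sub_const σ).mul_const (m τ)).const_add (f σ)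
      simpa using this
    refine h1.congr_of_eventuallyEq ?_
    have h2 : Tendsto (fun x : ℝ => x - σ) (𝓝 σ) (𝓝 0) := by
      have : Continuous fun x : ℝ => x - σ := by fun_prop
      simpa using this.tendsto σ
    filter_upwards [h2.eventually hτ] with x hx
    rw [← hx]; congr 1; ring
  have hder : ∀ τ, HasDerivAt f (m τ) τ := fun τ => hder0 τ τ (h τ)
  have hloc : IsLocallyConstant m := by
    rw [IsLocallyConstant.iff_eventually_eq]
    intro τ
    have h1 := eventually_eventually_nhds.mpr (h τ)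
    have h2 : Tendsto (fun x : ℝ => x - τ) (𝓝 τ) (𝓝 0) := by
      have : Continuous fun x : ℝ => x - τ := by fun_prop
      simpa using this.tendsto τ
    filter_upwards [h2.eventually h1, h2.eventually (h τ)] with σ hσ hσ0
    have h3 : ∀ᶠ ε in 𝓝 (0 : ℝ), f (σ + ε) = f σ + ε * m τ := by
      have h4 : Tendsto (fun ε : ℝ => σ - τ + ε) (𝓝 0) (𝓝 (σ - τ)) := by
        have : Continuous fun ε : ℝ => σ - τ + ε := by fun_prop
        simpa using this.tendsto 0
      filter_upwards [h4.eventually hσ] with ε hε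
      have e1 : τ + (σ - τ + ε) = σ + ε := by ring
      have e2 : τ + (σ - τ) = σ := by ring
      rw [e1] at hε
      rw [e2] at hσ0
      rw [hε, hσ0]; ring
    exact (hder σ).unique (hder0 τ σ h3)
  have hm : ∀ σ, m σ = m 0 := fun σ => hloc.apply_eq_of_preconnectedSpace σ 0
  have hg : ∀ σ, HasDerivAt (fun σ => f σ - σ * m 0) 0 σ := by
    intro σ
    have h1 : HasDerivAt (fun σ => f σ - σ * m 0) (m σ - 1 * m 0) σ :=
      (hder σ).sub ((hasDerivAt_id σ).mul_const (m 0))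
    rwa [hm σ, one_mul, sub_self] at h1
  have h5 : (fun σ => f σ - σ * m 0) τ = (fun σ => f σ - σ * m 0) 0 :=
    is_const_of_deriv_eq_zero (fun σ => (hg σ).differentiableAt) (fun σ => (hg σ).deriv) τ 0
  simp only at h5
  linarith

/-- A function on `ℝ` that is constant near every point is constant. -/
theorem const_of_local {f : ℝ → ℝ} (h : ∀ τ, ∀ᶠ ε in 𝓝 (0 : ℝ), f (τ + ε) = f τ) (τ : ℝ) :
    f τ = f 0 := by
  have := affine_of_local (f := f) (m := fun _ => 0) (by simpa using h) τ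
  simpa using this

theorem eventually_nhds_of_both {P : ℝ → Prop} (h0 : P 0) (h1 : ∀ᶠ ε in 𝓝[>] (0 : ℝ), P ε)
    (h2 : ∀ᶠ ε in 𝓝[>] (0 : ℝ), P (-ε)) : ∀ᶠ ε in 𝓝 (0 : ℝ), P ε := by
  have h3 : ∀ᶠ ε in 𝓝[<] (0 : ℝ), P ε := by
    have : Tendsto (fun ε : ℝ => -ε) (𝓝[<] 0) (𝓝[>] 0) := by
      have := tendsto_neg_nhdsLT (a := (0 : ℝ))
      simpa using this
    filter_upwards [this.eventually h2] with ε hε
    simpa using hε
  have h4 : 𝓝 (0 : ℝ) = 𝓝[<] 0 ⊔ 𝓝[≥] 0 := (nhdsLT_sup_nhdsGE 0).symm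
  have h5 : 𝓝[≥] (0 : ℝ) = pure 0 ⊔ 𝓝[>] 0 := by
    rw [← Ioi_insert, nhdsWithin_insert]
  rw [h4, h5]
  exact ⟨h3, ⟨h0, h1⟩⟩

end Pool.Agent.Helper54.IB
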