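import Pool.Agent.Helper54.IB.Generic

/-!
# From local symmetry to zonotopes
-/

open Filter Topology Set

noncomputable section

namespace Pool.Agent.Helper54.IB

variable {E : Type*} [NormedAddCommGroup E] [InnerProductSpace ℝ E]

/-- The local symmetry condition at codimension two. -/
def LocalSym (A : Finset E) : Prop :=
  ∀ ξ η z : E, ‖ξ‖ = 1 → ‖η‖ = 1 → inner ℝ ξ η = 0 → z ≠ 0 → inner ℝ ξ z = 0 → inner ℝ η z = 0 →
    (∀ a ∈ fc A z, ∀ b ∈ fc A z, ∃ s t : ℝ, a - b = s • ξ + t • η) →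
    kink (fc A z) ξ η = kink (fc A z) ξ (-η)

variable {A B : Finset E} {x y v : E}

theorem mem_fc_iff {a : E} : a ∈ fc B v ↔ a ∈ B ∧ ∀ b ∈ B, inner ℝ b v ≤ inner ℝ a v := by
  constructor
  · intro h
    exact ⟨fc_subset h, fun b hb => by rw [(mem_fc.mp h).2]; exact le_pn hb v⟩
  · rintro ⟨h1, h2⟩
    exact mem_fc.mpr ⟨h1, (pn_eq_of ⟨a, h1⟩ h2 ⟨a, h1, rfl⟩).symm⟩

theorem fc_congr {w : E} {c : ℝ} (hc : 0 < c)
    (h : ∀ a ∈ B, ∀ b ∈ B, inner ℝ (a - b) v = c * inner ℝ (a - b) w) : fc B v = fc B w := by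
  ext a
  rw [mem_fc_iff, mem_fc_iff]
  refine and_congr_right fun ha => forall₂_congr fun b hb => ?_
  have h1 := h a ha b hb
  rw [inner_sub_left, inner_sub_left] at h1
  constructor
  · intro h2
    have : 0 ≤ c * (inner ℝ a w - inner ℝ b w) := by rw [← h1]; linarith
    have := nonneg_of_mul_nonneg_right this hc
    linarith
  · intro h2
    have : 0 ≤ c * (inner ℝ a w - inner ℝ b w) := mul_nonneg hc.le (by linarith)
    linarith

theorem fc_eq_self (h : ∀ a ∈ B, ∀ b ∈ B, inner ℝ (a - b) v = 0) : fc B v = B := by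
  ext a
  rw [mem_fc_iff]
  refine ⟨fun h => h.1, fun ha => ⟨ha, fun b hb => ?_⟩⟩
  have h1 := h a ha b hb
  rw [inner_sub_left] at h1
  linarith

theorem inner_sub_eq_zero_of_mem_fc {a b : E} (ha : a ∈ fc B v) (hb : b ∈ fc B v) :
    inner ℝ (a - b) v = 0 := by
  rw [inner_sub_left, (mem_fc.mp ha).2, (mem_fc.mp hb).2, sub_self]

theorem fc_fc : fc (fc B v) v = fc B v :=
  fc_eq_self fun _ ha _ hb => inner_sub_eq_zero_of_mem_fc ha hb

theorem fc_fc_neg : fc (fc B (-v)) v = fc B (-v) :=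
  fc_eq_self fun _ ha _ hb => by
    have := inner_sub_eq_zero_of_mem_fc ha hb
    rwa [inner_neg_right, neg_eq_zero] at this

theorem fc_neg_eq_self (h : ∀ a ∈ B, ∀ b ∈ B, inner ℝ (a - b) v = 0) : fc B (-v) = B :=
  fc_eq_self fun a ha b hb => by rw [inner_neg_right, h a ha b hb, neg_zero]

/-- all differences of elements of `A` -/
def diffs (A : Finset E) : Finset E := by
  classical exact (A ×ˢ A).image fun p => p.1 - p.2

omit [InnerProductSpace ℝ E] in
theorem mem_diffs {d : E} : d ∈ diffs A ↔ ∃ a ∈ A, ∃ b ∈ A, a - b = d := by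
  classical
  unfold diffs
  rw [Finset.mem_image]
  constructor
  · rintro ⟨⟨a, b⟩, h, rfl⟩
    rw [Finset.mem_product] at h
    exact ⟨a, h.1, b, h.2, rfl⟩
  · rintro ⟨a, ha, b, hb, rfl⟩
    exact ⟨(a, b), Finset.mem_product.mpr ⟨ha, hb⟩, rfl⟩

/-- The vectors `⟪d, x⟫ d' - ⟪d', x⟫ d` that are not multiples of `ξ`. -/
def badU (A : Finset E) (ξ x : E) : Finset E := by
  classical exact ((diffs A ×ˢ diffs A).image
    fun p => (inner ℝ p.1 x : ℝ) • p.2 - (inner ℝ p.2 x : ℝ) • p.1).filter (NotMul ξ)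

theorem badU_notMul {ξ u : E} (h : u ∈ badU A ξ x) : NotMul ξ u := by
  classical
  unfold badU at h
  exact (Finset.mem_filter.mp h).2

theorem mem_badU {ξ d d' : E} (hd : d ∈ diffs A) (hd' : d' ∈ diffs A)
    (h : NotMul ξ ((inner ℝ d x : ℝ) • d' - (inner ℝ d' x : ℝ) • d)) :
    (inner ℝ d x : ℝ) • d' - (inner ℝ d' x : ℝ) • d ∈ badU A ξ x := by
  classical
  unfold badU
  rw [Finset.mem_filter]
  exact ⟨Finset.mem_image.mpr ⟨(d, d'), Finset.mem_product.mpr ⟨hd, hd'⟩, rfl⟩, h⟩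

/-- On the line through `x` and `y'`, two differences vanishing at the same point are dependent
modulo `ξ`. -/
theorem line_dep {ξ y' d d' : E} {τ : ℝ} (hy' : ∀ u ∈ badU A ξ x, inner ℝ u y' ≠ 0)
    (hd : d ∈ diffs A) (hd' : d' ∈ diffs A)
    (h1 : inner ℝ d (x + τ • (y' - x)) = 0) (h2 : inner ℝ d' (x + τ • (y' - x)) = 0) :
    ∃ c : ℝ, (inner ℝ d x : ℝ) • d' - (inner ℝ d' x : ℝ) • d = c • ξ := by
  by_contra hcon
  push Not at hcon
  have h3 := hy' _ (mem_badU hd hd' hcon)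
  apply h3
  have h4 : inner ℝ ((inner ℝ d x : ℝ) • d' - (inner ℝ d' x : ℝ) • d) y' =
      inner ℝ d x * inner ℝ d' y' - inner ℝ d' x * inner ℝ d y' := by
    rw [inner_sub_left, inner_smul_left, inner_smul_left]; simp
  rw [h4]
  rw [inner_add_right, inner_smul_right, inner_sub_right] at h1 h2
  -- (1 - τ) ⟪d,x⟫ = -τ ⟪d,y'⟫ etc.
  by_cases hτ : τ = 0
  · subst hτ
    have e1 : inner ℝ d x = 0 := by linarith
    have e2 : inner ℝ d' x = 0 := by linarith
    rw [e1, e2]; ring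
  · have e1 : inner ℝ d y' = -(1 - τ) / τ * inner ℝ d x := by field_simp; linarith
    have e2 : inner ℝ d' y' = -(1 - τ) / τ * inner ℝ d' x := by field_simp; linarith
    rw [e1, e2]; ring

/-- **Claim A.** The kink in direction `ξ` is the same at all generic points of `ξᗮ`. -/
theorem kink_const (hA : A.Nonempty) (hL : LocalSym A)
    (hdim : ∀ ξ d : E, ∃ a ∈ A, ∃ b ∈ A, ∀ s t : ℝ, a - b ≠ s • ξ + t • d)
    {ξ : E} (hξ : ‖ξ‖ = 1) (hx : inner ℝ ξ x = 0) (hy : inner ℝ ξ y = 0)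
    (hgx : ∀ d ∈ diffs A, inner ℝ d x = 0 → ∃ c : ℝ, d = c • ξ)
    (hgy : ∀ a ∈ fc A y, ∀ b ∈ fc A y, ∃ c : ℝ, a - b = c • ξ) :
    kink A ξ x = kink A ξ y := by
  obtain ⟨y', hsub, hy'1, hy'2⟩ := exists_near ξ y (badU A ξ x) (fun u hu => badU_notMul hu)
    (eventually_fc_subset hA y)
  rw [hy] at hy'1
  have hfy : fc A y' = fc A y := by
    refine Finset.Subset.antisymm hsub fun a ha => ?_
    obtain ⟨b, hb⟩ := fc_nonempty (x := y') hA
    obtain ⟨c, hc⟩ := hgy a ha b (hsub hb)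
    have h1 : inner ℝ (a - b) y' = 0 := by rw [hc, inner_smul_left, hy'1]; simp
    rw [inner_sub_left] at h1
    exact mem_fc.mpr ⟨fc_subset ha, by rw [← (mem_fc.mp hb).2]; linarith⟩
  set v := y' - x with hv
  have hξv : inner ℝ ξ v = 0 := by rw [hv, inner_sub_right, hy'1, hx, sub_zero]
  have hξγ : ∀ τ : ℝ, inner ℝ ξ (x + τ • v) = 0 := fun τ => by
    rw [inner_add_right, inner_smul_right, hx, hξv]; simp
  -- differences within a face on the line
  have hspan : ∀ τ : ℝ, ∀ d₀ ∈ diffs A, inner ℝ d₀ (x + τ • v) = 0 → NotMul ξ d₀ →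
      ∀ d ∈ diffs A, inner ℝ d (x + τ • v) = 0 → ∃ s t : ℝ, d = s • ξ + t • d₀ := by
    intro τ d₀ hd₀ h0 hnm d hd h1
    obtain ⟨c, hc⟩ := line_dep hy'2 hd₀ hd h0 h1
    have hne : inner ℝ d₀ x ≠ (0 : ℝ) := by
      intro h
      obtain ⟨c', hc'⟩ := hgx d₀ hd₀ h
      exact hnm c' hc'
    refine ⟨(inner ℝ d₀ x)⁻¹ * c, (inner ℝ d₀ x)⁻¹ * inner ℝ d x, ?_⟩
    have h2 : (inner ℝ d₀ x : ℝ) • d = c • ξ + (inner ℝ d x : ℝ) • d₀ := by
      rw [← hc]; abel
    rw [mul_smul, mul_smul, ← smul_add, ← h2, smul_smul, inv_mul_cancel₀ hne, one_smul]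
  -- equality of the two one-sided kinks on the line
  have hsym : ∀ τ : ℝ, kink (fc A (x + τ • v)) ξ v = kink (fc A (x + τ • v)) ξ (-v) := by
    intro τ
    set B := fc A (x + τ • v) with hB
    have hBd : ∀ a ∈ B, ∀ b ∈ B, a - b ∈ diffs A ∧ inner ℝ (a - b) (x + τ • v) = 0 :=
      fun a ha b hb => ⟨mem_diffs.mpr ⟨a, fc_subset ha, b, fc_subset hb, rfl⟩,
        inner_sub_eq_zero_of_mem_fc ha hb⟩
    by_cases hcase : ∀ a ∈ B, ∀ b ∈ B, ∃ c : ℝ, a - b = c • ξ
    · have h0 : ∀ a ∈ B, ∀ b ∈ B, inner ℝ (a - b) v = 0 := by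
        intro a ha b hb
        obtain ⟨c, hc⟩ := hcase a ha b hb
        rw [hc, inner_smul_left, hξv]; simp
      unfold kink
      rw [fc_eq_self h0, fc_neg_eq_self h0]
    · push Not at hcase
      obtain ⟨a₀, ha₀, b₀, hb₀, hnm⟩ := hcase
      set d₀ := a₀ - b₀ with hd₀
      have hd₀' := hBd a₀ ha₀ b₀ hb₀
      rw [← hd₀] at hd₀'
      -- the unit vector η
      set η₀ := d₀ - (inner ℝ ξ d₀ : ℝ) • ξ with hη₀
      have hη₀ne : η₀ ≠ 0 := sub_ne_zero.mpr (hnm _)
      have hξξ : inner ℝ ξ ξ = (1 : ℝ) := by rw [real_inner_self_eq_norm_sq, hξ]; norm_num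
      have hξη₀ : inner ℝ ξ η₀ = 0 := by
        rw [hη₀, inner_sub_right, inner_smul_right, hξξ]; ring
      set n₀ := ‖η₀‖ with hn₀
      have hn₀pos : 0 < n₀ := norm_pos_iff.mpr hη₀ne
      set η := n₀⁻¹ • η₀ with hη
      have hηnorm : ‖η‖ = 1 := by
        rw [hη, norm_smul, Real.norm_eq_abs, abs_of_pos (inv_pos.mpr hn₀pos), ← hn₀,
          inv_mul_cancel₀ hn₀pos.ne']
      have hξη : inner ℝ ξ η = 0 := by rw [hη, inner_smul_right, hξη₀, mul_zero]
      have hηη : inner ℝ η η = (1 : ℝ) := by rw [real_inner_self_eq_norm_sq, hηnorm]; norm_num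
      have hηz : inner ℝ η (x + τ • v) = 0 := by
        rw [hη, inner_smul_left, hη₀, inner_sub_left, inner_smul_left, hd₀'.2, hξγ τ]; simp
      have hz : x + τ • v ≠ 0 := by
        intro hz
        obtain ⟨a, ha, b, hb, hab⟩ := hdim ξ d₀
        have h0 : inner ℝ (a - b) (x + τ • v) = 0 := by rw [hz, inner_zero_right]
        obtain ⟨s, t, hst⟩ := hspan τ d₀ hd₀'.1 hd₀'.2 hnm (a - b)
          (mem_diffs.mpr ⟨a, ha, b, hb, rfl⟩) h0
        exact hab s t hst
      have hspanη : ∀ a ∈ B, ∀ b ∈ B, ∃ s t : ℝ, a - b = s • ξ + t • η := by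
        intro a ha b hb
        have h1 := hBd a ha b hb
        obtain ⟨s, t, hst⟩ := hspan τ d₀ hd₀'.1 hd₀'.2 hnm (a - b) h1.1 h1.2
        refine ⟨s + t * inner ℝ ξ d₀, t * n₀, ?_⟩
        have h2 : d₀ = (inner ℝ ξ d₀ : ℝ) • ξ + n₀ • η := by
          rw [hη, smul_smul, mul_inv_cancel₀ hn₀pos.ne', one_smul, hη₀]; abel
        rw [hst]
        conv_lhs => rw [h2]
        rw [smul_add, smul_smul, smul_smul, add_smul]; abel
      have hloc := hL ξ η (x + τ • v) hξ hηnorm hξη hz (hξγ τ) hηz hspanη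
      rw [← hB] at hloc
      have hin : ∀ a ∈ B, ∀ b ∈ B, inner ℝ (a - b) v = inner ℝ η v * inner ℝ (a - b) η := by
        intro a ha b hb
        obtain ⟨s, t, hst⟩ := hspanη a ha b hb
        have e1 : inner ℝ (s • ξ + t • η) v = t * inner ℝ η v := by
          rw [inner_add_left, real_inner_smul_left, real_inner_smul_left, hξv]; ring
        have e2 : inner ℝ (s • ξ + t • η) η = t := by
          rw [inner_add_left, real_inner_smul_left, real_inner_smul_left, hηη, hξη]; ring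
        rw [hst, e1, e2]; ring
      rcases lt_trichotomy (inner ℝ η v) (0 : ℝ) with hneg | hzero | hpos
      · have h1 : fc B v = fc B (-η) := by
          refine fc_congr (c := -inner ℝ η v) (by linarith) fun a ha b hb => ?_
          rw [hin a ha b hb, inner_neg_right]; ring
        have h2 : fc B (-v) = fc B η := by
          refine fc_congr (c := -inner ℝ η v) (by linarith) fun a ha b hb => ?_
          rw [inner_neg_right, hin a ha b hb]; ring
        unfold kink at hloc ⊢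
        rw [h1, h2]; exact hloc.symm
      · have h0 : ∀ a ∈ B, ∀ b ∈ B, inner ℝ (a - b) v = 0 := fun a ha b hb => by
          rw [hin a ha b hb, hzero, zero_mul]
        unfold kink
        rw [fc_eq_self h0, fc_neg_eq_self h0]
      · have h1 : fc B v = fc B η := fc_congr hpos hin
        have h2 : fc B (-v) = fc B (-η) := by
          refine fc_congr hpos fun a ha b hb => ?_
          rw [inner_neg_right, hin a ha b hb, inner_neg_right]; ring
        unfold kink at hloc ⊢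
        rw [h1, h2]; exact hloc
  -- local constancy
  let G : ℝ → ℝ := fun τ => kink (fc A (x + τ • v)) ξ v
  have hG : ∀ τ, ∀ᶠ ε in 𝓝 (0 : ℝ), G (τ + ε) = G τ := by
    intro τ
    refine eventually_nhds_of_both (by rw [add_zero]) ?_ ?_
    · filter_upwards [eventually_local hA (x + τ • v) v] with ε hε
      have e1 : x + (τ + ε) • v = x + τ • v + ε • v := by rw [add_smul]; abel
      simp only [G]
      rw [e1, hε.1]
      unfold kink
      rw [fc_fc]
    · filter_upwards [eventually_local hA (x + τ • v) (-v)] with ε hε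
      have e1 : x + (τ + -ε) • v = x + τ • v + ε • (-v) := by
        rw [add_smul, neg_smul, smul_neg]; abel
      simp only [G]
      rw [e1, hε.1, hsym τ]
      unfold kink
      rw [fc_fc_neg]
  have h01 : G 1 = G 0 := const_of_local hG 1
  have hG0 : G 0 = kink A ξ x := by
    simp only [G]
    rw [zero_smul, add_zero]
    unfold kink
    rw [fc_eq_self (B := fc A x)]
    intro a ha b hb
    obtain ⟨c, hc⟩ := hgx (a - b) (mem_diffs.mpr ⟨a, fc_subset ha, b, fc_subset hb, rfl⟩)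
      (inner_sub_eq_zero_of_mem_fc ha hb)
    rw [hc, inner_smul_left, hξv]; simp
  have hG1 : G 1 = kink A ξ y := by
    simp only [G]
    have e1 : x + (1 : ℝ) • v = y' := by rw [one_smul, hv]; abel
    rw [e1, hfy]
    unfold kink
    rw [fc_eq_self (B := fc A y)]
    intro a ha b hb
    obtain ⟨c, hc⟩ := hgy a ha b hb
    rw [hc, inner_smul_left, hξv]; simp
  rw [← hG0, ← hG1, h01]

end Pool.Agent.Helper54.IB
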