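import Pool.Agent.Helper54.IB.LocInt
import Pool.Agent.Helper54.IB.Zonotope

/-!
# The two scaling limits
-/

open Filter Topology Set MeasureTheory Function

set_option linter.unusedSectionVars false

noncomputable section

namespace Pool.Agent.Helper54.IB

variable {E : Type*} [NormedAddCommGroup E] [InnerProductSpace ℝ E]

/-- `w ↦ w + (δ - 1) ⟪ξ, w⟫ ξ` -/
def strLin (ξ : E) (δ : ℝ) : E →ₗ[ℝ] E where
  toFun w := w + ((δ - 1) * inner ℝ ξ w) • ξ
  map_add' x y := by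
    rw [inner_add_right, mul_add, add_smul]; abel
  map_smul' c x := by
    rw [inner_smul_right, RingHom.id_apply, smul_add, smul_smul]; congr 2; ring

theorem strLin_apply (ξ : E) (δ : ℝ) (w : E) :
    strLin ξ δ w = w + ((δ - 1) * inner ℝ ξ w) • ξ := rfl

theorem inner_self_one {ξ : E} (hξ : ‖ξ‖ = 1) : inner ℝ ξ ξ = (1 : ℝ) := by
  rw [real_inner_self_eq_norm_sq, hξ]; norm_num

theorem strLin_strLin {ξ : E} (hξ : ‖ξ‖ = 1) (δ δ' : ℝ) (w : E) :
    strLin ξ δ (strLin ξ δ' w) = strLin ξ (δ * δ') w := by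
  rw [strLin_apply, strLin_apply, strLin_apply, inner_add_right, inner_smul_right,
    inner_self_one hξ, add_assoc, ← add_smul]
  congr 2; ring

theorem strLin_one {ξ : E} (w : E) : strLin ξ 1 w = w := by
  rw [strLin_apply]; simp

/-- the stretch as a continuous linear equivalence -/
def str [FiniteDimensional ℝ E] (ξ : E) (hξ : ‖ξ‖ = 1) (δ : ℝ) (hδ : δ ≠ 0) : E ≃L[ℝ] E :=
  (LinearEquiv.ofLinearMap (strLin ξ δ) (strLin ξ δ⁻¹)
    (by ext w; simp only [LinearMap.comp_apply, LinearMap.id_apply]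
        rw [strLin_strLin hξ, mul_inv_cancel₀ hδ, strLin_one])
    (by ext w; simp only [LinearMap.comp_apply, LinearMap.id_apply]
        rw [strLin_strLin hξ, inv_mul_cancel₀ hδ, strLin_one])).toContinuousLinearEquiv

theorem str_apply [FiniteDimensional ℝ E] (ξ : E) (hξ : ‖ξ‖ = 1) (δ : ℝ) (hδ : δ ≠ 0) (w : E) :
    str ξ hξ δ hδ w = w + ((δ - 1) * inner ℝ ξ w) • ξ := rfl

/-- component of `w` orthogonal to `ξ` -/
def perp (ξ w : E) : E := w - (inner ℝ ξ w : ℝ) • ξ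

theorem inner_perp {ξ : E} (hξ : ‖ξ‖ = 1) (w : E) : inner ℝ ξ (perp ξ w) = 0 := by
  unfold perp
  rw [inner_sub_right, inner_smul_right, inner_self_one hξ]; ring

theorem str_apply' [FiniteDimensional ℝ E] (ξ : E) (hξ : ‖ξ‖ = 1) (δ : ℝ) (hδ : δ ≠ 0) (w : E) :
    str ξ hξ δ hδ w = perp ξ w + δ • ((inner ℝ ξ w : ℝ) • ξ) := by
  rw [str_apply, perp, smul_smul, sub_mul, sub_smul, one_mul]; abel

theorem perp_add_smul {ξ : E} (hξ : ‖ξ‖ = 1) (w : E) (c : ℝ) : perp ξ (w + c • ξ) = perp ξ w := by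
  unfold perp
  rw [inner_add_right, inner_smul_right, inner_self_one hξ, mul_one, add_smul]; abel

theorem norm_perp_add_ge {ξ : E} (hξ : ‖ξ‖ = 1) (w : E) (c : ℝ) :
    ‖perp ξ w‖ ≤ ‖perp ξ w + c • ξ‖ := by
  have h1 : ‖perp ξ w + c • ξ‖ ^ 2 = ‖perp ξ w‖ ^ 2 + c ^ 2 := by
    rw [norm_add_sq_real, inner_smul_right, real_inner_comm, inner_perp hξ, norm_smul, hξ]
    simp
  have h2 : ‖perp ξ w‖ ^ 2 ≤ ‖perp ξ w + c • ξ‖ ^ 2 := by rw [h1]; nlinarith [sq_nonneg c]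
  exact (sq_le_sq₀ (norm_nonneg _) (norm_nonneg _)).mp h2

/-- second difference of `c ↦ pn F (c ξ)` -/
theorem second_diff {F : Finset E} (hF : F.Nonempty) (ξ : E) (s : ℝ) :
    pn F ((s + 1) • ξ) + pn F ((s - 1) • ξ) - 2 * pn F (s • ξ) =
      max 0 (1 - |s|) * (pn F ξ + pn F (-ξ)) := by
  have hp : ∀ c : ℝ, 0 ≤ c → pn F (c • ξ) = c * pn F ξ := fun c hc => pn_smul hF hc ξ
  have hn : ∀ c : ℝ, c ≤ 0 → pn F (c • ξ) = -c * pn F (-ξ) := fun c hc => by
    rw [← pn_smul hF (by linarith : 0 ≤ -c), smul_neg, neg_smul, neg_neg]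
  rcases le_total 0 s with h0 | h0
  · rw [abs_of_nonneg h0]
    rcases le_total s 1 with h1 | h1
    · rw [hp _ (by linarith), hn _ (by linarith : s - 1 ≤ 0), hp s h0,
        max_eq_right (by linarith)]; ring
    · rw [hp _ (by linarith), hp _ (by linarith : 0 ≤ s - 1), hp s h0,
        max_eq_left (by linarith)]; ring
  · rw [abs_of_nonpos h0]
    rcases le_total (-1) s with h1 | h1
    · rw [hp _ (by linarith), hn _ (by linarith : s - 1 ≤ 0), hn s h0,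
        max_eq_right (by linarith)]; ring
    · rw [hn _ (by linarith : s + 1 ≤ 0), hn _ (by linarith : s - 1 ≤ 0), hn s h0,
        max_eq_left (by linarith)]; ring

/-- first limit kernel -/
def K1 (A : Finset E) (ξ w : E) : ℝ :=
  max 0 (1 - |inner ℝ ξ w|) * kink A ξ (perp ξ w) / (pn A (perp ξ w)) ^ 2

/-- second limit kernel -/
def K2 (A : Finset E) (ξ η w : E) : ℝ :=
  max 0 (1 - |inner ℝ ξ w|) * kink (fc A (perp η (perp ξ w))) ξ ((inner ℝ η w : ℝ) • η) /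
    (pn A (perp η (perp ξ w))) ^ 2

/-- standing assumptions on the norm -/
structure Coer (A : Finset E) (c : ℝ) : Prop where
  ne : A.Nonempty
  symm : Symm A
  pos : 0 < c
  le : ∀ x, c * ‖x‖ ≤ pn A x

variable {A : Finset E} {c : ℝ}

theorem Coer.pn_pos (hA : Coer A c) {x : E} (hx : x ≠ 0) : 0 < pn A x :=
  lt_of_lt_of_le (mul_pos hA.pos (norm_pos_iff.mpr hx)) (hA.le x)

theorem Coer.inv_sq_le (hA : Coer A c) {x : E} (hx : x ≠ 0) :
    ((pn A x) ^ 2)⁻¹ ≤ (c ^ 2)⁻¹ * (‖x‖ ^ 2)⁻¹ := by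
  have h0 := hA.pos
  have h1 : 0 < ‖x‖ := norm_pos_iff.mpr hx
  rw [← mul_inv, ← mul_pow]
  exact inv_anti₀ (by positivity) (pow_le_pow_left₀ (by positivity) (hA.le x) 2)

theorem Coer.diff_bound (hA : Coer A c) {ξ y : E} (hξ : ‖ξ‖ = 1) (hy : perp ξ y ≠ 0)
    (s t : ℝ) : |(pn A (perp ξ y + s • ξ))⁻¹ - (pn A (perp ξ y + t • ξ))⁻¹| ≤
      bd A * |s - t| * ((c ^ 2)⁻¹ * (‖perp ξ y‖ ^ 2)⁻¹) := by
  have h0 := hA.pos
  have hn : 0 < ‖perp ξ y‖ := norm_pos_iff.mpr hy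
  have hs : c * ‖perp ξ y‖ ≤ pn A (perp ξ y + s • ξ) :=
    (mul_le_mul_of_nonneg_left (norm_perp_add_ge hξ y s) h0.le).trans (hA.le _)
  have ht : c * ‖perp ξ y‖ ≤ pn A (perp ξ y + t • ξ) :=
    (mul_le_mul_of_nonneg_left (norm_perp_add_ge hξ y t) h0.le).trans (hA.le _)
  have hcn : 0 < c * ‖perp ξ y‖ := by positivity
  have hs0 := hcn.trans_le hs
  have ht0 := hcn.trans_le ht
  rw [inv_sub_inv hs0.ne' ht0.ne', abs_div, abs_of_pos (mul_pos hs0 ht0)]
  have h1 : |pn A (perp ξ y + t • ξ) - pn A (perp ξ y + s • ξ)| ≤ bd A * |s - t| := by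
    refine (abs_pn_sub_le hA.ne _ _).trans ?_
    have : perp ξ y + t • ξ - (perp ξ y + s • ξ) = (t - s) • ξ := by rw [sub_smul]; abel
    rw [this, norm_smul, hξ, mul_one, Real.norm_eq_abs, abs_sub_comm]
  rw [div_eq_mul_inv, ← mul_inv, ← mul_pow]
  refine mul_le_mul h1 ?_ (by positivity) (mul_nonneg (bd_nonneg A) (abs_nonneg _))
  refine inv_anti₀ (by positivity) ?_
  rw [pow_two]
  exact mul_le_mul hs ht hcn.le hs0.le

/-- pointwise first limit -/
theorem Coer.tendsto_K1 (hA : Coer A c) {ξ w : E} (hy : perp ξ w ≠ 0) :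
    Tendsto (fun δ : ℝ => δ⁻¹ * (2 * (pn A (perp ξ w + δ • ((inner ℝ ξ w : ℝ) • ξ)))⁻¹
      - (pn A (perp ξ w + δ • ((inner ℝ ξ w + 1 : ℝ) • ξ)))⁻¹
      - (pn A (perp ξ w + δ • ((inner ℝ ξ w - 1 : ℝ) • ξ)))⁻¹)) (𝓝[>] 0) (𝓝 (K1 A ξ w)) := by
  set y := perp ξ w with hydef
  set s : ℝ := inner ℝ ξ w with hs
  have hp := hA.pn_pos hy
  -- limit of one difference quotient
  have key : ∀ v : E, Tendsto (fun δ : ℝ => δ⁻¹ * ((pn A (y + δ • v))⁻¹ - (pn A y)⁻¹)) (𝓝[>] 0)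
      (𝓝 (-(pn (fc A y) v) / (pn A y) ^ 2)) := by
    intro v
    have h1 : Tendsto (fun δ : ℝ => pn A (y + δ • v)) (𝓝[>] 0) (𝓝 (pn A y)) := by
      have hc : Continuous fun δ : ℝ => pn A (y + δ • v) :=
        (continuous_pn hA.ne).comp (by fun_prop)
      have h2 := (hc.tendsto 0).mono_left (nhdsWithin_le_nhds (s := Ioi (0 : ℝ)))
      simpa using h2
    have h2 : Tendsto (fun δ : ℝ => -(pn (fc A y) v) * ((pn A y)⁻¹ * (pn A (y + δ • v))⁻¹))
        (𝓝[>] 0) (𝓝 (-(pn (fc A y) v) / (pn A y) ^ 2)) := by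
      have h3 := ((h1.inv₀ hp.ne').const_mul (pn A y)⁻¹).const_mul (-(pn (fc A y) v))
      have h4 : -(pn (fc A y) v) * ((pn A y)⁻¹ * (pn A y)⁻¹) = -(pn (fc A y) v) / (pn A y) ^ 2 := by
        rw [pow_two, div_eq_mul_inv, mul_inv]
      rwa [h4] at h3
    refine h2.congr' ?_
    filter_upwards [eventually_local hA.ne y v, self_mem_nhdsWithin,
      h1.eventually_ne hp.ne'] with δ hδ hδ0 hne
    have hδ0' : δ ≠ 0 := ne_of_gt hδ0
    rw [inv_sub_inv hne hp.ne']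
    have : pn A y - pn A (y + δ • v) = -(δ * pn (fc A y) v) := by rw [hδ.2]; ring
    rw [this]
    field_simp
  have h2 := ((key (s • ξ)).const_mul 2).sub (key ((s + 1) • ξ))
  have h3 := h2.sub (key ((s - 1) • ξ))
  have e1 : 2 * (-(pn (fc A y) (s • ξ)) / (pn A y) ^ 2) - -(pn (fc A y) ((s + 1) • ξ)) / (pn A y) ^ 2
      - -(pn (fc A y) ((s - 1) • ξ)) / (pn A y) ^ 2 = K1 A ξ w := by
    unfold K1
    rw [← hydef, ← hs]
    have := second_diff (fc_nonempty (x := y) hA.ne) ξ s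
    unfold kink
    rw [← this]; ring
  rw [e1] at h3
  refine h3.congr fun δ => ?_
  ring

variable [FiniteDimensional ℝ E] [MeasurableSpace E] [BorelSpace E]

theorem measurable_inv_pn (hA : A.Nonempty) : Measurable fun w : E => (pn A w)⁻¹ :=
  (continuous_pn hA).measurable.inv

/-- almost every point is not in a given proper subspace -/
theorem ae_proj_ne_zero (s : Submodule ℝ E) (hs : s ≠ ⊥) :
    ∀ᵐ w : E, s.orthogonalProjectionOnto w ≠ 0 := by
  have h1 : (volume : Measure E) (sᗮ : Set E) = 0 := by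
    refine Measure.addHaar_submodule volume sᗮ ?_
    intro h
    rw [Submodule.orthogonal_eq_top_iff] at h
    exact hs h
  rw [ae_iff]
  refine measure_mono_null (fun w hw => ?_) h1
  simp only [Set.mem_ofPred_eq, not_not] at hw
  exact (Submodule.orthogonalProjectionOnto_eq_zero_iff).mp hw

end Pool.Agent.Helper54.IB
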