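import Pool.Agent.Helper54.IB.Defs
import Pool.Agent.Helper54.IB.Limit

/-!
# Symmetric polytopes as unit balls of `pn A`
-/

open Filter Topology Set MeasureTheory Function Metric

set_option linter.unusedSectionVars false

noncomputable section

namespace Pool.Agent.Helper54.IB

variable {E : Type*} [NormedAddCommGroup E] [InnerProductSpace ℝ E] [FiniteDimensional ℝ E]

/-- A symmetric convex set with an interior point contains a ball around the origin. -/
theorem exists_ball_subset {K : Set E} (hc : Convex ℝ K) (hs : ∀ x ∈ K, -x ∈ K)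
    (hi : (interior K).Nonempty) : ∃ r > 0, closedBall (0 : E) r ⊆ K := by
  obtain ⟨x, hx⟩ := hi
  obtain ⟨r, hr, hball⟩ := Metric.isOpen_iff.mp isOpen_interior x hx
  refine ⟨r / 2, by positivity, fun y hy => ?_⟩
  rw [mem_closedBall_zero_iff] at hy
  have h1 : x + y ∈ K := interior_subset (hball (by
    rw [mem_ball, dist_eq_norm, add_sub_cancel_left]; linarith))
  have h2 : x - y ∈ K := interior_subset (hball (by
    rw [mem_ball, dist_eq_norm, sub_sub_cancel_left, norm_neg]; linarith))
  have h3 := hs _ h2
  have h4 := hc h1 h3 (by norm_num : (0 : ℝ) ≤ 1 / 2) (by norm_num : (0 : ℝ) ≤ 1 / 2)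
    (by norm_num)
  have h5 : (1 / 2 : ℝ) • (x + y) + (1 / 2 : ℝ) • -(x - y) = y := by
    rw [← smul_add]
    have : x + y + -(x - y) = (2 : ℝ) • y := by rw [two_smul]; abel
    rw [this, smul_smul]; norm_num
  rwa [h5] at h4

theorem convex_polarBody (K : Set E) : Convex ℝ (polarBody K) := by
  intro y hy z hz a b ha hb hab x hx
  rw [inner_add_right, inner_smul_right, inner_smul_right]
  have h1 := mul_le_mul_of_nonneg_left (hy x hx) ha
  have h2 := mul_le_mul_of_nonneg_left (hz x hx) hb
  linarith

theorem isClosed_polarBody (K : Set E) : IsClosed (polarBody K) := by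
  have : polarBody K = ⋂ x ∈ K, {y : E | inner ℝ x y ≤ (1 : ℝ)} := by
    ext y; simp [polarBody]
  rw [this]
  exact isClosed_biInter fun x _ => isClosed_le (by fun_prop) continuous_const

theorem isCompact_polarBody {K : Set E} {r : ℝ} (hr : 0 < r) (hK : closedBall (0 : E) r ⊆ K) :
    IsCompact (polarBody K) := by
  refine Metric.isCompact_of_isClosed_isBounded (isClosed_polarBody K) ?_
  rw [isBounded_iff_forall_norm_le]
  refine ⟨r⁻¹, fun y hy => ?_⟩
  by_cases h0 : y = 0
  · rw [h0, norm_zero]; positivity
  · have hy0 : 0 < ‖y‖ := norm_pos_iff.mpr h0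
    have h1 : (r / ‖y‖) • y ∈ K := hK (by
      rw [mem_closedBall_zero_iff, norm_smul, Real.norm_eq_abs, abs_of_pos (by positivity),
        div_mul_cancel₀ _ hy0.ne'])
    have h2 := hy _ h1
    rw [inner_smul_left, real_inner_self_eq_norm_sq] at h2
    simp only [conj_trivial] at h2
    have h3 : r * ‖y‖ ≤ 1 := by
      have : r / ‖y‖ * ‖y‖ ^ 2 = r * ‖y‖ := by field_simp
      linarith
    rw [← one_div, le_div_iff₀ hr]; linarith

theorem polarBody_convexHull (V : Set E) : polarBody (convexHull ℝ V) = polarBody V := by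
  ext y
  constructor
  · intro h x hx; exact h x (subset_convexHull ℝ V hx)
  · intro h x hx
    have hc : Convex ℝ {x : E | inner ℝ x y ≤ (1 : ℝ)} := by
      intro a ha b hb s t hs ht hst
      simp only [Set.mem_ofPred_eq] at *
      rw [inner_add_left, inner_smul_left, inner_smul_left]
      simp only [conj_trivial]
      have h1 := mul_le_mul_of_nonneg_left ha hs
      have h2 := mul_le_mul_of_nonneg_left hb ht
      linarith
    exact convexHull_min (fun a ha => h a ha) hc hx

/-- bipolar theorem -/
theorem mem_of_forall_polar {K : Set E} (hc : Convex ℝ K) (hcl : IsClosed K) (h0 : (0 : E) ∈ K)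
    {x : E} (h : ∀ y ∈ polarBody K, inner ℝ y x ≤ (1 : ℝ)) : x ∈ K := by
  by_contra hx
  obtain ⟨f, u, h1, h2⟩ := geometric_hahn_banach_closed_point hc hcl hx
  have hu : 0 < u := by
    have := h1 0 h0
    rwa [map_zero] at this
  set y : E := (InnerProductSpace.toDual ℝ E).symm f with hy
  have hf : ∀ z, f z = inner ℝ y z := fun z => by
    rw [hy, InnerProductSpace.toDual_symm_apply]
  have hmem : u⁻¹ • y ∈ polarBody K := by
    intro a ha
    rw [inner_smul_right, real_inner_comm, ← hf]
    have := h1 a ha
    rw [← div_eq_inv_mul, div_le_one hu]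
    exact this.le
  have h3 := h _ hmem
  rw [inner_smul_left, ← hf] at h3
  simp only [conj_trivial] at h3
  rw [← div_eq_inv_mul, div_le_one hu] at h3
  linarith

open Classical in
/-- A polyhedron has finitely many extreme points. -/
theorem finite_extremePoints_polar (V : Finset E) :
    ((polarBody (V : Set E)).extremePoints ℝ).Finite := by
  let act : E → Finset E := fun y => V.filter fun x => inner ℝ x y = (1 : ℝ)
  refine Set.Finite.of_injOn (f := act) (t := (V.powerset : Set (Finset E))) ?_ ?_
    (Finset.finite_toSet _)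
  · intro y _
    simp only [act, Finset.coe_powerset, Set.mem_preimage, Set.mem_powerset_iff,
      Finset.coe_subset]
    exact Finset.filter_subset _ _
  · intro y hy y' hy' heq
    by_contra hne
    rw [mem_extremePoints] at hy
    have hin := hy.1
    have hin' := (mem_extremePoints.mp hy').1
    -- small ε
    have h1 : ∀ x ∈ V, ∀ᶠ ε in 𝓝[>] (0 : ℝ), inner ℝ x (y + ε • (y - y')) ≤ (1 : ℝ) ∧
        inner ℝ x (y - ε • (y - y')) ≤ (1 : ℝ) := by
      intro x hx
      by_cases hxa : inner ℝ x y = (1 : ℝ)
      · have hxa' : inner ℝ x y' = (1 : ℝ) := by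
          have : x ∈ act y' := by
            rw [← heq]; exact Finset.mem_filter.mpr ⟨hx, hxa⟩
          exact (Finset.mem_filter.mp this).2
        refine Eventually.of_forall fun ε => ?_
        rw [inner_add_right, inner_sub_right, inner_smul_right, inner_sub_right, hxa, hxa']
        simp
      · have hlt : inner ℝ x y < (1 : ℝ) := lt_of_le_of_ne (hin x hx) hxa
        have c1 : Tendsto (fun ε : ℝ => inner ℝ x (y + ε • (y - y'))) (𝓝[>] 0) (𝓝 (inner ℝ x y)) := by
          have : Continuous fun ε : ℝ => inner ℝ x (y + ε • (y - y')) := by fun_prop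
          have h2 := (this.tendsto 0).mono_left (nhdsWithin_le_nhds (s := Ioi (0 : ℝ)))
          simpa using h2
        have c2 : Tendsto (fun ε : ℝ => inner ℝ x (y - ε • (y - y'))) (𝓝[>] 0) (𝓝 (inner ℝ x y)) := by
          have : Continuous fun ε : ℝ => inner ℝ x (y - ε • (y - y')) := by fun_prop
          have h2 := (this.tendsto 0).mono_left (nhdsWithin_le_nhds (s := Ioi (0 : ℝ)))
          simpa using h2
        filter_upwards [c1.eventually_lt_const hlt, c2.eventually_lt_const hlt] with ε e1 e2
        exact ⟨e1.le, e2.le⟩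
    have h2 := (Filter.eventually_all_finset V).mpr h1
    obtain ⟨ε, hε, hε0⟩ := (h2.and self_mem_nhdsWithin).exists
    have hε0' : (0 : ℝ) < ε := hε0
    have m1 : y + ε • (y - y') ∈ polarBody (V : Set E) := fun x hx => (hε x hx).1
    have m2 : y - ε • (y - y') ∈ polarBody (V : Set E) := fun x hx => (hε x hx).2
    have hseg : y ∈ openSegment ℝ (y + ε • (y - y')) (y - ε • (y - y')) := by
      refine ⟨1 / 2, 1 / 2, by norm_num, by norm_num, by norm_num, ?_⟩
      rw [← smul_add]
      have : y + ε • (y - y') + (y - ε • (y - y')) = (2 : ℝ) • y := by rw [two_smul]; abel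
      rw [this, smul_smul]; norm_num
    have h3 := (hy.2 _ m1 _ m2 hseg).1
    have h4 : ε • (y - y') = 0 := by
      have := h3
      rwa [add_eq_left] at this
    rcases smul_eq_zero.mp h4 with h5 | h5
    · exact hε0'.ne' h5
    · exact hne (sub_eq_zero.mp h5)

/-- **H-representation of symmetric polytopes.** -/
theorem exists_hrep {K : Set E} (hK : IsPolytope K) (hs : ∀ x ∈ K, -x ∈ K) :
    ∃ (A : Finset E) (c : ℝ), Coer A c ∧ ∀ x, x ∈ K ↔ pn A x ≤ 1 := by
  classical
  obtain ⟨⟨V, rfl⟩, hi⟩ := hK
  set K := convexHull ℝ (V : Set E) with hKdef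
  have hc : Convex ℝ K := convex_convexHull ℝ _
  obtain ⟨r, hr, hball⟩ := exists_ball_subset hc hs hi
  have h0 : (0 : E) ∈ K := hball (by simp [hr.le])
  have hcomp : IsCompact K := (Finset.finite_toSet V).isCompact_convexHull ℝ
  set P := polarBody K with hP
  have hPc : IsCompact P := isCompact_polarBody hr hball
  have hfin : (P.extremePoints ℝ).Finite := by
    rw [hP, hKdef, polarBody_convexHull]
    exact finite_extremePoints_polar V
  have hKM := closure_convexHull_extremePoints hPc (convex_polarBody K)
  rw [(hfin.isClosed_convexHull ℝ).closure_eq] at hKM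
  set A : Finset E := hfin.toFinset with hA
  have hAmem : ∀ a, a ∈ A ↔ a ∈ P.extremePoints ℝ := fun a => by rw [hA, Set.Finite.mem_toFinset]
  have hAP : ∀ a ∈ A, a ∈ P := fun a ha => (mem_extremePoints.mp ((hAmem a).mp ha)).1
  have hPne : P.Nonempty := ⟨0, fun x _ => by rw [inner_zero_right]; exact zero_le_one⟩
  have hAne : A.Nonempty := by
    obtain ⟨a, ha⟩ := hPc.extremePoints_nonempty hPne
    exact ⟨a, (hAmem a).mpr ha⟩
  have hchar : ∀ x, x ∈ K ↔ pn A x ≤ 1 := by
    intro x
    constructor
    · intro hx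
      refine pn_le hAne fun a ha => ?_
      rw [real_inner_comm]
      exact hAP a ha x hx
    · intro hx
      refine mem_of_forall_polar hc hcomp.isClosed h0 fun y hy => ?_
      have hcv : Convex ℝ {y : E | inner ℝ y x ≤ (1 : ℝ)} := by
        intro a ha b hb s t hs ht hst
        simp only [Set.mem_ofPred_eq] at *
        rw [inner_add_left, inner_smul_left, inner_smul_left]
        simp only [conj_trivial]
        have h1 := mul_le_mul_of_nonneg_left ha hs
        have h2 := mul_le_mul_of_nonneg_left hb ht
        linarith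
      have hy' : y ∈ convexHull ℝ (P.extremePoints ℝ) := by rw [hKM]; exact hy
      exact convexHull_min (fun a ha => (le_pn ((hAmem a).mpr ha) x).trans hx) hcv hy'
  have hPsymm : ∀ y ∈ P, -y ∈ P := by
    intro y hy x hx
    rw [inner_neg_right, ← inner_neg_left]
    exact hy _ (hs x hx)
  have hAsymm : Symm A := by
    intro a ha
    rw [hAmem, mem_extremePoints] at ha ⊢
    refine ⟨hPsymm a ha.1, fun x hx y hy hseg => ?_⟩
    have h1 := ha.2 (-x) (hPsymm x hx) (-y) (hPsymm y hy) (by
      obtain ⟨s, t, hs', ht', hst, he⟩ := hseg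
      refine ⟨s, t, hs', ht', hst, ?_⟩
      rw [smul_neg, smul_neg, ← neg_add, he, neg_neg])
    exact ⟨by rw [← h1.1, neg_neg], by rw [← h1.2, neg_neg]⟩
  -- coercivity
  obtain ⟨R, hR⟩ := hcomp.isBounded.subset_closedBall (0 : E)
  have hR0 : 0 ≤ R := by
    have := hR h0
    rw [mem_closedBall_zero_iff, norm_zero] at this
    exact this
  refine ⟨A, 1 / (R + 1), ⟨hAne, hAsymm, by positivity, fun x => ?_⟩, hchar⟩
  by_cases hx : x = 0
  · rw [hx, norm_zero, mul_zero, pn_zero hAne]
  · have hx0 : 0 < ‖x‖ := norm_pos_iff.mpr hx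
    have h1 : ((R + 1) / ‖x‖) • x ∉ K := by
      intro h
      have := hR h
      rw [mem_closedBall_zero_iff, norm_smul, Real.norm_eq_abs, abs_of_pos (by positivity),
        div_mul_cancel₀ _ hx0.ne'] at this
      linarith
    rw [hchar, pn_smul hAne (by positivity), not_le, div_mul_eq_mul_div, lt_div_iff₀ hx0,
      one_mul] at h1
    rw [div_mul_eq_mul_div, one_mul, div_le_iff₀ (by positivity)]
    linarith

end Pool.Agent.Helper54.IB
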