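import Pool.Agent.Helper54.IB.Limit

/-!
# Positive definiteness of the limit kernels
-/

open Filter Topology Set MeasureTheory Function

set_option linter.unusedSectionVars false

noncomputable section

namespace Pool.Agent.Helper54.IB

variable {E : Type*} [NormedAddCommGroup E] [InnerProductSpace ℝ E] [FiniteDimensional ℝ E]
  [MeasurableSpace E] [BorelSpace E] {A : Finset E} {c : ℝ}

theorem measurableSet_fc_eq (hA : A.Nonempty) (B : Finset E) :
    MeasurableSet {y : E | fc A y = B} := by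
  classical
  have h1 : ∀ a : E, MeasurableSet {y : E | a ∈ fc A y} := by
    intro a
    by_cases ha : a ∈ A
    · have : {y : E | a ∈ fc A y} = {y : E | inner ℝ a y = pn A y} := by
        ext y; simp [mem_fc, ha]
      rw [this]
      exact (isClosed_eq (by fun_prop) (continuous_pn hA)).measurableSet
    · have : {y : E | a ∈ fc A y} = ∅ := by
        ext y; simp [mem_fc, ha]
      rw [this]; exact MeasurableSet.empty
  by_cases hB : B ⊆ A
  · have : {y : E | fc A y = B} = ⋂ a ∈ A, {y : E | a ∈ fc A y ↔ a ∈ B} := by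
      ext y
      simp only [Set.mem_setOf_eq, Set.mem_iInter]
      constructor
      · intro h a _; rw [h]
      · intro h
        ext a
        by_cases ha : a ∈ A
        · exact h a ha
        · exact ⟨fun h' => absurd (fc_subset h') ha, fun h' => absurd (hB h') ha⟩
    rw [this]
    refine Finset.measurableSet_biInter A fun a _ => ?_
    by_cases haB : a ∈ B
    · simpa [haB] using h1 a
    · have : {y : E | a ∈ fc A y ↔ a ∈ B} = {y : E | a ∈ fc A y}ᶜ := by
        ext y; simp [haB]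
      rw [this]; exact (h1 a).compl
  · have : {y : E | fc A y = B} = ∅ := by
      ext y
      simp only [Set.mem_setOf_eq, Set.mem_empty_iff_false, iff_false]
      intro h; exact hB (h ▸ fc_subset)
    rw [this]; exact MeasurableSet.empty

theorem measurable_fc_fun (hA : A.Nonempty) {Φ : Finset E → E → ℝ} (hΦ : ∀ B ⊆ A, Measurable (Φ B))
    {g : E → E} (hg : Measurable g) : Measurable fun w => Φ (fc A (g w)) w := by
  classical
  have h1 : (fun w => Φ (fc A (g w)) w) = fun w => ∑ B ∈ A.powerset,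
      ({w | fc A (g w) = B} : Set E).indicator (Φ B) w := by
    ext w
    rw [Finset.sum_eq_single (fc A (g w))]
    · rw [Set.indicator_of_mem]; rfl
    · intro B _ hB
      rw [Set.indicator_of_notMem]
      exact fun h => hB h.symm
    · intro h
      exact absurd (Finset.mem_powerset.mpr fc_subset) h
  rw [h1]
  refine Finset.measurable_fun_sum _ fun B hB => ?_
  exact (hΦ B (Finset.mem_powerset.mp hB)).indicator (hg (measurableSet_fc_eq hA B))

theorem measurable_kink (hA : A.Nonempty) (ξ : E) {g : E → E} (hg : Measurable g) :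
    Measurable fun w => kink A ξ (g w) := by
  unfold kink
  exact measurable_fc_fun hA (Φ := fun B _ => pn B ξ + pn B (-ξ)) (fun B _ => measurable_const) hg

theorem measurable_perp (ξ : E) : Measurable (perp ξ) := by
  unfold perp
  exact Continuous.measurable (by fun_prop)

theorem measurable_K1 (hA : A.Nonempty) (ξ : E) : Measurable (K1 A ξ) := by
  unfold K1
  refine Measurable.div (Measurable.mul ?_ (measurable_kink hA ξ (measurable_perp ξ))) ?_
  · exact Continuous.measurable (by fun_prop)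
  · exact ((continuous_pn hA).measurable.comp (measurable_perp ξ)).pow_const 2

theorem measurable_K2 (hA : A.Nonempty) (ξ η : E) : Measurable (K2 A ξ η) := by
  unfold K2
  have hp : Measurable fun w => perp η (perp ξ w) := (measurable_perp η).comp (measurable_perp ξ)
  refine Measurable.div (Measurable.mul ?_ ?_) ?_
  · exact Continuous.measurable (by fun_prop)
  · refine measurable_fc_fun hA (Φ := fun B w => kink B ξ ((inner ℝ η w : ℝ) • η))
      (fun B _ => ?_) hp
    by_cases hB : B.Nonempty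
    · exact measurable_kink hB ξ (Continuous.measurable (by fun_prop))
    · rw [Finset.not_nonempty_iff_eq_empty] at hB
      subst hB
      have : (fun w : E => kink (∅ : Finset E) ξ ((inner ℝ η w : ℝ) • η)) = fun _ => 0 := by
        ext w
        unfold kink
        have h0 : fc (∅ : Finset E) ((inner ℝ η w : ℝ) • η) = ∅ :=
          Finset.subset_empty.mp fc_subset
        rw [h0]
        unfold pn
        simp
      rw [this]; exact measurable_const
  · exact ((continuous_pn hA).measurable.comp hp).pow_const 2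

/-- `ξ` is orthogonal to `s` -/
theorem proj_perp (s : Submodule ℝ E) {ξ : E} (hξs : ξ ∈ sᗮ) (w : E) :
    s.orthogonalProjectionOnto (perp ξ w) = s.orthogonalProjectionOnto w := by
  unfold perp
  rw [map_sub, map_smul, Submodule.orthogonalProjectionOnto_eq_zero_iff.mpr hξs, smul_zero,
    sub_zero]

theorem norm_proj_le_perp (s : Submodule ℝ E) {ξ : E} (hξs : ξ ∈ sᗮ) (w : E) :
    ‖s.orthogonalProjectionOnto w‖ ≤ ‖perp ξ w‖ := by
  rw [← proj_perp s hξs]
  exact s.norm_orthogonalProjectionOnto_apply_le _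

/-- the dominating function -/
def Gdom (A : Finset E) (c : ℝ) (s : Submodule ℝ E) (w : E) : ℝ :=
  2 * bd A * (c ^ 2)⁻¹ * (‖s.orthogonalProjectionOnto w‖ ^ 2)⁻¹

theorem locInt_Gdom (A : Finset E) (c : ℝ) (s : Submodule ℝ E) (h3 : 3 ≤ Module.finrank ℝ s) :
    LocallyIntegrable (Gdom A c s) := by
  have := (locallyIntegrable_proj s h3).smul (2 * bd A * (c ^ 2)⁻¹)
  exact this

theorem Coer.le_Gdom (hA : Coer A c) (s : Submodule ℝ E) {w y : E}
    (hw : s.orthogonalProjectionOnto w ≠ 0) (hy : ‖s.orthogonalProjectionOnto w‖ ≤ ‖y‖) :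
    2 * bd A * (c ^ 2)⁻¹ * (‖y‖ ^ 2)⁻¹ ≤ Gdom A c s w := by
  unfold Gdom
  have h1 : 0 < ‖s.orthogonalProjectionOnto w‖ := norm_pos_iff.mpr hw
  have h2 := bd_nonneg A
  have h3 := hA.pos
  refine mul_le_mul_of_nonneg_left ?_ (by positivity)
  exact inv_anti₀ (by positivity) (pow_le_pow_left₀ h1.le hy 2)

theorem ne_zero_of_proj (s : Submodule ℝ E) {w y : E}
    (hw : s.orthogonalProjectionOnto w ≠ 0) (hy : ‖s.orthogonalProjectionOnto w‖ ≤ ‖y‖) :
    y ≠ 0 := by
  rintro rfl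
  rw [norm_zero] at hy
  exact hw (norm_le_zero_iff.mp hy)

theorem submodule_ne_bot (s : Submodule ℝ E) (h3 : 3 ≤ Module.finrank ℝ s) : s ≠ ⊥ := by
  rintro rfl
  rw [finrank_bot] at h3
  omega

theorem Coer.locInt_comp (hA : Coer A c) (s : Submodule ℝ E) (h3 : 3 ≤ Module.finrank ℝ s)
    {ξ : E} (hξ : ‖ξ‖ = 1) (hξs : ξ ∈ sᗮ) (δ : ℝ) (hδ : δ ≠ 0) :
    LocallyIntegrable (fun w => (pn A (str ξ hξ δ hδ w))⁻¹) := by
  have h1 : LocallyIntegrable (fun w : E => c⁻¹ * (1 + (‖s.orthogonalProjectionOnto w‖ ^ 2)⁻¹)) := by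
    have h2 : LocallyIntegrable (fun _ : E => (1 : ℝ)) := locallyIntegrable_const 1
    exact (h2.add (locallyIntegrable_proj s h3)).smul c⁻¹
  refine h1.mono ?_ ?_
  · exact ((continuous_pn hA.ne).measurable.comp
      (str ξ hξ δ hδ).continuous.measurable).inv.aestronglyMeasurable
  · filter_upwards [ae_proj_ne_zero s (submodule_ne_bot s h3)] with w hw
    have h4 : ‖s.orthogonalProjectionOnto w‖ ≤ ‖str ξ hξ δ hδ w‖ := by
      rw [str_apply']
      refine (norm_proj_le_perp s hξs w).trans ?_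
      rw [smul_smul]
      exact norm_perp_add_ge hξ w _
    have h5 := ne_zero_of_proj s hw h4
    have h6 : 0 < ‖s.orthogonalProjectionOnto w‖ := norm_pos_iff.mpr hw
    have h7 := hA.pos
    have h8 : 0 < ‖str ξ hξ δ hδ w‖ := norm_pos_iff.mpr h5
    rw [Real.norm_eq_abs, Real.norm_eq_abs, abs_of_nonneg (inv_nonneg.mpr (hA.pn_pos h5).le),
      abs_of_nonneg (by positivity)]
    have h9 : (pn A (str ξ hξ δ hδ w))⁻¹ ≤ (c * ‖str ξ hξ δ hδ w‖)⁻¹ :=
      inv_anti₀ (by positivity) (hA.le _)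
    have h10 : (c * ‖str ξ hξ δ hδ w‖)⁻¹ ≤ (c * ‖s.orthogonalProjectionOnto w‖)⁻¹ :=
      inv_anti₀ (by positivity) (mul_le_mul_of_nonneg_left h4 h7.le)
    refine h9.trans (h10.trans ?_)
    rw [mul_inv]
    refine mul_le_mul_of_nonneg_left ?_ (by positivity)
    set r := ‖s.orthogonalProjectionOnto w‖
    have h11 : 0 ≤ (r⁻¹ - 1) ^ 2 := sq_nonneg _
    have h12 : (r ^ 2)⁻¹ = r⁻¹ ^ 2 := by rw [inv_pow]
    rw [h12]
    have h13 : 0 < r⁻¹ := by positivity
    nlinarith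

theorem Coer.locInt_k (hA : Coer A c) (h3 : 3 ≤ Module.finrank ℝ E) :
    LocallyIntegrable (fun w => (pn A w)⁻¹) := by
  have h1 : LocallyIntegrable (fun w : E => c⁻¹ * (1 + (‖w‖ ^ 2)⁻¹)) := by
    have h2 : LocallyIntegrable (fun _ : E => (1 : ℝ)) := locallyIntegrable_const 1
    exact (h2.add (locallyIntegrable_inv_sq h3)).smul c⁻¹
  have : Nontrivial E := Module.nontrivial_of_finrank_pos (R := ℝ) (by omega)
  refine h1.mono (measurable_inv_pn hA.ne).aestronglyMeasurable ?_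
  have h0 : ∀ᵐ w : E, w ≠ 0 := by
    rw [ae_iff]; simp
  filter_upwards [h0] with w hw
  have h7 := hA.pos
  have h8 : 0 < ‖w‖ := norm_pos_iff.mpr hw
  rw [Real.norm_eq_abs, Real.norm_eq_abs, abs_of_nonneg (inv_nonneg.mpr (hA.pn_pos hw).le),
    abs_of_nonneg (by positivity)]
  have h9 : (pn A w)⁻¹ ≤ (c * ‖w‖)⁻¹ := inv_anti₀ (by positivity) (hA.le _)
  refine h9.trans ?_
  rw [mul_inv]
  refine mul_le_mul_of_nonneg_left ?_ (by positivity)
  have h11 : 0 ≤ (‖w‖⁻¹ - 1) ^ 2 := sq_nonneg _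
  have h12 : (‖w‖ ^ 2)⁻¹ = ‖w‖⁻¹ ^ 2 := by rw [inv_pow]
  rw [h12]
  have h13 : 0 < ‖w‖⁻¹ := by positivity
  nlinarith

/-- the sequence `1/(n+1)` -/
def dl (n : ℕ) : ℝ := 1 / ((n : ℝ) + 1)

theorem dl_pos (n : ℕ) : 0 < dl n := by unfold dl; positivity

theorem tendsto_dl : Tendsto dl atTop (𝓝[>] 0) := by
  refine tendsto_nhdsWithin_iff.mpr ⟨?_, Eventually.of_forall fun n => dl_pos n⟩
  exact tendsto_one_div_add_atTop_nhds_zero_nat

theorem Coer.PD_K1 (hA : Coer A c) (hk : PD fun w : E => (pn A w)⁻¹) (s : Submodule ℝ E)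
    (h3 : 3 ≤ Module.finrank ℝ s) {ξ : E} (hξ : ‖ξ‖ = 1) (hξs : ξ ∈ sᗮ) : PD (K1 A ξ) := by
  have hδ : ∀ n, dl n ≠ 0 := fun n => (dl_pos n).ne'
  let T : ℕ → E ≃L[ℝ] E := fun n => str ξ hξ (dl n) (hδ n)
  let Kn : ℕ → E → ℝ := fun n w => (dl n)⁻¹ * (2 * (pn A (T n w))⁻¹ - (pn A (T n (w + ξ)))⁻¹
    - (pn A (T n (w - ξ)))⁻¹)
  have hT : ∀ n w, T n w = perp ξ w + (dl n * inner ℝ ξ w) • ξ := fun n w => by
    simp only [T]; rw [str_apply', smul_smul]
  have hTp : ∀ n w, T n (w + ξ) = perp ξ w + (dl n * (inner ℝ ξ w + 1)) • ξ := fun n w => by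
    rw [hT]
    have h1 : perp ξ (w + ξ) = perp ξ w := by
      have := perp_add_smul hξ w 1
      rwa [one_smul] at this
    rw [h1, inner_add_right, inner_self_one hξ]
  have hTm : ∀ n w, T n (w - ξ) = perp ξ w + (dl n * (inner ℝ ξ w - 1)) • ξ := fun n w => by
    rw [hT]
    have h1 : perp ξ (w - ξ) = perp ξ w := by
      have := perp_add_smul hξ w (-1)
      rwa [neg_smul, one_smul, ← sub_eq_add_neg] at this
    rw [h1, inner_sub_right, inner_self_one hξ]
  refine PD.lim (k := Kn) (G := Gdom A c s) ?_ ?_ (locInt_Gdom A c s h3) ?_ ?_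
  · intro n
    exact ((hk.comp (T n)).diff (hA.locInt_comp s h3 hξ hξs (dl n) (hδ n)) ξ).const_mul
      (inv_nonneg.mpr (dl_pos n).le)
  · intro n
    have hm : Measurable fun w : E => (pn A (T n w))⁻¹ :=
      (measurable_inv_pn hA.ne).comp (T n).continuous.measurable
    have h1 : Measurable fun w : E => (pn A (T n (w + ξ)))⁻¹ := hm.comp (measurable_add_const ξ)
    have h2 : Measurable fun w : E => (pn A (T n (w - ξ)))⁻¹ := hm.comp (measurable_sub_const ξ)
    exact ((((hm.const_mul 2).sub h1).sub h2).const_mul _).aestronglyMeasurable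
  · intro n
    filter_upwards [ae_proj_ne_zero s (submodule_ne_bot s h3)] with w hw
    have hle := norm_proj_le_perp s hξs w
    have hy := ne_zero_of_proj s hw hle
    refine le_trans ?_ (hA.le_Gdom s hw hle)
    have hdn := dl_pos n
    have b1 := hA.diff_bound hξ hy (dl n * inner ℝ ξ w) (dl n * (inner ℝ ξ w + 1))
    have b2 := hA.diff_bound hξ hy (dl n * inner ℝ ξ w) (dl n * (inner ℝ ξ w - 1))
    have e1 : |dl n * inner ℝ ξ w - dl n * (inner ℝ ξ w + 1)| = dl n := by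
      rw [← mul_sub, sub_add_cancel_left, abs_mul, abs_neg, abs_one, mul_one, abs_of_pos hdn]
    have e2 : |dl n * inner ℝ ξ w - dl n * (inner ℝ ξ w - 1)| = dl n := by
      rw [← mul_sub, sub_sub_cancel, mul_one, abs_of_pos hdn]
    rw [e1] at b1
    rw [e2] at b2
    simp only [Kn]
    rw [hT, hTp, hTm, abs_mul, abs_of_pos (inv_pos.mpr hdn)]
    have b3 : |2 * (pn A (perp ξ w + (dl n * inner ℝ ξ w) • ξ))⁻¹ -
        (pn A (perp ξ w + (dl n * (inner ℝ ξ w + 1)) • ξ))⁻¹ -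
        (pn A (perp ξ w + (dl n * (inner ℝ ξ w - 1)) • ξ))⁻¹| ≤
        bd A * dl n * ((c ^ 2)⁻¹ * (‖perp ξ w‖ ^ 2)⁻¹) +
        bd A * dl n * ((c ^ 2)⁻¹ * (‖perp ξ w‖ ^ 2)⁻¹) := by
      refine le_trans ?_ (add_le_add b1 b2)
      refine le_trans (le_of_eq ?_) (abs_add_le _ _)
      congr 1; ring
    calc (dl n)⁻¹ * _ ≤ (dl n)⁻¹ * _ := mul_le_mul_of_nonneg_left b3 (inv_nonneg.mpr hdn.le)
      _ = 2 * bd A * (c ^ 2)⁻¹ * (‖perp ξ w‖ ^ 2)⁻¹ := by field_simp; ring
  · filter_upwards [ae_proj_ne_zero s (submodule_ne_bot s h3)] with w hw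
    have hy := ne_zero_of_proj s hw (norm_proj_le_perp s hξs w)
    have h1 := (hA.tendsto_K1 hy).comp tendsto_dl
    refine h1.congr fun n => ?_
    simp only [Kn, comp_apply]
    rw [hT, hTp, hTm, smul_smul, smul_smul, smul_smul]

theorem Coer.abs_K1_le (hA : Coer A c) {ξ w : E} (hξ : ‖ξ‖ = 1) (hy : perp ξ w ≠ 0) :
    |K1 A ξ w| ≤ 2 * bd A * (c ^ 2)⁻¹ * (‖perp ξ w‖ ^ 2)⁻¹ := by
  unfold K1
  rw [div_eq_mul_inv, abs_mul, abs_mul, abs_of_nonneg (le_max_left _ _),
    abs_of_nonneg (by positivity : (0 : ℝ) ≤ ((pn A (perp ξ w)) ^ 2)⁻¹)]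
  have h1 : max 0 (1 - |inner ℝ ξ w|) ≤ (1 : ℝ) :=
    max_le zero_le_one (by linarith [abs_nonneg (inner ℝ ξ w : ℝ)])
  have h2 := abs_kink_le (A := A) ξ (perp ξ w)
  rw [hξ, mul_one] at h2
  have h3 := hA.inv_sq_le hy
  have h4 := bd_nonneg A
  calc max 0 (1 - |inner ℝ ξ w|) * |kink A ξ (perp ξ w)| * ((pn A (perp ξ w)) ^ 2)⁻¹
      ≤ 1 * (2 * bd A) * ((c ^ 2)⁻¹ * (‖perp ξ w‖ ^ 2)⁻¹) := by
        refine mul_le_mul (mul_le_mul h1 h2 (abs_nonneg _) zero_le_one) h3 (by positivity)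
          (by positivity)
    _ = _ := by ring

theorem perp_str {ξ η : E} (hη : ‖η‖ = 1) (hξη : inner ℝ ξ η = 0) (ε : ℝ) (hε : ε ≠ 0) (w : E) :
    perp ξ (str η hη ε hε w) = perp η (perp ξ w) + ε • ((inner ℝ η w : ℝ) • η) ∧
    inner ℝ ξ (str η hη ε hε w) = inner ℝ ξ w := by
  have hηξ : inner ℝ η ξ = 0 := by rw [real_inner_comm]; exact hξη
  have h1 : inner ℝ ξ (str η hη ε hε w) = inner ℝ ξ w := by
    rw [str_apply, inner_add_right, inner_smul_right, hξη]; simp
  refine ⟨?_, h1⟩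
  unfold perp
  rw [h1, str_apply, inner_sub_right, inner_smul_right, hηξ, smul_smul, sub_mul, sub_smul, one_mul,
    mul_zero, sub_zero]
  abel

theorem Coer.PD_K2 (hA : Coer A c) (hk : PD fun w : E => (pn A w)⁻¹) (s : Submodule ℝ E)
    (h3 : 3 ≤ Module.finrank ℝ s) {ξ η : E} (hξ : ‖ξ‖ = 1) (hξs : ξ ∈ sᗮ) (hη : ‖η‖ = 1)
    (hηs : η ∈ sᗮ) (hξη : inner ℝ ξ η = 0) : PD (K2 A ξ η) := by
  have hK1 := hA.PD_K1 hk s h3 hξ hξs
  have hδ : ∀ n, dl n ≠ 0 := fun n => (dl_pos n).ne'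
  let T : ℕ → E ≃L[ℝ] E := fun n => str η hη (dl n) (hδ n)
  have hle : ∀ n w, ‖s.orthogonalProjectionOnto w‖ ≤ ‖perp ξ (T n w)‖ := by
    intro n w
    have h1 : s.orthogonalProjectionOnto (perp ξ (T n w)) = s.orthogonalProjectionOnto w := by
      rw [proj_perp s hξs]
      simp only [T]
      rw [str_apply, map_add, map_smul, Submodule.orthogonalProjectionOnto_eq_zero_iff.mpr hηs,
        smul_zero, add_zero]
    rw [← h1]
    exact s.norm_orthogonalProjectionOnto_apply_le _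
  refine PD.lim (k := fun n w => K1 A ξ (T n w)) (G := Gdom A c s) ?_ ?_ (locInt_Gdom A c s h3)
    ?_ ?_
  · exact fun n => hK1.comp (T n)
  · exact fun n => ((measurable_K1 hA.ne ξ).comp (T n).continuous.measurable).aestronglyMeasurable
  · intro n
    filter_upwards [ae_proj_ne_zero s (submodule_ne_bot s h3)] with w hw
    have hy := ne_zero_of_proj s hw (hle n w)
    exact (hA.abs_K1_le hξ hy).trans (hA.le_Gdom s hw (hle n w))
  · filter_upwards [ae_proj_ne_zero s (submodule_ne_bot s h3)] with w hw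
    have hz : perp η (perp ξ w) ≠ 0 := by
      refine ne_zero_of_proj s hw ?_
      rw [← proj_perp s hξs, ← proj_perp s hηs]
      exact s.norm_orthogonalProjectionOnto_apply_le _
    set z := perp η (perp ξ w) with hzdef
    set v : E := (inner ℝ η w : ℝ) • η with hv
    have h1 : Tendsto (fun ε : ℝ => max 0 (1 - |inner ℝ ξ w|) * kink A ξ (z + ε • v) /
        (pn A (z + ε • v)) ^ 2) (𝓝[>] 0) (𝓝 (K2 A ξ η w)) := by
      have hc : Continuous fun ε : ℝ => pn A (z + ε • v) := (continuous_pn hA.ne).comp (by fun_prop)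
      have h2 := (hc.tendsto 0).mono_left (nhdsWithin_le_nhds (s := Ioi (0 : ℝ)))
      rw [zero_smul, add_zero] at h2
      have h3 : Tendsto (fun ε : ℝ => max 0 (1 - |inner ℝ ξ w|) * kink (fc A z) ξ v /
        (pn A (z + ε • v)) ^ 2) (𝓝[>] 0) (𝓝 (max 0 (1 - |inner ℝ ξ w|) * kink (fc A z) ξ v /
        (pn A z) ^ 2)) :=
        tendsto_const_nhds.div (h2.pow 2) (pow_ne_zero 2 (hA.pn_pos hz).ne')
      refine h3.congr' ?_
      filter_upwards [eventually_local hA.ne z v] with ε hε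
      unfold kink
      rw [hε.1]
    refine (h1.comp tendsto_dl).congr fun n => ?_
    simp only [comp_apply]
    have h4 := perp_str hη hξη (dl n) (hδ n) w
    unfold K1
    simp only [T]
    rw [h4.1, h4.2]

theorem Coer.abs_K2_le (hA : Coer A c) {ξ η w : E} (hξ : ‖ξ‖ = 1)
    (hz : perp η (perp ξ w) ≠ 0) :
    |K2 A ξ η w| ≤ 2 * bd A * (c ^ 2)⁻¹ * (‖perp η (perp ξ w)‖ ^ 2)⁻¹ := by
  unfold K2
  set z := perp η (perp ξ w) with hzdef
  rw [div_eq_mul_inv, abs_mul, abs_mul, abs_of_nonneg (le_max_left _ _),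
    abs_of_nonneg (by positivity : (0 : ℝ) ≤ ((pn A z) ^ 2)⁻¹)]
  have h1 : max 0 (1 - |inner ℝ ξ w|) ≤ (1 : ℝ) :=
    max_le zero_le_one (by linarith [abs_nonneg (inner ℝ ξ w : ℝ)])
  have h2 := abs_kink_le (A := fc A z) ξ ((inner ℝ η w : ℝ) • η)
  rw [hξ, mul_one] at h2
  have h2' : |kink (fc A z) ξ ((inner ℝ η w : ℝ) • η)| ≤ 2 * bd A :=
    h2.trans (mul_le_mul_of_nonneg_left bd_fc_le (by norm_num))
  have h3 := hA.inv_sq_le hz
  have h4 := bd_nonneg A
  calc max 0 (1 - |inner ℝ ξ w|) * |kink (fc A z) ξ ((inner ℝ η w : ℝ) • η)| * ((pn A z) ^ 2)⁻¹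
      ≤ 1 * (2 * bd A) * ((c ^ 2)⁻¹ * (‖z‖ ^ 2)⁻¹) := by
        refine mul_le_mul (mul_le_mul h1 h2' (abs_nonneg _) zero_le_one) h3 (by positivity)
          (by positivity)
    _ = _ := by ring

theorem Coer.locInt_K2 (hA : Coer A c) (s : Submodule ℝ E)
    (h3 : 3 ≤ Module.finrank ℝ s) {ξ η : E} (hξ : ‖ξ‖ = 1) (hξs : ξ ∈ sᗮ)
    (hηs : η ∈ sᗮ) : LocallyIntegrable (K2 A ξ η) := by
  refine (locInt_Gdom A c s h3).mono (measurable_K2 hA.ne ξ η).aestronglyMeasurable ?_
  filter_upwards [ae_proj_ne_zero s (submodule_ne_bot s h3)] with w hw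
  have hle : ‖s.orthogonalProjectionOnto w‖ ≤ ‖perp η (perp ξ w)‖ := by
    rw [← proj_perp s hξs, ← proj_perp s hηs]
    exact s.norm_orthogonalProjectionOnto_apply_le _
  have hz := ne_zero_of_proj s hw hle
  rw [Real.norm_eq_abs, Real.norm_eq_abs]
  exact ((hA.abs_K2_le hξ hz).trans (hA.le_Gdom s hw hle)).trans (le_abs_self _)

end Pool.Agent.Helper54.IB
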