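import Pool.Agent.Helper54.IB.PosDef

/-!
# Local integrability of `‖P w‖⁻²` for a projection `P` onto a subspace of dimension at least 3
-/

open Filter Topology Set MeasureTheory Function

set_option linter.unusedSectionVars false

noncomputable section

namespace Pool.Agent.Helper54.IB

variable {E : Type*} [NormedAddCommGroup E] [InnerProductSpace ℝ E] [FiniteDimensional ℝ E]
  [MeasurableSpace E] [BorelSpace E]

theorem integrableOn_ball_inv_sq (h3 : 3 ≤ Module.finrank ℝ E) (R : ℝ) :
    IntegrableOn (fun w : E => (‖w‖ ^ 2)⁻¹) (Metric.ball 0 R) := by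
  have : Nontrivial E := Module.nontrivial_of_finrank_pos (R := ℝ) (by omega)
  rw [integrableOn_fun_norm_addHaar volume (f := fun r => (r ^ 2)⁻¹)]
  obtain ⟨m, hm⟩ : ∃ m, Module.finrank ℝ E = m + 3 := ⟨Module.finrank ℝ E - 3, by omega⟩
  rw [hm]
  have h1 : IntegrableOn (fun y : ℝ => y ^ m) (Ioo 0 R) :=
    (Continuous.integrableOn_Icc (by fun_prop)).mono_set Ioo_subset_Icc_self
  refine h1.congr_fun (fun y hy => ?_) measurableSet_Ioo
  have hy0 : y ≠ 0 := hy.1.ne'
  simp only [smul_eq_mul]
  have : m + 3 - 1 = m + 2 := by omega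
  rw [this, pow_add]
  field_simp

theorem locallyIntegrable_of_ball {f : E → ℝ} (h : ∀ R, IntegrableOn f (Metric.ball 0 R)) :
    LocallyIntegrable f := by
  intro x
  refine ⟨Metric.ball 0 (‖x‖ + 1), ?_, h _⟩
  exact Metric.isOpen_ball.mem_nhds (by simp)

theorem locallyIntegrable_inv_sq (h3 : 3 ≤ Module.finrank ℝ E) :
    LocallyIntegrable (fun w : E => (‖w‖ ^ 2)⁻¹) :=
  locallyIntegrable_of_ball (integrableOn_ball_inv_sq h3)

/-- the orthogonal decomposition as a measurable equivalence -/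
def odec (s : Submodule ℝ E) : E ≃ᵐ s × sᗮ :=
  s.orthogonalDecomposition.toHomeomorph.toMeasurableEquiv.trans (MeasurableEquiv.toLp 2 _).symm

theorem odec_apply (s : Submodule ℝ E) (w : E) :
    odec s w = (s.orthogonalProjectionOnto w, sᗮ.orthogonalProjectionOnto w) := by
  simp [odec]

theorem odec_symm_apply (s : Submodule ℝ E) (q : s × sᗮ) :
    (odec s).symm q = (q.1 : E) + (q.2 : E) := by
  simp [odec]

theorem odec_measurePreserving (s : Submodule ℝ E) : MeasurePreserving (odec s) := by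
  refine s.orthogonalDecomposition.measurePreserving.trans ?_
  exact WithLp.volume_preserving_ofLp _ _

theorem locallyIntegrable_proj (s : Submodule ℝ E) (h3 : 3 ≤ Module.finrank ℝ s) :
    LocallyIntegrable (fun w : E => (‖s.orthogonalProjectionOnto w‖ ^ 2)⁻¹) := by
  refine locallyIntegrable_of_ball fun R => ?_
  have h1 : IntegrableOn (fun z : s × sᗮ => (‖z.1‖ ^ 2)⁻¹)
      (Metric.ball 0 R ×ˢ Metric.ball 0 R) := by
    have i1 : Integrable (fun u : s => (‖u‖ ^ 2)⁻¹) (volume.restrict (Metric.ball 0 R)) :=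
      integrableOn_ball_inv_sq h3 R
    have i2 : Integrable (fun _ : sᗮ => (1 : ℝ)) (volume.restrict (Metric.ball 0 R)) :=
      integrableOn_const measure_ball_lt_top.ne
    have i3 := i1.mul_prod i2
    simp only [mul_one] at i3
    rw [Measure.prod_restrict] at i3
    exact i3
  have h2 : IntegrableOn ((fun z : s × sᗮ => (‖z.1‖ ^ 2)⁻¹) ∘ odec s)
      (odec s ⁻¹' (Metric.ball 0 R ×ˢ Metric.ball 0 R)) :=
    ((odec_measurePreserving s).integrableOn_comp_preimage (odec s).measurableEmbedding).mpr h1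
  have h3 : ((fun z : s × sᗮ => (‖z.1‖ ^ 2)⁻¹) ∘ odec s) =
      fun w : E => (‖s.orthogonalProjectionOnto w‖ ^ 2)⁻¹ := by
    ext w
    simp [odec_apply]
  rw [h3] at h2
  refine h2.mono_set fun w hw => ?_
  rw [Set.mem_preimage, odec_apply, Set.mem_prod, mem_ball_zero_iff, mem_ball_zero_iff]
  rw [mem_ball_zero_iff] at hw
  exact ⟨(s.norm_orthogonalProjectionOnto_apply_le w).trans_lt hw,
    (sᗮ.norm_orthogonalProjectionOnto_apply_le w).trans_lt hw⟩

end Pool.Agent.Helper54.IB
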