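import Pool.Agent.Helper54.IB.Kernels

/-!
# Positive definiteness of `1/pn A` forces local symmetry at codimension two
-/

open Filter Topology Set MeasureTheory Function

set_option linter.unusedSectionVars false

noncomputable section

namespace Pool.Agent.Helper54.IB

variable {E : Type*} [NormedAddCommGroup E] [InnerProductSpace ℝ E] [FiniteDimensional ℝ E]
  [MeasurableSpace E] [BorelSpace E] {A : Finset E} {c : ℝ}

/-- tent function -/
def tent (ρ : ℝ) (x : E) : ℝ := max 0 (ρ - ‖x‖)

theorem TF_tent (ρ : ℝ) : TF (tent (E := E) ρ) := by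
  refine ⟨by unfold tent; fun_prop, ?_⟩
  refine HasCompactSupport.intro (isCompact_closedBall (0 : E) ρ) fun x hx => ?_
  rw [mem_closedBall_zero_iff, not_le] at hx
  unfold tent
  exact max_eq_left (by linarith)

theorem tent_nonneg (ρ : ℝ) (x : E) : 0 ≤ tent ρ x := le_max_left _ _

theorem corr_tent_nonneg (ρ : ℝ) (w : E) : 0 ≤ corr (tent ρ) (tent ρ) w :=
  integral_nonneg fun _ => mul_nonneg (tent_nonneg _ _) (tent_nonneg _ _)

theorem corr_tent_eq_zero {ρ : ℝ} {w : E} (h : 2 * ρ ≤ ‖w‖) : corr (tent ρ) (tent ρ) w = 0 := by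
  unfold corr
  have : ∀ y : E, tent ρ (w + y) * tent ρ y = 0 := by
    intro y
    have h1 : ‖w‖ ≤ ‖w + y‖ + ‖y‖ := by
      have := norm_sub_le (w + y) y
      rwa [add_sub_cancel_right] at this
    rcases le_or_gt ρ ‖y‖ with h2 | h2
    · have : tent ρ y = 0 := by unfold tent; exact max_eq_left (by linarith)
      rw [this, mul_zero]
    · have : tent ρ (w + y) = 0 := by unfold tent; exact max_eq_left (by linarith)
      rw [this, zero_mul]
  simp [this]

theorem corr_tent_zero_pos {ρ : ℝ} (h : 0 < ρ) : 0 < corr (tent ρ) (tent ρ) (0 : E) := by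
  unfold corr
  have h1 := (TF_tent (E := E) ρ).mul (TF_tent ρ)
  have h2 : 0 < ∫ y : E, tent ρ y * tent ρ y := by
    refine h1.cont.integral_pos_of_hasCompactSupport_nonneg_nonzero h1.supp
      (fun y => mul_nonneg (tent_nonneg _ _) (tent_nonneg _ _)) (x := 0) ?_
    have : tent ρ (0 : E) = ρ := by unfold tent; rw [norm_zero, sub_zero, max_eq_right h.le]
    rw [this]; positivity
  simpa using h2

theorem norm_reflect {η : E} (hη : ‖η‖ = 1) (w : E) :
    ‖str η hη (-1) (by norm_num) w‖ = ‖w‖ := by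
  have h : ‖str η hη (-1) (by norm_num) w‖ ^ 2 = ‖w‖ ^ 2 := by
    rw [str_apply, norm_add_sq_real, inner_smul_right, norm_smul, hη, real_inner_comm,
      Real.norm_eq_abs, mul_one, sq_abs]
    ring
  exact (sq_eq_sq₀ (norm_nonneg _) (norm_nonneg _)).mp h

theorem perp_perp_add {ξ η : E} (hη : ‖η‖ = 1) (hξη : inner ℝ ξ η = 0) (w : E) (t : ℝ) :
    perp η (perp ξ (w + t • η)) = perp η (perp ξ w) := by
  have h1 : perp ξ (w + t • η) = perp ξ w + t • η := by
    unfold perp
    rw [inner_add_right, inner_smul_right, hξη, mul_zero, add_zero]; abel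
  rw [h1, perp_add_smul hη]

/-- the kink factor -/
def T2 (A : Finset E) (ξ η w : E) : ℝ :=
  max 0 (1 - |inner ℝ ξ w|) / (pn A (perp η (perp ξ w))) ^ 2

theorem T2_nonneg (ξ η w : E) : 0 ≤ T2 A ξ η w :=
  div_nonneg (le_max_left _ _) (sq_nonneg _)

theorem K2_add {ξ η : E} (hη : ‖η‖ = 1) (hξη : inner ℝ ξ η = 0) (w : E) (t : ℝ) :
    K2 A ξ η (w + t • η) = T2 A ξ η w *
      kink (fc A (perp η (perp ξ w))) ξ ((inner ℝ η w + t : ℝ) • η) := by
  unfold K2 T2
  rw [perp_perp_add hη hξη, inner_add_right, inner_add_right, inner_smul_right, inner_smul_right,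
    hξη, mul_zero, add_zero, inner_self_one hη, mul_one]
  ring

theorem K2_eq {ξ η : E} (w : E) :
    K2 A ξ η w = T2 A ξ η w *
      kink (fc A (perp η (perp ξ w))) ξ ((inner ℝ η w : ℝ) • η) := by
  unfold K2 T2
  ring

theorem kink_pos_smul {B : Finset E} (hB : B.Nonempty) (ξ η : E) {t : ℝ} (ht : 0 < t) :
    kink B ξ (t • η) = kink B ξ η := kink_smul hB ht ξ η

theorem kink_neg_smul {B : Finset E} (hB : B.Nonempty) (ξ η : E) {t : ℝ} (ht : t < 0) :
    kink B ξ (t • η) = kink B ξ (-η) := by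
  have : t • η = (-t) • (-η) := by rw [smul_neg, neg_smul, neg_neg]
  rw [this, kink_smul hB (by linarith)]

/-- difference of the two one-sided kinks -/
def Dl (A : Finset E) (ξ η z : E) : ℝ := kink (fc A z) ξ η - kink (fc A z) ξ (-η)

/-- the antisymmetrised kernel -/
def K3 (A : Finset E) (ξ η w : E) : ℝ :=
  2 * K2 A ξ η w - K2 A ξ η (w + (2 : ℝ) • η) - K2 A ξ η (w - (2 : ℝ) • η)

theorem K3_pos (hA : A.Nonempty) {ξ η : E} (hη : ‖η‖ = 1) (hξη : inner ℝ ξ η = 0) {w : E}
    (h0 : 0 < inner ℝ η w) (h2 : inner ℝ η w < (2 : ℝ)) :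
    K3 A ξ η w = T2 A ξ η w * Dl A ξ η (perp η (perp ξ w)) := by
  unfold K3 Dl
  have hB : (fc A (perp η (perp ξ w))).Nonempty := fc_nonempty hA
  rw [sub_eq_add_neg w, ← neg_smul, K2_add hη hξη, K2_add hη hξη, K2_eq,
    kink_pos_smul hB ξ η h0, kink_pos_smul hB ξ η (by linarith),
    kink_neg_smul hB ξ η (by linarith : inner ℝ η w + -2 < (0 : ℝ))]
  ring

theorem K3_neg (hA : A.Nonempty) {ξ η : E} (hη : ‖η‖ = 1) (hξη : inner ℝ ξ η = 0) {w : E}
    (h0 : inner ℝ η w < 0) (h2 : -(2 : ℝ) < inner ℝ η w) :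
    K3 A ξ η w = -(T2 A ξ η w * Dl A ξ η (perp η (perp ξ w))) := by
  unfold K3 Dl
  have hB : (fc A (perp η (perp ξ w))).Nonempty := fc_nonempty hA
  rw [sub_eq_add_neg w, ← neg_smul, K2_add hη hξη, K2_add hη hξη, K2_eq,
    kink_neg_smul hB ξ η h0, kink_pos_smul hB ξ η (by linarith : 0 < inner ℝ η w + 2),
    kink_neg_smul hB ξ η (by linarith : inner ℝ η w + -2 < (0 : ℝ))]
  ring

theorem perp_neg (ξ w : E) : perp ξ (-w) = -perp ξ w := by
  unfold perp
  rw [inner_neg_right, neg_smul]; abel

theorem Coer.K2_even (hA : Coer A c) (ξ η w : E) : K2 A ξ η (-w) = K2 A ξ η w := by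
  classical
  unfold K2
  rw [perp_neg, perp_neg, hA.symm.pn_neg hA.ne, inner_neg_right, inner_neg_right, abs_neg,
    hA.symm.fc_neg hA.ne]
  have h1 : kink ((fc A (perp η (perp ξ w))).image fun a => -a) ξ (-(inner ℝ η w : ℝ) • η) =
      kink (fc A (perp η (perp ξ w))) ξ ((inner ℝ η w : ℝ) • η) := by
    set B := fc A (perp η (perp ξ w)) with hB
    have hBne : B.Nonempty := fc_nonempty hA.ne
    have h2 : fc (B.image fun a => -a) (-(inner ℝ η w : ℝ) • η) =
        (fc B ((inner ℝ η w : ℝ) • η)).image fun a => -a := by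
      ext a
      constructor
      · intro h
        obtain ⟨h3, h4⟩ := mem_fc_iff.mp h
        obtain ⟨b, hb, rfl⟩ := Finset.mem_image.mp h3
        refine Finset.mem_image_of_mem _ (mem_fc_iff.mpr ⟨hb, fun b' hb' => ?_⟩)
        have := h4 (-b') (Finset.mem_image_of_mem _ hb')
        rwa [neg_smul, inner_neg_neg, inner_neg_neg] at this
      · intro h
        obtain ⟨b, hb, rfl⟩ := Finset.mem_image.mp h
        obtain ⟨h3, h4⟩ := mem_fc_iff.mp hb
        refine mem_fc_iff.mpr ⟨Finset.mem_image_of_mem _ h3, fun b' hb' => ?_⟩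
        obtain ⟨b'', hb'', rfl⟩ := Finset.mem_image.mp hb'
        rw [neg_smul, inner_neg_neg, inner_neg_neg]
        exact h4 b'' hb''
    unfold kink
    rw [h2, pn_image_neg (fc_nonempty hBne), pn_image_neg (fc_nonempty hBne), neg_neg, add_comm]
  rw [h1]

theorem Coer.K3_even (hA : Coer A c) (ξ η w : E) : K3 A ξ η (-w) = K3 A ξ η w := by
  unfold K3
  have e1 : -w + (2 : ℝ) • η = -(w - (2 : ℝ) • η) := by abel
  have e2 : -w - (2 : ℝ) • η = -(w + (2 : ℝ) • η) := by abel
  rw [e1, e2, hA.K2_even, hA.K2_even, hA.K2_even]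
  ring

theorem reflect_facts {ξ η : E} (hη : ‖η‖ = 1) (hξη : inner ℝ ξ η = 0) (w : E) :
    perp η (perp ξ (str η hη (-1) (by norm_num) w)) = perp η (perp ξ w) ∧
    inner ℝ ξ (str η hη (-1) (by norm_num) w) = inner ℝ ξ w ∧
    inner ℝ η (str η hη (-1) (by norm_num) w) = -inner ℝ η w := by
  rw [str_apply]
  refine ⟨perp_perp_add hη hξη _ _, ?_, ?_⟩
  · rw [inner_add_right, inner_smul_right, hξη, mul_zero, add_zero]
  · rw [inner_add_right, inner_smul_right, inner_self_one hη]; ring

theorem K3_reflect (hA : A.Nonempty) {ξ η : E} (hη : ‖η‖ = 1) (hξη : inner ℝ ξ η = 0) {w : E}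
    (hw : ‖w‖ < 2) (h0 : inner ℝ η w ≠ 0) :
    K3 A ξ η (str η hη (-1) (by norm_num) w) = -K3 A ξ η w := by
  obtain ⟨e1, e2, e3⟩ := reflect_facts hη hξη w
  have hT : T2 A ξ η (str η hη (-1) (by norm_num) w) = T2 A ξ η w := by
    unfold T2; rw [e1, e2]
  have habs : |inner ℝ η w| < (2 : ℝ) := by
    have := abs_real_inner_le_norm η w
    rw [hη, one_mul] at this
    linarith
  rw [abs_lt] at habs
  rcases lt_or_gt_of_ne h0 with h | h
  · rw [K3_neg hA hη hξη h habs.1, K3_pos hA hη hξη (by rw [e3]; linarith) (by rw [e3]; linarith),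
      hT, e1, neg_neg]
  · rw [K3_pos hA hη hξη h habs.2, K3_neg hA hη hξη (by rw [e3]; linarith) (by rw [e3]; linarith),
      hT, e1]

/-- The diagonal terms vanish. -/
theorem diag_zero (hA : A.Nonempty) {ξ η : E} (hη : ‖η‖ = 1) (hξη : inner ℝ ξ η = 0) {ρ : ℝ}
    (hρ : 2 * ρ ≤ 2) : ∫ w, corr (tent ρ) (tent ρ) w * K3 A ξ η w = 0 := by
  set R : E ≃L[ℝ] E := str η hη (-1) (by norm_num) with hR
  obtain ⟨c, hc, hs⟩ := exists_scale R
  have h1 := hs (fun w => corr (tent ρ) (tent ρ) w * K3 A ξ η w)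
  have hC : ∀ w, corr (tent ρ) (tent ρ) (R w) = c⁻¹ * corr (tent ρ) (tent ρ) w := by
    intro w
    have h2 := hs (fun y => tent ρ (R w + y) * tent ρ y)
    unfold corr
    rw [eq_inv_mul_iff_mul_eq₀ hc.ne', ← h2]
    refine integral_congr_ae (Eventually.of_forall fun y => ?_)
    simp only
    unfold tent
    rw [← map_add, hR, norm_reflect hη, norm_reflect hη]
  have h0 : ∀ᵐ w : E, inner ℝ η w ≠ 0 := by
    have hne : (ℝ ∙ η) ≠ ⊥ := by
      rw [Ne, Submodule.span_singleton_eq_bot]
      rintro rfl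
      simp at hη
    filter_upwards [ae_proj_ne_zero (ℝ ∙ η) hne] with w hw h
    apply hw
    rw [Submodule.orthogonalProjectionOnto_eq_zero_iff, Submodule.mem_orthogonal_singleton_iff_inner_right]
    exact h
  have h3 : ∫ w, corr (tent ρ) (tent ρ) (R w) * K3 A ξ η (R w) =
      ∫ w, (-c⁻¹) * (corr (tent ρ) (tent ρ) w * K3 A ξ η w) := by
    refine integral_congr_ae ?_
    filter_upwards [h0] with w hw
    rw [hC]
    rcases lt_or_ge ‖w‖ 2 with h2 | h2
    · rw [hR, K3_reflect hA hη hξη h2 hw]; ring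
    · rw [corr_tent_eq_zero (hρ.trans h2)]; ring
  rw [h3, integral_const_mul] at h1
  set I := ∫ w, corr (tent ρ) (tent ρ) w * K3 A ξ η w
  have : (c + c⁻¹) * I = 0 := by linarith
  rcases mul_eq_zero.mp this with h | h
  · have : 0 < c⁻¹ := by positivity
    linarith
  · exact h

theorem integrable_mul_K3 {ξ η : E} (hl : LocallyIntegrable (K2 A ξ η)) {f : E → ℝ} (hf : TF f) :
    Integrable fun w => f w * K3 A ξ η w := by
  have i1 : Integrable fun w => f w * K2 A ξ η w := hf.integrable_mul hl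
  have i2 : Integrable fun w => f w * K2 A ξ η (w + (2 : ℝ) • η) := by
    have := ((hf.comp_sub ((2 : ℝ) • η)).integrable_mul hl).comp_add_right ((2 : ℝ) • η)
    simpa using this
  have i3 : Integrable fun w => f w * K2 A ξ η (w - (2 : ℝ) • η) := by
    have := ((hf.comp_add_right ((2 : ℝ) • η)).integrable_mul hl).comp_sub_right ((2 : ℝ) • η)
    simpa using this
  refine (((i1.const_mul 2).sub i2).sub i3).congr (Eventually.of_forall fun w => ?_)
  simp only [K3, Pi.sub_apply]
  ring

theorem norm_perp_le {ξ : E} (hξ : ‖ξ‖ = 1) (w : E) : ‖perp ξ w‖ ≤ ‖w‖ := by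
  have := norm_perp_add_ge hξ w (inner ℝ ξ w)
  have h2 : perp ξ w + (inner ℝ ξ w : ℝ) • ξ = w := by unfold perp; abel
  rwa [h2] at this

theorem perp_sub (ξ v w : E) : perp ξ (v - w) = perp ξ v - perp ξ w := by
  unfold perp
  rw [inner_sub_right, sub_smul]; abel

theorem perp_eq_self {ξ w : E} (h : inner ℝ ξ w = 0) : perp ξ w = w := by
  unfold perp; rw [h, zero_smul, sub_zero]

/-- **Local symmetry from positive definiteness.** -/
theorem Coer.localSym (hA : Coer A c) (hk : PD fun w : E => (pn A w)⁻¹)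
    (h5 : 5 ≤ Module.finrank ℝ E) : LocalSym A := by
  classical
  intro ξ η z₀ hξ hη hξη hz₀ hξz hηz hface
  set s : Submodule ℝ E := (Submodule.span ℝ {ξ, η})ᗮ with hs
  have h3 : 3 ≤ Module.finrank ℝ s := by
    have h1 := Submodule.finrank_add_finrank_orthogonal (Submodule.span ℝ {ξ, η})
    have h2 : Module.finrank ℝ (Submodule.span ℝ {ξ, η}) ≤ 2 := by
      have := finrank_span_finset_le_card (R := ℝ) ({ξ, η} : Finset E)
      rw [Set.finrank, Finset.coe_pair] at this
      exact this.trans Finset.card_le_two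
    rw [← hs] at h1
    omega
  have hξs : ξ ∈ sᗮ := by
    rw [hs, Submodule.orthogonal_orthogonal]; exact Submodule.subset_span (by simp)
  have hηs : η ∈ sᗮ := by
    rw [hs, Submodule.orthogonal_orthogonal]; exact Submodule.subset_span (by simp)
  have hK2 := hA.PD_K2 hk s h3 hξ hξs hη hηs hξη
  have hl2 := hA.locInt_K2 s h3 hξ hξs hηs
  have hK3 : PD (K3 A ξ η) := hK2.diff hl2 ((2 : ℝ) • η)
  obtain ⟨ε, hε, hball⟩ := Metric.eventually_nhds_iff.mp (eventually_fc_subset hA.ne z₀)
  have hz₀' : 0 < ‖z₀‖ := norm_pos_iff.mpr hz₀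
  -- choose ρ
  obtain ⟨ρ, hρ, hρ1, hρ2, hρ3⟩ : ∃ ρ : ℝ, 0 < ρ ∧ 2 * ρ < 1 ∧ 2 * ρ < ε ∧ 2 * ρ < ‖z₀‖ := by
    refine ⟨min 1 (min ε ‖z₀‖) / 4, by positivity, ?_, ?_, ?_⟩
    · have : min 1 (min ε ‖z₀‖) ≤ 1 := min_le_left _ _
      linarith
    · have : min 1 (min ε ‖z₀‖) ≤ ε := (min_le_right _ _).trans (min_le_left _ _)
      linarith
    · have : min 1 (min ε ‖z₀‖) ≤ ‖z₀‖ := (min_le_right _ _).trans (min_le_right _ _)
      linarith
  set C : E → ℝ := corr (tent ρ) (tent ρ) with hC
  have hCTF : TF C := (TF_tent ρ).corr (TF_tent ρ)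
  have hCeven : ∀ w, C (-w) = C w := fun w => corr_swap w
  set h : E := z₀ - η with hh
  -- the cross term vanishes
  have hcross : ∫ w, C (w - h) * K3 A ξ η w = 0 := by
    have key : ∀ σ : ℝ, 0 ≤ 2 * σ * ∫ w, C (w - h) * K3 A ξ η w := by
      intro σ
      have t1 : TF fun x : E => tent ρ (x - z₀) := (TF_tent ρ).comp_sub z₀
      have t2 : TF fun x : E => tent ρ (x - η) := (TF_tent ρ).comp_sub η
      have t3 : TF fun x : E => σ * tent ρ (x - η) := t2.const_mul σ
      have h1 := hK3 (fun x => tent ρ (x - z₀) + σ * tent ρ (x - η)) (t1.add t3)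
      have e1 : ∀ w, corr (fun x : E => tent ρ (x - z₀) + σ * tent ρ (x - η))
          (fun x => tent ρ (x - z₀) + σ * tent ρ (x - η)) w =
          (1 + σ ^ 2) * C w + (σ * C (w - h) + σ * C (w + h)) := by
        intro w
        rw [corr_add_left t1 t3 (t1.add t3), corr_add_right t1 t1 t3, corr_add_right t3 t1 t3,
          corr_const_mul_right, corr_const_mul_left, corr_const_mul_left, corr_const_mul_right,
          corr_translate_left, corr_translate_right, corr_translate_left, corr_translate_right,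
          corr_translate_left, corr_translate_right, corr_translate_left, corr_translate_right]
        have a1 : w - z₀ + z₀ = w := by abel
        have a2 : w - η + η = w := by abel
        have a3 : w - z₀ + η = w - h := by rw [hh]; abel
        have a4 : w - η + z₀ = w + h := by rw [hh]; abel
        rw [a1, a2, a3, a4]
        ring
      have i1 : Integrable fun w => C w * K3 A ξ η w := integrable_mul_K3 hl2 hCTF
      have i2 : Integrable fun w => C (w - h) * K3 A ξ η w := integrable_mul_K3 hl2 (hCTF.comp_sub h)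
      have i3 : Integrable fun w => C (w + h) * K3 A ξ η w :=
        integrable_mul_K3 hl2 (hCTF.comp_add_right h)
      have e2 : ∫ w, C (w + h) * K3 A ξ η w = ∫ w, C (w - h) * K3 A ξ η w := by
        rw [← integral_neg_eq_self]
        refine integral_congr_ae (Eventually.of_forall fun w => ?_)
        simp only
        rw [hA.K3_even, ← hCeven (w - h)]
        congr 2; abel
      have e3 : ∫ w, C w * K3 A ξ η w = 0 := diag_zero hA.ne hη hξη (by linarith)
      have e4 : ∫ w, corr (fun x : E => tent ρ (x - z₀) + σ * tent ρ (x - η))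
          (fun x => tent ρ (x - z₀) + σ * tent ρ (x - η)) w * K3 A ξ η w =
          (1 + σ ^ 2) * (∫ w, C w * K3 A ξ η w) + (σ * (∫ w, C (w - h) * K3 A ξ η w) +
            σ * ∫ w, C (w + h) * K3 A ξ η w) := by
        have i23 : Integrable fun w => σ * (C (w - h) * K3 A ξ η w) +
            σ * (C (w + h) * K3 A ξ η w) := (i2.const_mul σ).add (i3.const_mul σ)
        rw [← integral_const_mul, ← integral_const_mul, ← integral_const_mul,
          ← integral_add (i2.const_mul σ) (i3.const_mul σ),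
          ← integral_add (i1.const_mul (1 + σ ^ 2)) i23]
        refine integral_congr_ae (Eventually.of_forall fun w => ?_)
        simp only
        rw [e1 w]; ring
      rw [e4, e3, e2] at h1
      linarith
    have k1 := key 1
    have k2 := key (-1)
    linarith
  -- local form of the cross integrand
  have hloc : ∀ w, C (w - h) * K3 A ξ η w = -(Dl A ξ η z₀) * (C (w - h) * T2 A ξ η w) := by
    intro w
    rcases le_or_gt (2 * ρ) ‖w - h‖ with hw | hw
    · have : C (w - h) = 0 := corr_tent_eq_zero hw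
      rw [this]; ring
    · have hηw : |inner ℝ η w - (-1)| < (1 : ℝ) := by
        have h1 := abs_real_inner_le_norm η (w - h)
        have h2 : inner ℝ η (w - h) = inner ℝ η w - (-1 : ℝ) := by
          rw [hh, inner_sub_right, inner_sub_right, hηz, inner_self_one hη]; ring
        rw [h2, hη, one_mul] at h1
        linarith
      rw [abs_lt] at hηw
      have hz : perp η (perp ξ h) = z₀ := by
        have e : h = z₀ + (-1 : ℝ) • η := by rw [hh]; simp [sub_eq_add_neg]
        rw [e, perp_perp_add hη hξη, perp_eq_self hξz, perp_eq_self hηz]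
      have hdist : ‖perp η (perp ξ w) - z₀‖ < 2 * ρ := by
        have e : perp η (perp ξ w) - z₀ = perp η (perp ξ (w - h)) := by
          rw [perp_sub, perp_sub, hz]
        rw [e]
        exact ((norm_perp_le hη _).trans (norm_perp_le hξ _)).trans_lt hw
      set z := perp η (perp ξ w) with hzdef
      have hηz' : inner ℝ η z = 0 := inner_perp hη _
      have hξz' : inner ℝ ξ z = 0 := by
        rw [hzdef]
        have : perp η (perp ξ w) = perp ξ w - (inner ℝ η (perp ξ w) : ℝ) • η := rfl
        rw [this, inner_sub_right, inner_perp hξ, inner_smul_right, hξη]; simp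
      have hfc : fc A z = fc A z₀ := by
        have hsub : fc A z ⊆ fc A z₀ := hball (by rw [dist_eq_norm]; exact hdist.trans hρ2)
        refine Finset.Subset.antisymm hsub fun a ha => ?_
        obtain ⟨b, hb⟩ := fc_nonempty (x := z) hA.ne
        obtain ⟨s', t', hst⟩ := hface a ha b (hsub hb)
        have h1 : inner ℝ (a - b) z = 0 := by
          rw [hst, inner_add_left, inner_smul_left, inner_smul_left, hξz', hηz']; simp
        rw [inner_sub_left] at h1
        exact mem_fc.mpr ⟨fc_subset ha, by rw [← (mem_fc.mp hb).2]; linarith⟩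
      rw [K3_neg hA.ne hη hξη (by linarith) (by linarith), ← hzdef]
      unfold Dl
      rw [hfc]
      ring
  by_contra hne
  have hD : Dl A ξ η z₀ ≠ 0 := fun h0 => hne (sub_eq_zero.mp h0)
  have hi : Integrable fun w => C (w - h) * T2 A ξ η w := by
    have i2 : Integrable fun w => C (w - h) * K3 A ξ η w := integrable_mul_K3 hl2 (hCTF.comp_sub h)
    refine (i2.const_mul (-(Dl A ξ η z₀))⁻¹).congr (Eventually.of_forall fun w => ?_)
    simp only
    rw [hloc w, ← mul_assoc, inv_mul_cancel₀ (neg_ne_zero.mpr hD), one_mul]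
  have hzero : ∫ w, C (w - h) * T2 A ξ η w = 0 := by
    have : ∫ w, C (w - h) * K3 A ξ η w = -(Dl A ξ η z₀) * ∫ w, C (w - h) * T2 A ξ η w := by
      rw [← integral_const_mul]
      exact integral_congr_ae (Eventually.of_forall hloc)
    rw [hcross] at this
    rcases mul_eq_zero.mp this.symm with h' | h'
    · exact absurd (neg_eq_zero.mp h') hD
    · exact h'
  have hpos : 0 < ∫ w, C (w - h) * T2 A ξ η w := by
    rw [integral_pos_iff_support_of_nonneg (fun w => mul_nonneg (corr_tent_nonneg _ _)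
      (T2_nonneg ξ η w)) hi]
    have hopen : IsOpen {w : E | 0 < C (w - h)} :=
      isOpen_lt continuous_const (hCTF.comp_sub h).cont
    have hne' : {w : E | 0 < C (w - h)}.Nonempty := by
      refine ⟨h, ?_⟩
      show 0 < C (h - h)
      rw [sub_self]
      exact corr_tent_zero_pos hρ
    refine (hopen.measure_pos volume hne').trans_le (measure_mono fun w hw => ?_)
    have hw' : 0 < C (w - h) := hw
    have hwn : ‖w - h‖ < 2 * ρ := by
      by_contra hcon
      rw [hC, corr_tent_eq_zero (not_lt.mp hcon)] at hw'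
      exact lt_irrefl _ hw'
    rw [Function.mem_support]
    refine (mul_pos hw' ?_).ne'
    unfold T2
    have hz : perp η (perp ξ h) = z₀ := by
      have e : h = z₀ + (-1 : ℝ) • η := by rw [hh]; simp [sub_eq_add_neg]
      rw [e, perp_perp_add hη hξη, perp_eq_self hξz, perp_eq_self hηz]
    have hdist : ‖perp η (perp ξ w) - z₀‖ < 2 * ρ := by
      have e : perp η (perp ξ w) - z₀ = perp η (perp ξ (w - h)) := by
        rw [perp_sub, perp_sub, hz]
      rw [e]
      exact ((norm_perp_le hη _).trans (norm_perp_le hξ _)).trans_lt hwn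
    have hzne : perp η (perp ξ w) ≠ 0 := by
      intro h0
      rw [h0, zero_sub, norm_neg] at hdist
      linarith
    have hξw : |inner ℝ ξ w| < (1 : ℝ) := by
      have h1 := abs_real_inner_le_norm ξ (w - h)
      have h2 : inner ℝ ξ (w - h) = inner ℝ ξ w := by
        rw [hh, inner_sub_right, inner_sub_right, hξz, hξη]; ring
      rw [h2, hξ, one_mul] at h1
      linarith
    refine div_pos ?_ (pow_pos (hA.pn_pos hzne) 2)
    exact lt_max_of_lt_right (by linarith)
  linarith

end Pool.Agent.Helper54.IB
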