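import Pool.Agent.Helper54.IB.LocInt

/-!
# Polar coordinates and the Radon transform
-/

open Filter Topology Set MeasureTheory Function Metric

set_option linter.unusedSectionVars false

noncomputable section

namespace Pool.Agent.Helper54.IB

variable {E : Type*} [NormedAddCommGroup E] [InnerProductSpace ℝ E] [FiniteDimensional ℝ E]
  [MeasurableSpace E] [BorelSpace E]

theorem integral_volumeIoiPow (n : ℕ) (f : ℝ → ℝ) :
    ∫ r : Ioi (0 : ℝ), f r ∂(Measure.volumeIoiPow n) = ∫ r in Ioi (0 : ℝ), r ^ n * f r := by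
  simp only [Measure.volumeIoiPow, ENNReal.ofReal]
  rw [integral_withDensity_eq_integral_smul,
    integral_subtype_comap measurableSet_Ioi fun a ↦ Real.toNNReal (a ^ n) • f a,
    setIntegral_congr_fun measurableSet_Ioi fun x hx ↦ ?_]
  · rw [NNReal.smul_def, Real.coe_toNNReal _ (pow_nonneg hx.out.le _), smul_eq_mul]
  · exact (measurable_subtype_coe.pow_const _).real_toNNReal

theorem integral_polar [Nontrivial E] (F : E → ℝ) (hF : Integrable F) :
    ∫ x, F x = ∫ θ : sphere (0 : E) 1,
      (∫ r in Ioi (0 : ℝ), r ^ (Module.finrank ℝ E - 1) * F (r • (θ : E)))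
        ∂(volume : Measure E).toSphere := by
  have hmp := (volume : Measure E).measurePreserving_homeomorphUnitSphereProd
  have hmp' : MeasurePreserving (homeomorphUnitSphereProd E).symm
      ((volume : Measure E).toSphere.prod (Measure.volumeIoiPow (Module.finrank ℝ E - 1)))
      ((volume : Measure E).comap (↑)) :=
    hmp.symm (homeomorphUnitSphereProd E).toMeasurableEquiv
  have h1 : ∫ x, F x = ∫ x : ({(0)}ᶜ : Set E), F x.1 ∂((volume : Measure E).comap (↑)) := by
    rw [integral_subtype_comap (measurableSet_singleton _).compl fun x ↦ F x,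
      restrict_compl_singleton]
  have hemb : MeasurableEmbedding (homeomorphUnitSphereProd E).symm :=
    (homeomorphUnitSphereProd E).symm.measurableEmbedding
  have h2 := hmp'.integral_comp hemb (fun x : ({(0)}ᶜ : Set E) => F x.1)
  have hFi : Integrable (fun x : ({(0)}ᶜ : Set E) => F x.1) ((volume : Measure E).comap (↑)) := by
    have := (integrableOn_iff_comap_subtypeVal (μ := (volume : Measure E)) (f := F)
      (measurableSet_singleton (0 : E)).compl).mp hF.integrableOn
    exact this
  have hi := (hmp'.integrable_comp_emb hemb (g := fun x : ({(0)}ᶜ : Set E) => F x.1)).mpr hFi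
  have hi2 := integral_prod _ hi
  simp only [comp_apply] at hi2
  rw [h1, ← h2, hi2]
  refine integral_congr_ae (Eventually.of_forall fun θ => ?_)
  simp only
  rw [← integral_volumeIoiPow]
  refine integral_congr_ae (Eventually.of_forall fun r => ?_)
  simp [homeomorphUnitSphereProd]

theorem TF.exists_bound {f : E → ℝ} (hf : TF f) : ∃ R : ℝ, 0 < R ∧ ∀ x, R < ‖x‖ → f x = 0 := by
  obtain ⟨R, hR⟩ := hf.supp.isCompact.isBounded.subset_closedBall (0 : E)
  refine ⟨max R 1, by positivity, fun x hx => ?_⟩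
  by_contra h
  have := hR (subset_tsupport f h)
  rw [mem_closedBall_zero_iff] at this
  exact absurd (this.trans (le_max_left R 1)) (not_le.mpr hx)

/-- the radial integral -/
def radInt (m : ℕ) (φ : E → ℝ) (x : E) : ℝ := ∫ r in Ioi (0 : ℝ), r ^ m * φ (r • x)

theorem TF.continuous_radInt {φ : E → ℝ} (hφ : TF φ) (m : ℕ) :
    Continuous fun θ : sphere (0 : E) 1 => radInt m φ (θ : E) := by
  obtain ⟨R, hR0, hR⟩ := hφ.exists_bound
  have h1 : (fun θ : sphere (0 : E) 1 => radInt m φ (θ : E)) =
      fun θ : sphere (0 : E) 1 => ∫ r in Icc (0 : ℝ) R, r ^ m * φ (r • (θ : E)) := by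
    ext θ
    unfold radInt
    rw [integral_Icc_eq_integral_Ioc]
    refine setIntegral_eq_of_subset_of_forall_sdiff_eq_zero measurableSet_Ioi
      (fun r hr => hr.1) fun r hr => ?_
    have h2 : R < r := by
      by_contra hcon
      exact hr.2 ⟨hr.1, not_lt.mp hcon⟩
    have h3 : φ (r • (θ : E)) = 0 := by
      apply hR
      rw [norm_smul, Real.norm_eq_abs, abs_of_pos (hR0.trans h2)]
      have : ‖(θ : E)‖ = 1 := by simp
      rw [this, mul_one]
      exact h2
    rw [h3, mul_zero]
  rw [h1]
  refine continuous_parametric_integral_of_continuous ?_ isCompact_Icc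
  have := hφ.cont
  unfold Function.uncurry
  fun_prop

/-- Integrals of autocorrelations over subspaces are nonnegative. -/
theorem integral_corr_subspace_nonneg (s : Submodule ℝ E) {ψ : E → ℝ} (hψ : TF ψ) :
    0 ≤ ∫ u : s, corr ψ ψ (u : E) := by
  obtain ⟨R, hR0, hR⟩ := hψ.exists_bound
  have hmp : MeasurePreserving (odec s).symm := (odec_measurePreserving s).symm
  let F : s → s × sᗮ → ℝ := fun u q => ψ ((u : E) + ((q.1 : E) + (q.2 : E))) *
    ψ ((q.1 : E) + (q.2 : E))
  have e1 : ∀ u : s, corr ψ ψ (u : E) = ∫ q : s × sᗮ, F u q := by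
    intro u
    unfold corr
    rw [← hmp.integral_comp' (g := fun y : E => ψ ((u : E) + y) * ψ y)]
    refine integral_congr_ae (Eventually.of_forall fun q => ?_)
    simp only [F]
    rw [odec_symm_apply]
  have hcont : Continuous (Function.uncurry F) := by
    have := hψ.cont
    simp only [F]
    fun_prop
  have hnorm : ∀ q : s × sᗮ, ‖q.1‖ ≤ ‖(q.1 : E) + (q.2 : E)‖ ∧
      ‖q.2‖ ≤ ‖(q.1 : E) + (q.2 : E)‖ := by
    intro q
    have h1 : ‖(q.1 : E) + (q.2 : E)‖ ^ 2 = ‖(q.1 : E)‖ ^ 2 + ‖(q.2 : E)‖ ^ 2 := by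
      rw [norm_add_sq_real, Submodule.inner_right_of_mem_orthogonal q.1.2 q.2.2]; ring
    have h2 : ‖(q.1 : E)‖ = ‖q.1‖ := rfl
    have h3 : ‖(q.2 : E)‖ = ‖q.2‖ := rfl
    rw [h2, h3] at h1
    constructor
    · refine (sq_le_sq₀ (norm_nonneg _) (norm_nonneg _)).mp ?_
      rw [h1]; nlinarith [sq_nonneg ‖q.2‖]
    · refine (sq_le_sq₀ (norm_nonneg _) (norm_nonneg _)).mp ?_
      rw [h1]; nlinarith [sq_nonneg ‖q.1‖]
  have hsupp : HasCompactSupport (Function.uncurry F) := by
    refine HasCompactSupport.intro (K := closedBall (0 : s) (2 * R) ×ˢ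
      (closedBall (0 : s) R ×ˢ closedBall (0 : sᗮ) R))
      ((isCompact_closedBall _ _).prod ((isCompact_closedBall _ _).prod (isCompact_closedBall _ _)))
      ?_
    rintro ⟨u, q⟩ h
    simp only [Function.uncurry, F]
    by_contra hne
    obtain ⟨hne1, hne2⟩ := mul_ne_zero_iff.mp hne
    have h1 : ‖(q.1 : E) + (q.2 : E)‖ ≤ R := by
      by_contra hcon; exact hne2 (hR _ (not_le.mp hcon))
    have h2 : ‖(u : E) + ((q.1 : E) + (q.2 : E))‖ ≤ R := by
      by_contra hcon; exact hne1 (hR _ (not_le.mp hcon))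
    apply h
    refine ⟨?_, ?_, ?_⟩
    · rw [mem_closedBall_zero_iff]
      have h3 : ‖(u : E)‖ ≤ ‖(u : E) + ((q.1 : E) + (q.2 : E))‖ + ‖(q.1 : E) + (q.2 : E)‖ := by
        have := norm_sub_le ((u : E) + ((q.1 : E) + (q.2 : E))) ((q.1 : E) + (q.2 : E))
        rwa [add_sub_cancel_right] at this
      have h4 : ‖(u : E)‖ = ‖u‖ := rfl
      linarith
    · rw [mem_closedBall_zero_iff]; exact (hnorm q).1.trans h1
    · rw [mem_closedBall_zero_iff]; exact (hnorm q).2.trans h1
  have hint : Integrable (Function.uncurry F) ((volume : Measure s).prod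
      (volume : Measure (s × sᗮ))) := hcont.integrable_of_hasCompactSupport hsupp
  have e2 : ∫ u : s, corr ψ ψ (u : E) = ∫ q : s × sᗮ, ∫ u : s, F u q := by
    rw [← integral_integral_swap hint]
    exact integral_congr_ae (Eventually.of_forall fun u => e1 u)
  let g : sᗮ → ℝ := fun b => ∫ u : s, ψ ((u : E) + (b : E))
  have e3 : ∀ q : s × sᗮ, ∫ u : s, F u q = ψ ((q.1 : E) + (q.2 : E)) * g q.2 := by
    intro q
    simp only [F, g]
    rw [integral_mul_const, mul_comm]
    congr 1
    rw [← integral_add_right_eq_self (fun u : s => ψ ((u : E) + (q.2 : E))) q.1]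
    refine integral_congr_ae (Eventually.of_forall fun u => ?_)
    simp only [Submodule.coe_add, add_assoc]
  have hint2 : Integrable (fun q : s × sᗮ => ψ ((q.1 : E) + (q.2 : E)) * g q.2)
      ((volume : Measure s).prod (volume : Measure sᗮ)) := by
    have := hint.integral_prod_right
    refine this.congr (Eventually.of_forall fun q => ?_)
    exact e3 q
  have e4 : ∫ q : s × sᗮ, ∫ u : s, F u q = ∫ b : sᗮ, g b * g b := by
    rw [integral_congr_ae (Eventually.of_forall e3)]
    have e5 := integral_prod_symm _ hint2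
    have e6 : (volume : Measure (s × sᗮ)) = (volume : Measure s).prod (volume : Measure sᗮ) := rfl
    rw [e6, e5]
    refine integral_congr_ae (Eventually.of_forall fun b => ?_)
    simp only
    rw [integral_mul_const]
  rw [e2, e4]
  exact integral_nonneg fun b => mul_self_nonneg _

end Pool.Agent.Helper54.IB
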