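import Pool.Agent.Helper54.IB.Defs
import Pool.Agent.Helper54.IB.Polar
import Pool.Agent.Helper54.IB.Kernels

/-!
# The norm of an intersection body: `1/p` is positive definite
-/

open Filter Topology Set MeasureTheory Function Metric

set_option linter.unusedSectionVars false

noncomputable section

namespace Pool.Agent.Helper54.IB

variable {E : Type*} [NormedAddCommGroup E] [InnerProductSpace ℝ E] [FiniteDimensional ℝ E]
  [MeasurableSpace E] [BorelSpace E] {A : Finset E} {c : ℝ}

theorem finrank_orth {v : E} (hv : v ≠ 0) {n : ℕ} (hn : Module.finrank ℝ E = n + 1) :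
    Module.finrank ℝ (ℝ ∙ v)ᗮ = n := by
  have h1 := Submodule.finrank_add_finrank_orthogonal (ℝ ∙ v)
  rw [finrank_span_singleton hv, hn] at h1
  omega

theorem TF.restrict {φ : E → ℝ} (hφ : TF φ) (s : Submodule ℝ E) : TF fun u : s => φ (u : E) := by
  obtain ⟨R, _, hR⟩ := hφ.exists_bound
  refine ⟨hφ.cont.comp continuous_subtype_val, ?_⟩
  refine HasCompactSupport.intro (isCompact_closedBall (0 : s) R) fun u hu => ?_
  rw [mem_closedBall_zero_iff, not_le] at hu
  exact hR _ hu

/-- the Radon transform of the radial integral is the integral over the hyperplane -/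
theorem radon_radInt {φ : E → ℝ} (hφ : TF φ) {m : ℕ} (hn : Module.finrank ℝ E = m + 2)
    (v : sphere (0 : E) 1) :
    radon (fun θ => radInt m φ (θ : E)) v = ∫ u : (ℝ ∙ (v : E))ᗮ, φ (u : E) := by
  have hv : (v : E) ≠ 0 := by
    intro h
    have := v.2
    rw [h] at this
    simp at this
  have hfr := finrank_orth hv (n := m + 1) hn
  have : Nontrivial (ℝ ∙ (v : E))ᗮ := Module.nontrivial_of_finrank_pos (R := ℝ) (by omega)
  rw [integral_polar (fun u : (ℝ ∙ (v : E))ᗮ => φ (u : E)) (hφ.restrict _).integrable]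
  unfold radon
  refine integral_congr_ae (Eventually.of_forall fun x => ?_)
  simp only
  rw [hfr, Nat.add_sub_cancel]
  rfl

/-- **The norm of an intersection body.** -/
theorem Coer.PD_of_radon (hA : Coer A c) (h3 : 3 ≤ Module.finrank ℝ E)
    {ρ : sphere (0 : E) 1 → ℝ} (hρ : ∀ u : sphere (0 : E) 1, ρ u = (pn A (u : E))⁻¹)
    {μ : Measure (sphere (0 : E) 1)}
    (hμ : ∀ f : sphere (0 : E) 1 → ℝ, Continuous f → (∀ u, f (-u) = f u) →
      ∫ u, ρ u * f u ∂((volume : Measure E).toSphere) = ∫ v, radon f v ∂μ) :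
    PD fun w : E => (pn A w)⁻¹ := by
  intro ψ hψ
  have : Nontrivial E := Module.nontrivial_of_finrank_pos (R := ℝ) (by omega)
  obtain ⟨m, hm⟩ : ∃ m, Module.finrank ℝ E = m + 2 := ⟨Module.finrank ℝ E - 2, by omega⟩
  set φ : E → ℝ := corr ψ ψ with hφdef
  have hφ : TF φ := hψ.corr hψ
  have hint : Integrable fun w => φ w * (pn A w)⁻¹ := hφ.integrable_mul (hA.locInt_k h3)
  rw [integral_polar _ hint]
  have e1 : ∀ θ : sphere (0 : E) 1, (∫ r in Ioi (0 : ℝ), r ^ (Module.finrank ℝ E - 1) *
      (φ (r • (θ : E)) * (pn A (r • (θ : E)))⁻¹)) = ρ θ * radInt m φ (θ : E) := by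
    intro θ
    unfold radInt
    rw [← integral_const_mul]
    refine setIntegral_congr_fun measurableSet_Ioi fun r hr => ?_
    have hr0 : (0 : ℝ) < r := hr
    rw [pn_smul hA.ne hr0.le, hm, hρ, mul_inv]
    have : m + 2 - 1 = m + 1 := rfl
    rw [this, pow_succ]
    field_simp
  rw [integral_congr_ae (Eventually.of_forall e1)]
  have heven : ∀ u : sphere (0 : E) 1, radInt m φ ((-u : sphere (0 : E) 1) : E) =
      radInt m φ (u : E) := by
    intro u
    unfold radInt
    refine setIntegral_congr_fun measurableSet_Ioi fun r _ => ?_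
    have h1 : ((-u : sphere (0 : E) 1) : E) = -(u : E) := rfl
    rw [h1, smul_neg, hφdef, corr_swap]
  rw [hμ (fun θ => radInt m φ (θ : E)) (hφ.continuous_radInt m) heven]
  refine integral_nonneg fun v => ?_
  simp only [Pi.zero_apply]
  rw [radon_radInt hφ hm v]
  exact integral_corr_subspace_nonneg _ hψ

end Pool.Agent.Helper54.IB
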