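import Pool.Agent.Helper54.IB.Zonotope

/-!
# The zonotope representation `pn A x = ∑ |⟪v_i, x⟫|`
-/

open Filter Topology Set

noncomputable section

namespace Pool.Agent.Helper54.IB

variable {E : Type*} [NormedAddCommGroup E] [InnerProductSpace ℝ E]
variable {A B : Finset E} {x y v : E}

/-- Width formula. -/
theorem width_eq (hB : B.Nonempty) {k : ℝ} {w : E}
    (h : ∀ a ∈ B, ∀ b ∈ B, inner ℝ (a - b) v = k * inner ℝ (a - b) w) :
    pn B v + pn B (-v) = |k| * (pn B w + pn B (-w)) := by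
  apply le_antisymm
  · obtain ⟨a, ha, h1⟩ := exists_pn hB v
    obtain ⟨b, hb, h2⟩ := exists_pn hB (-v)
    have e1 : pn B v + pn B (-v) = inner ℝ (a - b) v := by
      rw [← h1, ← h2, inner_neg_right, inner_sub_left]; ring
    rw [e1, h a ha b hb]
    calc k * inner ℝ (a - b) w ≤ |k * inner ℝ (a - b) w| := le_abs_self _
      _ = |k| * |inner ℝ (a - b) w| := abs_mul _ _
      _ ≤ |k| * (pn B w + pn B (-w)) := by
          refine mul_le_mul_of_nonneg_left ?_ (abs_nonneg _)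
          rw [inner_sub_left, abs_le]
          have h3 := le_pn ha w
          have h4 := le_pn hb w
          have h5 := le_pn ha (-w)
          have h6 := le_pn hb (-w)
          rw [inner_neg_right] at h5 h6
          constructor <;> linarith
  · obtain ⟨a, ha, h1⟩ := exists_pn hB w
    obtain ⟨b, hb, h2⟩ := exists_pn hB (-w)
    have e1 : pn B w + pn B (-w) = inner ℝ (a - b) w := by
      rw [← h1, ← h2, inner_neg_right, inner_sub_left]; ring
    have e2 : 0 ≤ inner ℝ (a - b) w := by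
      rw [inner_sub_left, h1]
      have := le_pn hb w
      linarith
    rw [e1]
    calc |k| * inner ℝ (a - b) w = |k * inner ℝ (a - b) w| := by rw [abs_mul, abs_of_nonneg e2]
      _ = |inner ℝ (a - b) v| := by rw [h a ha b hb]
      _ ≤ pn B v + pn B (-v) := by
          rw [inner_sub_left, abs_le]
          have h3 := le_pn ha v
          have h4 := le_pn hb v
          have h5 := le_pn ha (-v)
          have h6 := le_pn hb (-v)
          rw [inner_neg_right] at h5 h6
          constructor <;> linarith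

/-- The pair `{ξ, -ξ}`; its support function is `|⟪ξ, ·⟫|`. -/
def pr (ξ : E) : Finset E := by
  classical exact {ξ, -ξ}

omit [InnerProductSpace ℝ E] in
theorem mem_pr {ξ a : E} : a ∈ pr ξ ↔ a = ξ ∨ a = -ξ := by
  classical
  unfold pr
  rw [Finset.mem_insert, Finset.mem_singleton]

omit [InnerProductSpace ℝ E] in
theorem pr_nonempty (ξ : E) : (pr ξ).Nonempty := ⟨ξ, mem_pr.mpr (Or.inl rfl)⟩

theorem pn_pr (ξ x : E) : pn (pr ξ) x = |inner ℝ ξ x| := by
  refine pn_eq_of (pr_nonempty ξ) (fun a ha => ?_) ?_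
  · rcases mem_pr.mp ha with rfl | rfl
    · exact le_abs_self _
    · rw [inner_neg_left]; exact neg_le_abs _
  · rcases abs_choice (inner ℝ ξ x : ℝ) with h | h
    · exact ⟨ξ, mem_pr.mpr (Or.inl rfl), h.symm⟩
    · exact ⟨-ξ, mem_pr.mpr (Or.inr rfl), by rw [inner_neg_left, h]⟩

theorem pr_width (ξ x v : E) : pn (fc (pr ξ) x) v + pn (fc (pr ξ) x) (-v) =
    if inner ℝ ξ x = (0 : ℝ) then 2 * |inner ℝ ξ v| else 0 := by
  split_ifs with h
  · have h1 : fc (pr ξ) x = pr ξ := by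
      refine fc_eq_self fun a ha b hb => ?_
      have : ∀ c ∈ pr ξ, inner ℝ c x = 0 := by
        intro c hc
        rcases mem_pr.mp hc with rfl | rfl
        · exact h
        · rw [inner_neg_left, h, neg_zero]
      rw [inner_sub_left, this a ha, this b hb, sub_zero]
    rw [h1, pn_pr, pn_pr, inner_neg_right, abs_neg]; ring
  · obtain ⟨a, ha⟩ := fc_nonempty (x := x) (pr_nonempty ξ)
    have huniq : ∀ b ∈ fc (pr ξ) x, b = a := by
      intro b hb
      have h1 := (mem_fc.mp ha).2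
      have h2 := (mem_fc.mp hb).2
      rw [← h1] at h2
      rcases mem_pr.mp (fc_subset ha) with rfl | rfl <;>
        rcases mem_pr.mp (fc_subset hb) with rfl | rfl
      · rfl
      · rw [inner_neg_left] at h2; exact absurd (by linarith) h
      · rw [inner_neg_left] at h2; exact absurd (by linarith) h
      · rfl
    have h1 : ∀ w, pn (fc (pr ξ) x) w = inner ℝ a w := fun w =>
      pn_eq_of ⟨a, ha⟩ (fun b hb => by rw [huniq b hb]) ⟨a, ha, rfl⟩
    rw [h1, h1, inner_neg_right, add_neg_cancel]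

/-- unit directions of the differences -/
def dirs (A : Finset E) : Finset E := by
  classical exact ((diffs A).filter fun d => d ≠ 0).image fun d => ‖d‖⁻¹ • d

theorem mem_dirs {ξ : E} : ξ ∈ dirs A ↔ ∃ d ∈ diffs A, d ≠ 0 ∧ ‖d‖⁻¹ • d = ξ := by
  classical
  unfold dirs
  rw [Finset.mem_image]
  constructor
  · rintro ⟨d, hd, rfl⟩
    rw [Finset.mem_filter] at hd
    exact ⟨d, hd.1, hd.2, rfl⟩
  · rintro ⟨d, hd, hne, rfl⟩
    exact ⟨d, Finset.mem_filter.mpr ⟨hd, hne⟩, rfl⟩

theorem norm_of_mem_dirs {ξ : E} (h : ξ ∈ dirs A) : ‖ξ‖ = 1 := by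
  obtain ⟨d, _, hne, rfl⟩ := mem_dirs.mp h
  rw [norm_smul, norm_inv, norm_norm, inv_mul_cancel₀ (norm_ne_zero_iff.mpr hne)]

omit [InnerProductSpace ℝ E] in
theorem neg_mem_diffs {d : E} (h : d ∈ diffs A) : -d ∈ diffs A := by
  obtain ⟨a, ha, b, hb, rfl⟩ := mem_diffs.mp h
  exact mem_diffs.mpr ⟨b, hb, a, ha, by abel⟩

theorem neg_mem_dirs {ξ : E} (h : ξ ∈ dirs A) : -ξ ∈ dirs A := by
  obtain ⟨d, hd, hne, rfl⟩ := mem_dirs.mp h
  exact mem_dirs.mpr ⟨-d, neg_mem_diffs hd, neg_ne_zero.mpr hne, by rw [norm_neg, smul_neg]⟩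

/-- a generic point of `ξᗮ` -/
theorem exists_gen (A : Finset E) (ξ : E) : ∃ g : E, inner ℝ ξ g = 0 ∧
    ∀ d ∈ diffs A, inner ℝ d g = 0 → ∃ c : ℝ, d = c • ξ := by
  classical
  obtain ⟨g, -, h1, h2⟩ := exists_near ξ 0 ((diffs A).filter (NotMul ξ))
    (fun u hu => (Finset.mem_filter.mp hu).2) (P := fun _ => True) (Eventually.of_forall fun _ => trivial)
  refine ⟨g, by rw [h1, inner_zero_right], fun d hd h3 => ?_⟩
  by_contra hcon
  push Not at hcon
  exact h2 d (Finset.mem_filter.mpr ⟨hd, hcon⟩) h3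

/-- a chosen generic point -/
def gp (A : Finset E) (ξ : E) : E := (exists_gen A ξ).choose

theorem gp_spec (A : Finset E) (ξ : E) : inner ℝ ξ (gp A ξ) = 0 ∧
    ∀ d ∈ diffs A, inner ℝ d (gp A ξ) = 0 → ∃ c : ℝ, d = c • ξ := (exists_gen A ξ).choose_spec

/-- the kink constant of the direction `ξ` -/
def kc (A : Finset E) (ξ : E) : ℝ := kink A ξ (gp A ξ)

/-- Hypothesis package. -/
structure Good (A : Finset E) : Prop where
  ne : A.Nonempty
  symm : Symm A
  loc : LocalSym A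
  dim : ∀ ξ d : E, ∃ a ∈ A, ∃ b ∈ A, ∀ s t : ℝ, a - b ≠ s • ξ + t • d

theorem Good.kc_eq (hG : Good A) {ξ : E} (hξ : ‖ξ‖ = 1) (hy : inner ℝ ξ y = 0)
    (hgy : ∀ a ∈ fc A y, ∀ b ∈ fc A y, ∃ c : ℝ, a - b = c • ξ) : kink A ξ y = kc A ξ :=
  (kink_const hG.ne hG.loc hG.dim hξ (gp_spec A ξ).1 hy (gp_spec A ξ).2 hgy).symm

theorem Good.kc_neg (hG : Good A) {ξ : E} (hξ : ‖ξ‖ = 1) : kc A (-ξ) = kc A ξ := by
  have h1 := gp_spec A (-ξ)
  rw [inner_neg_left, neg_eq_zero] at h1
  have h2 : kc A (-ξ) = kink A ξ (gp A (-ξ)) := kink_neg_left ξ _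
  rw [h2]
  refine hG.kc_eq hξ h1.1 fun a ha b hb => ?_
  obtain ⟨c, hc⟩ := h1.2 (a - b) (mem_diffs.mpr ⟨a, fc_subset ha, b, fc_subset hb, rfl⟩)
    (inner_sub_eq_zero_of_mem_fc ha hb)
  exact ⟨-c, by rw [hc, smul_neg, neg_smul]⟩

theorem kc_nonneg (hA : A.Nonempty) (ξ : E) : 0 ≤ kc A ξ := kink_nonneg hA _ _

/-- the candidate zonotope norm -/
def zn (A : Finset E) (x : E) : ℝ := ∑ ξ ∈ dirs A, 1 / 4 * kc A ξ * pn (pr ξ) x

theorem continuous_zn (A : Finset E) : Continuous (zn A) := by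
  unfold zn
  exact continuous_finsetSum _ fun ξ _ => continuous_const.mul (continuous_pn (pr_nonempty ξ))

theorem zn_neg (A : Finset E) (x : E) : zn A (-x) = zn A x := by
  unfold zn
  refine Finset.sum_congr rfl fun ξ _ => ?_
  rw [pn_pr, pn_pr, inner_neg_right, abs_neg]

theorem zn_zero (A : Finset E) : zn A 0 = 0 := by
  unfold zn
  refine Finset.sum_eq_zero fun ξ _ => ?_
  rw [pn_zero (pr_nonempty ξ), mul_zero]

theorem NotMul_zero {u : E} : NotMul 0 u ↔ u ≠ 0 := by
  unfold NotMul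
  constructor
  · intro h; simpa using h 0
  · intro h c; simpa using h

/-- `pn A - zn A` is affine along generic lines. -/
theorem Good.affine_line (hG : Good A)
    (hx : ∀ d ∈ diffs A, d ≠ 0 → inner ℝ d x ≠ 0)
    (hy : ∀ u ∈ badU A 0 x, inner ℝ u y ≠ 0) :
    pn A ((1 / 2 : ℝ) • (x + y)) - zn A ((1 / 2 : ℝ) • (x + y)) =
      1 / 2 * ((pn A x - zn A x) + (pn A y - zn A y)) := by
  classical
  set v := y - x with hv
  -- proportionality of vanishing differences
  have hpar : ∀ τ : ℝ, ∀ d₀ ∈ diffs A, d₀ ≠ 0 → inner ℝ d₀ (x + τ • v) = 0 →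
      ∀ d ∈ diffs A, inner ℝ d (x + τ • v) = 0 → ∃ t : ℝ, d = t • d₀ := by
    intro τ d₀ hd₀ hne h0 d hd h1
    obtain ⟨c, hc⟩ := line_dep hy hd₀ hd h0 h1
    rw [smul_zero, sub_eq_zero] at hc
    refine ⟨(inner ℝ d₀ x)⁻¹ * inner ℝ d x, ?_⟩
    rw [mul_smul, ← hc, smul_smul, inv_mul_cancel₀ (hx d₀ hd₀ hne), one_smul]
  let f : ℝ → ℝ := fun τ => pn A (x + τ • v) - zn A (x + τ • v)
  let m : ℝ → ℝ := fun τ => pn (fc A (x + τ • v)) v -
    ∑ ξ ∈ dirs A, 1 / 4 * kc A ξ * pn (fc (pr ξ) (x + τ • v)) v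
  let m' : ℝ → ℝ := fun τ => pn (fc A (x + τ • v)) (-v) -
    ∑ ξ ∈ dirs A, 1 / 4 * kc A ξ * pn (fc (pr ξ) (x + τ • v)) (-v)
  have hzn : ∀ (z w : E), ∀ᶠ ε in 𝓝[>] (0 : ℝ), zn A (z + ε • w) = zn A z +
      ε * ∑ ξ ∈ dirs A, 1 / 4 * kc A ξ * pn (fc (pr ξ) z) w := by
    intro z w
    have h1 : ∀ᶠ ε in 𝓝[>] (0 : ℝ), ∀ ξ ∈ dirs A,
        pn (pr ξ) (z + ε • w) = pn (pr ξ) z + ε * pn (fc (pr ξ) z) w := by
      rw [Filter.eventually_all_finset]
      intro ξ _
      filter_upwards [eventually_local (pr_nonempty ξ) z w] with ε hε using hε.2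
    filter_upwards [h1] with ε hε
    unfold zn
    rw [Finset.mul_sum, ← Finset.sum_add_distrib]
    exact Finset.sum_congr rfl fun ξ hξ => by rw [hε ξ hξ]; ring
  have hmm : ∀ τ, m τ + m' τ = 0 := by
    intro τ
    simp only [m, m']
    set γ := x + τ • v with hγ
    have e1 : pn (fc A γ) v - ∑ ξ ∈ dirs A, 1 / 4 * kc A ξ * pn (fc (pr ξ) γ) v +
        (pn (fc A γ) (-v) - ∑ ξ ∈ dirs A, 1 / 4 * kc A ξ * pn (fc (pr ξ) γ) (-v)) =
        (pn (fc A γ) v + pn (fc A γ) (-v)) -
        ∑ ξ ∈ dirs A, 1 / 4 * kc A ξ * (if inner ℝ ξ γ = (0 : ℝ) then 2 * |inner ℝ ξ v| else 0) := by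
      have : ∀ ξ ∈ dirs A, 1 / 4 * kc A ξ *
          (if inner ℝ ξ γ = (0 : ℝ) then 2 * |inner ℝ ξ v| else 0) =
          1 / 4 * kc A ξ * pn (fc (pr ξ) γ) v + 1 / 4 * kc A ξ * pn (fc (pr ξ) γ) (-v) := by
        intro ξ _
        rw [← pr_width]; ring
      rw [Finset.sum_congr rfl this, Finset.sum_add_distrib]; ring
    rw [e1]
    have hBne : (fc A γ).Nonempty := fc_nonempty hG.ne
    by_cases hcase : ∃ ξ₀ ∈ dirs A, inner ℝ ξ₀ γ = 0
    · obtain ⟨ξ₀, hξ₀, h0⟩ := hcase
      have hn₀ := norm_of_mem_dirs hξ₀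
      obtain ⟨d₀, hd₀, hd₀ne, hd₀ξ⟩ := mem_dirs.mp hξ₀
      have hd₀pos : 0 < ‖d₀‖ := norm_pos_iff.mpr hd₀ne
      have hd₀eq : d₀ = ‖d₀‖ • ξ₀ := by
        rw [← hd₀ξ, smul_smul, mul_inv_cancel₀ hd₀pos.ne', one_smul]
      have h0d : inner ℝ d₀ γ = 0 := by rw [hd₀eq, inner_smul_left, h0]; simp
      have hface : ∀ a ∈ fc A γ, ∀ b ∈ fc A γ, ∃ c : ℝ, a - b = c • ξ₀ := by
        intro a ha b hb
        obtain ⟨t, ht⟩ := hpar τ d₀ hd₀ hd₀ne h0d (a - b)
          (mem_diffs.mpr ⟨a, fc_subset ha, b, fc_subset hb, rfl⟩)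
          (inner_sub_eq_zero_of_mem_fc ha hb)
        exact ⟨t * ‖d₀‖, by rw [ht]; conv_lhs => rw [hd₀eq]
                            rw [smul_smul]⟩
      have hk : kink A ξ₀ γ = kc A ξ₀ := hG.kc_eq hn₀ h0 hface
      have hwid : pn (fc A γ) v + pn (fc A γ) (-v) = |inner ℝ ξ₀ v| * kc A ξ₀ := by
        rw [← hk]
        refine width_eq hBne fun a ha b hb => ?_
        obtain ⟨c, hc⟩ := hface a ha b hb
        have hξξ : inner ℝ ξ₀ ξ₀ = (1 : ℝ) := by rw [real_inner_self_eq_norm_sq, hn₀]; norm_num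
        rw [hc, real_inner_smul_left, real_inner_smul_left, hξξ]; ring
      -- the sum has exactly two terms
      have hsum : ∑ ξ ∈ dirs A, 1 / 4 * kc A ξ *
          (if inner ℝ ξ γ = (0 : ℝ) then 2 * |inner ℝ ξ v| else 0) =
          ∑ ξ ∈ ({ξ₀, -ξ₀} : Finset E), 1 / 4 * kc A ξ * (2 * |inner ℝ ξ v|) := by
        have hsub : ({ξ₀, -ξ₀} : Finset E) ⊆ dirs A := by
          intro ξ hξ
          rw [Finset.mem_insert, Finset.mem_singleton] at hξ
          rcases hξ with rfl | rfl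
          · exact hξ₀
          · exact neg_mem_dirs hξ₀
        rw [← Finset.sum_subset hsub]
        · refine Finset.sum_congr rfl fun ξ hξ => ?_
          rw [Finset.mem_insert, Finset.mem_singleton] at hξ
          rw [if_pos]
          rcases hξ with rfl | rfl
          · exact h0
          · rw [inner_neg_left, h0, neg_zero]
        · intro ξ hξ hnot
          rw [if_neg, mul_zero]
          intro hz
          apply hnot
          obtain ⟨d, hd, hdne, hdξ⟩ := mem_dirs.mp hξ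
          have hdpos : 0 < ‖d‖ := norm_pos_iff.mpr hdne
          have hdeq : d = ‖d‖ • ξ := by
            rw [← hdξ, smul_smul, mul_inv_cancel₀ hdpos.ne', one_smul]
          have hzd : inner ℝ d γ = 0 := by rw [hdeq, inner_smul_left, hz]; simp
          obtain ⟨t, ht⟩ := hpar τ d₀ hd₀ hd₀ne h0d d hd hzd
          -- ξ = c ξ₀ with |c| = 1
          have hξc : ξ = (‖d‖⁻¹ * (t * ‖d₀‖)) • ξ₀ := by
            rw [← hdξ]
            conv_lhs => rw [ht, hd₀eq]
            rw [norm_smul, norm_smul, norm_norm, hn₀, mul_one, smul_smul, smul_smul]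
            congr 1
            rw [ht, norm_smul]
            ring
          have habs : |‖d‖⁻¹ * (t * ‖d₀‖)| = 1 := by
            have h5 := norm_of_mem_dirs hξ
            rw [hξc, norm_smul, hn₀, mul_one, Real.norm_eq_abs] at h5
            exact h5
          rw [Finset.mem_insert, Finset.mem_singleton]
          rcases (abs_eq (by norm_num : (0 : ℝ) ≤ 1)).mp habs with h6 | h6
          · left; rw [hξc, h6, one_smul]
          · right; rw [hξc, h6, neg_smul, one_smul]
      have hne : ξ₀ ≠ -ξ₀ := by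
        intro h
        have h7 : ξ₀ = 0 := by
          have : (2 : ℝ) • ξ₀ = 0 := by
            rw [two_smul]; nth_rewrite 2 [h]; simp
          simpa using this
        rw [h7, norm_zero] at hn₀
        norm_num at hn₀
      rw [hwid, hsum, Finset.sum_pair hne, hG.kc_neg hn₀, inner_neg_left, abs_neg]
      ring
    · push Not at hcase
      have hsing : ∀ a ∈ fc A γ, ∀ b ∈ fc A γ, a - b = 0 := by
        intro a ha b hb
        by_contra hne
        have h1 : ‖a - b‖⁻¹ • (a - b) ∈ dirs A :=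
          mem_dirs.mpr ⟨a - b, mem_diffs.mpr ⟨a, fc_subset ha, b, fc_subset hb, rfl⟩, hne, rfl⟩
        refine hcase _ h1 ?_
        rw [inner_smul_left, inner_sub_eq_zero_of_mem_fc ha hb, mul_zero]
      have hwid : pn (fc A γ) v + pn (fc A γ) (-v) = |(0 : ℝ)| * (pn (fc A γ) v + pn (fc A γ) (-v)) := by
        refine width_eq hBne fun a ha b hb => ?_
        rw [hsing a ha b hb, inner_zero_left, mul_zero]
      rw [abs_zero, zero_mul] at hwid
      rw [hwid, zero_sub, neg_eq_zero]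
      refine Finset.sum_eq_zero fun ξ hξ => ?_
      rw [if_neg (hcase ξ hξ), mul_zero]
  have hloc : ∀ τ, ∀ᶠ ε in 𝓝 (0 : ℝ), f (τ + ε) = f τ + ε * m τ := by
    intro τ
    refine eventually_nhds_of_both (by simp) ?_ ?_
    · filter_upwards [eventually_local hG.ne (x + τ • v) v, hzn (x + τ • v) v] with ε h1 h2
      have e1 : x + (τ + ε) • v = x + τ • v + ε • v := by rw [add_smul]; abel
      simp only [f, m]
      rw [e1, h1.2, h2]; ring
    · filter_upwards [eventually_local hG.ne (x + τ • v) (-v), hzn (x + τ • v) (-v)] with ε h1 h2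
      have e1 : x + (τ + -ε) • v = x + τ • v + ε • (-v) := by
        rw [add_smul, neg_smul, smul_neg]; abel
      have h3 := hmm τ
      simp only [f]
      rw [e1, h1.2, h2]
      have h4 : m τ = -m' τ := by linarith
      rw [h4]
      simp only [m']
      ring
  have h1 := affine_of_local hloc 1
  have h2 := affine_of_local hloc (1 / 2)
  have e0 : f 0 = pn A x - zn A x := by simp [f]
  have e1 : f 1 = pn A y - zn A y := by
    simp only [f]
    have : x + (1 : ℝ) • v = y := by rw [one_smul, hv]; abel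
    rw [this]
  have e2 : f (1 / 2) = pn A ((1 / 2 : ℝ) • (x + y)) - zn A ((1 / 2 : ℝ) • (x + y)) := by
    simp only [f]
    have : x + (1 / 2 : ℝ) • v = (1 / 2 : ℝ) • (x + y) := by
      rw [hv, smul_sub, smul_add]
      have : x = (1 / 2 : ℝ) • x + (1 / 2 : ℝ) • x := by rw [← add_smul]; norm_num
      nth_rewrite 1 [this]; abel
    rw [this]
  rw [← e2, ← e0, ← e1, h1, h2]; ring

/-- **Claim B.** -/
theorem Good.pn_eq_zn (hG : Good A) (x : E) : pn A x = zn A x := by
  classical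
  -- first for generic x
  have hgen : ∀ x : E, (∀ d ∈ diffs A, d ≠ 0 → inner ℝ d x ≠ 0) → pn A x = zn A x := by
    intro x hx
    let q : E → ℝ := fun x => pn A x - zn A x
    have hq : Continuous q := (continuous_pn hG.ne).sub (continuous_zn A)
    have hcl : q ((1 / 2 : ℝ) • (x + -x)) = 1 / 2 * (q x + q (-x)) := by
      by_contra hcon
      have hopen : ∀ᶠ y' in 𝓝 (-x), q ((1 / 2 : ℝ) • (x + y')) ≠ 1 / 2 * (q x + q y') := by
        have hc1 : Continuous fun y' => q ((1 / 2 : ℝ) • (x + y')) := by fun_prop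
        have hc2 : Continuous fun y' => 1 / 2 * (q x + q y') := by fun_prop
        exact (isOpen_ne_fun hc1 hc2).eventually_mem hcon
      obtain ⟨y', h1, -, h2⟩ := exists_near 0 (-x) (badU A 0 x) (fun u hu => badU_notMul hu) hopen
      exact h1 (hG.affine_line hx h2)
    have h1 : q (-x) = q x := by
      simp only [q]
      rw [hG.symm.pn_neg hG.ne, zn_neg]
    have h2 : q ((1 / 2 : ℝ) • (x + -x)) = 0 := by
      simp only [q]
      rw [add_neg_cancel, smul_zero, pn_zero hG.ne, zn_zero, sub_zero]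
    rw [h2, h1] at hcl
    have : q x = 0 := by linarith
    simp only [q] at this
    linarith
  by_contra hcon
  have hopen : ∀ᶠ y in 𝓝 x, pn A y ≠ zn A y :=
    (isOpen_ne_fun (continuous_pn hG.ne) (continuous_zn A)).eventually_mem hcon
  obtain ⟨y, h1, -, h2⟩ := exists_near 0 x ((diffs A).filter fun d => d ≠ 0)
    (fun u hu => NotMul_zero.mpr (Finset.mem_filter.mp hu).2) hopen
  exact h1 (hgen y fun d hd hne => h2 d (Finset.mem_filter.mpr ⟨hd, hne⟩))

/-- Representation as a finite sum of absolute values. -/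
theorem Good.exists_rep (hG : Good A) : ∃ (N : ℕ) (w : Fin N → E),
    ∀ x, pn A x = ∑ i, |inner ℝ (w i) x| := by
  refine ⟨(dirs A).card, fun i => (1 / 4 * kc A ((dirs A).equivFin.symm i : E)) •
    ((dirs A).equivFin.symm i : E), fun x => ?_⟩
  rw [hG.pn_eq_zn x]
  unfold zn
  rw [← Finset.sum_coe_sort, ← Equiv.sum_comp (dirs A).equivFin.symm]
  refine Finset.sum_congr rfl fun i _ => ?_
  have h : 0 ≤ 1 / 4 * kc A ((dirs A).equivFin.symm i : E) :=
    mul_nonneg (by norm_num) (kc_nonneg hG.ne _)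
  rw [pn_pr, real_inner_smul_left, abs_mul, abs_of_nonneg h]

end Pool.Agent.Helper54.IB
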