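import Pool.Agent.Helper54.IB.HRep
import Pool.Agent.Helper54.IB.RadonPD
import Pool.Agent.Helper54.IB.LocSym
import Pool.Agent.Helper54.IB.ZonoRep

/-!
# Polytopal intersection bodies in dimension at least 5 are polars of zonotopes
-/

open Filter Topology Set MeasureTheory Function Metric

noncomputable section

namespace Pool.Agent.Helper54.IB

variable {E : Type*} [NormedAddCommGroup E] [InnerProductSpace ℝ E] [FiniteDimensional ℝ E]

/-- The radial function of a unit ball. -/
theorem Coer.radial_eq {A : Finset E} {c : ℝ} (hA : Coer A c) {K : Set E}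
    (hK : ∀ x, x ∈ K ↔ pn A x ≤ 1) {u : E} (hu : u ≠ 0) : radial K u = (pn A u)⁻¹ := by
  have hp := hA.pn_pos hu
  have : {t : ℝ | 0 ≤ t ∧ t • u ∈ K} = Icc 0 (pn A u)⁻¹ := by
    ext t
    rw [Set.mem_ofPred_eq, Set.mem_Icc, hK]
    refine and_congr_right fun ht => ?_
    rw [pn_smul hA.ne ht, ← one_div, le_div_iff₀ hp]
  unfold radial
  rw [this, csSup_Icc (by positivity)]

/-- a set of vectors spanning a space of dimension less than that of `E` is killed by a vector -/
theorem exists_orth {s : Submodule ℝ E} (hs : s ≠ ⊤) : ∃ x : E, x ≠ 0 ∧ ∀ a ∈ s, inner ℝ a x = (0 : ℝ) := by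
  have h1 : sᗮ ≠ ⊥ := by
    intro h
    rw [Submodule.orthogonal_eq_bot_iff] at h
    exact hs h
  obtain ⟨x, hx, hx0⟩ := Submodule.exists_mem_ne_zero_of_ne_bot h1
  exact ⟨x, hx0, fun a ha => Submodule.inner_right_of_mem_orthogonal ha hx⟩

theorem Coer.span_eq {A : Finset E} {c : ℝ} (hA : Coer A c) {s : Submodule ℝ E}
    (h : ∀ a ∈ A, a ∈ s) : s = ⊤ := by
  by_contra hs
  obtain ⟨x, hx0, hx⟩ := exists_orth hs
  have h1 := hA.pn_pos hx0
  obtain ⟨a, ha, h2⟩ := exists_pn hA.ne x
  rw [hx a (h a ha)] at h2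
  linarith

theorem Coer.good [MeasurableSpace E] [BorelSpace E] {A : Finset E} {c : ℝ} (hA : Coer A c)
    (h5 : 5 ≤ Module.finrank ℝ E)
    (hk : PD fun w : E => (pn A w)⁻¹) : Good A := by
  classical
  refine ⟨hA.ne, hA.symm, hA.localSym hk h5, fun ξ d => ?_⟩
  by_contra hcon
  push Not at hcon
  have h1 : ∀ a ∈ A, a ∈ Submodule.span ℝ ({ξ, d} : Set E) := by
    intro a ha
    obtain ⟨s, t, hst⟩ := hcon a ha (-a) (hA.symm a ha)
    rw [Submodule.mem_span_pair]
    refine ⟨s / 2, t / 2, ?_⟩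
    have h2 : a = (1 / 2 : ℝ) • (a - -a) := by
      rw [sub_neg_eq_add, ← two_smul ℝ a, smul_smul]; norm_num
    rw [h2, hst, smul_add, smul_smul, smul_smul]
    congr 2 <;> ring
  have h2 := hA.span_eq h1
  have h3 : Module.finrank ℝ (Submodule.span ℝ ({ξ, d} : Set E)) ≤ 2 := by
    have := finrank_span_finset_le_card (R := ℝ) ({ξ, d} : Finset E)
    rw [Set.finrank, Finset.coe_pair] at this
    exact this.trans Finset.card_le_two
  rw [h2, finrank_top] at h3
  omega

/-- the unit ball of a norm `∑ |⟪wᵢ, x⟫|` is the polar of a zonotope -/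
theorem eq_polar_zonotope {K : Set E} {A : Finset E} (hK : ∀ x, x ∈ K ↔ pn A x ≤ 1) {N : ℕ}
    {w : Fin N → E} (hw : ∀ x, pn A x = ∑ i, |inner ℝ (w i) x|) :
    K = polarBody (zonotope w) := by
  ext y
  rw [hK, hw]
  constructor
  · rintro h x ⟨c, hc, rfl⟩
    rw [sum_inner]
    refine le_trans (Finset.sum_le_sum fun i _ => ?_) h
    rw [inner_smul_left]
    simp only [conj_trivial]
    calc c i * inner ℝ (w i) y ≤ |c i * inner ℝ (w i) y| := le_abs_self _
      _ = |c i| * |inner ℝ (w i) y| := abs_mul _ _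
      _ ≤ 1 * |inner ℝ (w i) y| := mul_le_mul_of_nonneg_right (hc i) (abs_nonneg _)
      _ = _ := one_mul _
  · intro h
    have h1 := h (∑ i, (SignType.sign (inner ℝ (w i) y) : ℝ) • w i)
      ⟨fun i => (SignType.sign (inner ℝ (w i) y) : ℝ), fun i => ?_, rfl⟩
    · rw [sum_inner] at h1
      refine le_trans (le_of_eq (Finset.sum_congr rfl fun i _ => ?_)) h1
      rw [inner_smul_left]
      simp only [conj_trivial]
      exact (sign_mul_self _).symm
    · rcases lt_trichotomy (inner ℝ (w i) y : ℝ) 0 with h2 | h2 | h2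
      · simp [sign_neg h2]
      · simp [h2]
      · simp [sign_pos h2]

/-- **Main theorem.** -/
theorem polytopal_intersection_body [MeasurableSpace E] [BorelSpace E]
    (h5 : 5 ≤ Module.finrank ℝ E) {K : Set E} (hK : IsPolytope K) (hI : IsIntersectionBody K) :
    ∃ (N : ℕ) (v : Fin N → E), Submodule.span ℝ (Set.range v) = ⊤ ∧
      K = polarBody (zonotope v) := by
  obtain ⟨hstar, μ, _, _, hμ⟩ := hI
  obtain ⟨A, c, hA, hchar⟩ := exists_hrep hK hstar.symm
  have hk : PD fun w : E => (pn A w)⁻¹ := by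
    refine hA.PD_of_radon (by omega) (ρ := fun u => radial K (u : E)) (fun u => ?_) hμ
    refine hA.radial_eq hchar ?_
    intro h
    have := u.2
    rw [h] at this
    simp at this
  obtain ⟨N, w, hw⟩ := (hA.good h5 hk).exists_rep
  refine ⟨N, w, ?_, eq_polar_zonotope hchar hw⟩
  by_contra hs
  obtain ⟨x, hx0, hx⟩ := exists_orth hs
  have h1 := hA.pn_pos hx0
  rw [hw, Finset.sum_eq_zero fun i _ => by
    rw [hx _ (Submodule.subset_span ⟨i, rfl⟩), abs_zero]] at h1
  exact lt_irrefl _ h1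

end Pool.Agent.Helper54.IB
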