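import Mathlib

/-!
# Support functions of finite sets

`pn A x = max_{a ∈ A} ⟪a, x⟫`, its faces and its one-sided directional derivatives.
-/

open Filter Topology Set

noncomputable section

namespace Pool.Agent.Helper54.IB

variable {E : Type*} [NormedAddCommGroup E] [InnerProductSpace ℝ E]

open Classical in
/-- `max_{a ∈ A} ⟪a, x⟫` (and `0` if `A` is empty). -/
def pn (A : Finset E) (x : E) : ℝ :=
  if h : A.Nonempty then A.sup' h (fun a => inner ℝ a x) else 0

open Classical in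
/-- the maximizers of `⟪a, x⟫` over `a ∈ A`. -/
def fc (A : Finset E) (x : E) : Finset E :=
  A.filter fun a => inner ℝ a x = pn A x

variable {A : Finset E} {x y v : E}

theorem le_pn {a : E} (ha : a ∈ A) (x : E) : inner ℝ a x ≤ pn A x := by
  have h : A.Nonempty := ⟨a, ha⟩
  unfold pn
  rw [dif_pos h]
  exact Finset.le_sup' (fun a => inner ℝ a x) ha

theorem exists_pn (hA : A.Nonempty) (x : E) : ∃ a ∈ A, inner ℝ a x = pn A x := by
  unfold pn
  rw [dif_pos hA]
  obtain ⟨a, ha, h⟩ := Finset.exists_mem_eq_sup' hA (fun a => inner ℝ a x)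
  exact ⟨a, ha, h.symm⟩

theorem pn_le (hA : A.Nonempty) {c : ℝ} (h : ∀ a ∈ A, inner ℝ a x ≤ c) : pn A x ≤ c := by
  obtain ⟨a, ha, h1⟩ := exists_pn hA x
  rw [← h1]; exact h a ha

theorem pn_eq_of (hA : A.Nonempty) {c : ℝ} (h : ∀ a ∈ A, inner ℝ a x ≤ c)
    (h2 : ∃ a ∈ A, inner ℝ a x = c) : pn A x = c := by
  obtain ⟨a, ha, h3⟩ := h2
  exact le_antisymm (pn_le hA h) (h3 ▸ le_pn ha x)

theorem mem_fc {a : E} : a ∈ fc A x ↔ a ∈ A ∧ inner ℝ a x = pn A x := by
  unfold fc; rw [Finset.mem_filter]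

theorem fc_subset : fc A x ⊆ A := fun _ ha => (mem_fc.mp ha).1

theorem fc_nonempty (hA : A.Nonempty) : (fc A x).Nonempty := by
  obtain ⟨a, ha, h⟩ := exists_pn hA x
  exact ⟨a, mem_fc.mpr ⟨ha, h⟩⟩

@[simp] theorem pn_zero (hA : A.Nonempty) : pn A (0 : E) = 0 := by
  obtain ⟨a, _, h⟩ := exists_pn hA (0 : E)
  rw [← h, inner_zero_right]

theorem pn_smul (hA : A.Nonempty) {c : ℝ} (hc : 0 ≤ c) (x : E) : pn A (c • x) = c * pn A x := by
  obtain ⟨a, ha, h⟩ := exists_pn hA x
  refine pn_eq_of hA (fun b hb => ?_) ⟨a, ha, by rw [inner_smul_right, h]⟩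
  rw [inner_smul_right]
  exact mul_le_mul_of_nonneg_left (le_pn hb x) hc

theorem pn_add_le (hA : A.Nonempty) (x y : E) : pn A (x + y) ≤ pn A x + pn A y := by
  refine pn_le hA fun a ha => ?_
  rw [inner_add_right]
  exact add_le_add (le_pn ha x) (le_pn ha y)

theorem fc_smul (hA : A.Nonempty) {c : ℝ} (hc : 0 < c) (x : E) : fc A (c • x) = fc A x := by
  ext a
  rw [mem_fc, mem_fc, pn_smul hA hc.le, inner_smul_right]
  constructor
  · rintro ⟨h1, h2⟩; exact ⟨h1, mul_left_cancel₀ hc.ne' h2⟩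
  · rintro ⟨h1, h2⟩; exact ⟨h1, by rw [h2]⟩

theorem fc_zero (hA : A.Nonempty) : fc A (0 : E) = A := by
  ext a
  rw [mem_fc, pn_zero hA, inner_zero_right]
  simp

/-- An upper bound on the norms of the elements of `A`. -/
def bd (A : Finset E) : ℝ := ∑ a ∈ A, ‖a‖

theorem bd_nonneg (A : Finset E) : 0 ≤ bd A := Finset.sum_nonneg fun _ _ => norm_nonneg _

theorem norm_le_bd {a : E} (ha : a ∈ A) : ‖a‖ ≤ bd A :=
  Finset.single_le_sum (f := fun a => ‖a‖) (fun _ _ => norm_nonneg _) ha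

theorem bd_fc_le : bd (fc A x) ≤ bd A :=
  Finset.sum_le_sum_of_subset_of_nonneg fc_subset fun _ _ _ => norm_nonneg _

theorem abs_pn_le (x : E) : |pn A x| ≤ bd A * ‖x‖ := by
  by_cases hA : A.Nonempty
  · obtain ⟨a, ha, h⟩ := exists_pn hA x
    rw [← h]
    calc |inner ℝ a x| ≤ ‖a‖ * ‖x‖ := abs_real_inner_le_norm a x
      _ ≤ bd A * ‖x‖ := mul_le_mul_of_nonneg_right (norm_le_bd ha) (norm_nonneg _)
  · unfold pn
    rw [dif_neg hA, abs_zero]
    exact mul_nonneg (bd_nonneg A) (norm_nonneg _)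

theorem pn_sub_le (hA : A.Nonempty) (x y : E) : pn A x - pn A y ≤ bd A * ‖x - y‖ := by
  have h := pn_add_le hA (x - y) y
  rw [sub_add_cancel] at h
  have h2 := le_abs_self (pn A (x - y))
  have h3 := abs_pn_le (A := A) (x - y)
  linarith

theorem abs_pn_sub_le (hA : A.Nonempty) (x y : E) : |pn A x - pn A y| ≤ bd A * ‖x - y‖ := by
  rw [abs_le]
  have h1 := pn_sub_le hA x y
  have h2 := pn_sub_le hA y x
  rw [norm_sub_rev] at h2
  constructor <;> linarith

theorem continuous_pn (hA : A.Nonempty) : Continuous (pn A) := by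
  have : LipschitzWith ⟨bd A, bd_nonneg A⟩ (pn A) := by
    apply LipschitzWith.of_dist_le_mul
    intro x y
    rw [Real.dist_eq, dist_eq_norm]
    exact abs_pn_sub_le hA x y
  exact this.continuous

/-- The local structure of `pn A` near `x` in the direction `v`. -/
theorem eventually_local (hA : A.Nonempty) (x v : E) :
    ∀ᶠ ε in 𝓝[>] (0 : ℝ), fc A (x + ε • v) = fc (fc A x) v ∧
      pn A (x + ε • v) = pn A x + ε * pn (fc A x) v := by
  have h1 : ∀ a ∈ A, ∀ᶠ ε in 𝓝[>] (0 : ℝ), a ∉ fc A x →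
      inner ℝ a (x + ε • v) < pn A x + ε * pn (fc A x) v := by
    intro a ha
    by_cases hax : a ∈ fc A x
    · exact Eventually.of_forall fun _ h => absurd hax h
    · have hlt : inner ℝ a x < pn A x := by
        refine lt_of_le_of_ne (le_pn ha x) fun h => hax (mem_fc.mpr ⟨ha, h⟩)
      have hc1 : Tendsto (fun ε : ℝ => inner ℝ a (x + ε • v)) (𝓝[>] 0) (𝓝 (inner ℝ a x)) := by
        have : Continuous fun ε : ℝ => inner ℝ a (x + ε • v) := by fun_prop
        have h2 := (this.tendsto 0).mono_left (nhdsWithin_le_nhds (s := Ioi (0 : ℝ)))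
        simpa using h2
      have hc2 : Tendsto (fun ε : ℝ => pn A x + ε * pn (fc A x) v) (𝓝[>] 0) (𝓝 (pn A x)) := by
        have : Continuous fun ε : ℝ => pn A x + ε * pn (fc A x) v := by fun_prop
        have h2 := (this.tendsto 0).mono_left (nhdsWithin_le_nhds (s := Ioi (0 : ℝ)))
        simpa using h2
      filter_upwards [hc1.eventually_lt hc2 hlt] with ε hε _ using hε
  have h2 := (Filter.eventually_all_finset A).mpr h1
  filter_upwards [h2, self_mem_nhdsWithin] with ε hε hpos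
  have hpos' : 0 < ε := hpos
  have hFne : (fc A x).Nonempty := fc_nonempty hA
  have key : pn A (x + ε • v) = pn A x + ε * pn (fc A x) v := by
    refine pn_eq_of hA (fun a ha => ?_) ?_
    · by_cases hax : a ∈ fc A x
      · rw [inner_add_right, inner_smul_right, (mem_fc.mp hax).2]
        have := mul_le_mul_of_nonneg_left (le_pn hax v) hpos'.le
        linarith
      · exact (hε a ha hax).le
    · obtain ⟨a, ha, h⟩ := exists_pn hFne v
      refine ⟨a, fc_subset ha, ?_⟩
      rw [inner_add_right, inner_smul_right, (mem_fc.mp ha).2, h]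
  refine ⟨?_, key⟩
  ext a
  rw [mem_fc, key]
  constructor
  · rintro ⟨ha, h⟩
    by_cases hax : a ∈ fc A x
    · refine mem_fc.mpr ⟨hax, ?_⟩
      rw [inner_add_right, inner_smul_right, (mem_fc.mp hax).2] at h
      exact mul_left_cancel₀ hpos'.ne' (by linarith)
    · exact absurd h (hε a ha hax).ne
  · intro ha
    obtain ⟨h1, h2⟩ := mem_fc.mp ha
    refine ⟨fc_subset h1, ?_⟩
    rw [inner_add_right, inner_smul_right, (mem_fc.mp h1).2, h2]

/-- nearby faces are contained in the face -/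
theorem eventually_fc_subset (hA : A.Nonempty) (x : E) : ∀ᶠ y in 𝓝 x, fc A y ⊆ fc A x := by
  have h1 : ∀ a ∈ A, ∀ᶠ y in 𝓝 x, a ∉ fc A x → inner ℝ a y < pn A y := by
    intro a ha
    by_cases hax : a ∈ fc A x
    · exact Eventually.of_forall fun _ h => absurd hax h
    · have hlt : inner ℝ a x < pn A x := by
        refine lt_of_le_of_ne (le_pn ha x) fun h => hax (mem_fc.mpr ⟨ha, h⟩)
      have hc1 : Tendsto (fun y : E => inner ℝ a y) (𝓝 x) (𝓝 (inner ℝ a x)) := by
        have : Continuous fun y : E => inner ℝ a y := by fun_prop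
        exact this.tendsto x
      filter_upwards [hc1.eventually_lt ((continuous_pn hA).tendsto x) hlt] with y hy _ using hy
  have h2 := (Filter.eventually_all_finset A).mpr h1
  filter_upwards [h2] with y hy a ha
  by_contra hcon
  exact absurd (mem_fc.mp ha).2 (hy a (mem_fc.mp ha).1 hcon).ne

/-- The kink of `pn A` at `x` in the direction `ξ`. -/
def kink (A : Finset E) (ξ x : E) : ℝ := pn (fc A x) ξ + pn (fc A x) (-ξ)

theorem kink_nonneg (hA : A.Nonempty) (ξ x : E) : 0 ≤ kink A ξ x := by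
  obtain ⟨a, ha⟩ := fc_nonempty (x := x) hA
  have h1 := le_pn ha ξ
  have h2 := le_pn ha (-ξ)
  rw [inner_neg_right] at h2
  unfold kink
  linarith

theorem abs_kink_le (ξ x : E) : |kink A ξ x| ≤ 2 * bd A * ‖ξ‖ := by
  unfold kink
  have h1 := abs_pn_le (A := fc A x) ξ
  have h2 := abs_pn_le (A := fc A x) (-ξ)
  rw [norm_neg] at h2
  have h3 := mul_le_mul_of_nonneg_right (bd_fc_le (A := A) (x := x)) (norm_nonneg ξ)
  calc |pn (fc A x) ξ + pn (fc A x) (-ξ)| ≤ |pn (fc A x) ξ| + |pn (fc A x) (-ξ)| := abs_add_le _ _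
    _ ≤ 2 * bd A * ‖ξ‖ := by linarith

/-- Symmetric sets. -/
def Symm (A : Finset E) : Prop := ∀ a ∈ A, -a ∈ A

theorem Symm.pn_neg (hs : Symm A) (hA : A.Nonempty) (x : E) : pn A (-x) = pn A x := by
  obtain ⟨a, ha, h⟩ := exists_pn hA x
  refine pn_eq_of hA (fun b hb => ?_) ⟨-a, hs a ha, by rw [inner_neg_neg, h]⟩
  have := le_pn (hs b hb) x
  rw [inner_neg_left] at this
  rw [inner_neg_right]; exact this

open Classical in
theorem Symm.fc_neg (hs : Symm A) (hA : A.Nonempty) (x : E) :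
    fc A (-x) = (fc A x).image (fun a => -a) := by
  ext a
  rw [Finset.mem_image, mem_fc, hs.pn_neg hA]
  constructor
  · rintro ⟨h1, h2⟩
    exact ⟨-a, mem_fc.mpr ⟨hs a h1, by rw [inner_neg_left, ← inner_neg_right, h2]⟩, neg_neg a⟩
  · rintro ⟨b, hb, rfl⟩
    obtain ⟨h1, h2⟩ := mem_fc.mp hb
    exact ⟨hs b h1, by rw [inner_neg_neg, h2]⟩

open Classical in
theorem pn_image_neg (hA : A.Nonempty) (x : E) : pn (A.image fun a => -a) x = pn A (-x) := by
  obtain ⟨a, ha, h⟩ := exists_pn hA (-x)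
  refine pn_eq_of (hA.image _) (fun b hb => ?_) ⟨-a, Finset.mem_image_of_mem _ ha, ?_⟩
  · obtain ⟨c, hc, rfl⟩ := Finset.mem_image.mp hb
    have := le_pn hc (-x)
    rw [inner_neg_right] at this
    rw [inner_neg_left]; exact this
  · rw [← h, inner_neg_left, inner_neg_right]

theorem Symm.kink_neg (hs : Symm A) (hA : A.Nonempty) (ξ x : E) :
    kink A ξ (-x) = kink A ξ x := by
  classical
  unfold kink
  rw [hs.fc_neg hA, pn_image_neg (fc_nonempty hA), pn_image_neg (fc_nonempty hA), neg_neg,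
    add_comm]

theorem kink_smul (hA : A.Nonempty) {c : ℝ} (hc : 0 < c) (ξ x : E) :
    kink A ξ (c • x) = kink A ξ x := by
  unfold kink; rw [fc_smul hA hc]

theorem kink_neg_left (ξ x : E) : kink A (-ξ) x = kink A ξ x := by
  unfold kink; rw [neg_neg, add_comm]

end Pool.Agent.Helper54.IB
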