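import Mathlib

/-!
# Positive definite kernels on a finite dimensional inner product space
-/

open Filter Topology Set MeasureTheory Function

set_option linter.unusedSectionVars false

noncomputable section

namespace Pool.Agent.Helper54.IB

variable {E : Type*} [NormedAddCommGroup E] [InnerProductSpace ℝ E] [FiniteDimensional ℝ E]
  [MeasurableSpace E] [BorelSpace E]

/-- cross-correlation -/
def corr (f g : E → ℝ) (w : E) : ℝ := ∫ y, f (w + y) * g y

/-- test functions -/
structure TF (f : E → ℝ) : Prop where
  cont : Continuous f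
  supp : HasCompactSupport f

theorem TF.integrable {f : E → ℝ} (hf : TF f) : Integrable f :=
  hf.cont.integrable_of_hasCompactSupport hf.supp

theorem TF.comp_add_right {f : E → ℝ} (hf : TF f) (h : E) : TF fun x => f (x + h) :=
  ⟨hf.cont.comp (continuous_id.add continuous_const),
    hf.supp.comp_homeomorph (Homeomorph.addRight h)⟩

theorem TF.comp_add_left {f : E → ℝ} (hf : TF f) (h : E) : TF fun x => f (h + x) :=
  ⟨hf.cont.comp (continuous_const.add continuous_id),
    hf.supp.comp_homeomorph (Homeomorph.addLeft h)⟩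

theorem TF.comp_sub {f : E → ℝ} (hf : TF f) (h : E) : TF fun x => f (x - h) := by
  simpa [sub_eq_add_neg] using hf.comp_add_right (-h)

theorem TF.comp_neg {f : E → ℝ} (hf : TF f) : TF fun x => f (-x) :=
  ⟨hf.cont.comp continuous_neg, hf.supp.comp_homeomorph (Homeomorph.neg E)⟩

theorem TF.comp_equiv {f : E → ℝ} (hf : TF f) (T : E ≃L[ℝ] E) : TF fun x => f (T x) :=
  ⟨hf.cont.comp T.continuous, hf.supp.comp_homeomorph T.toHomeomorph⟩

theorem TF.add {f g : E → ℝ} (hf : TF f) (hg : TF g) : TF fun x => f x + g x :=
  ⟨hf.cont.add hg.cont, hf.supp.add hg.supp⟩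

theorem TF.const_mul {f : E → ℝ} (hf : TF f) (c : ℝ) : TF fun x => c * f x :=
  ⟨hf.cont.const_mul c, hf.supp.mul_left (f := fun _ => c)⟩

theorem TF.sub {f g : E → ℝ} (hf : TF f) (hg : TF g) : TF fun x => f x - g x := by
  have := hf.add (hg.const_mul (-1))
  simpa [sub_eq_add_neg] using this

theorem TF.mul {f g : E → ℝ} (hf : TF f) (hg : TF g) : TF fun x => f x * g x :=
  ⟨hf.cont.mul hg.cont, hf.supp.mul_right (f' := g)⟩

theorem TF.integrable_corr {f g : E → ℝ} (hf : TF f) (hg : TF g) (w : E) :
    Integrable fun y => f (w + y) * g y := ((hf.comp_add_left w).mul hg).integrable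

theorem corr_eq_conv {f g : E → ℝ} : corr f g =
    convolution (fun y => g (-y)) f (ContinuousLinearMap.mul ℝ ℝ) volume := by
  ext w
  unfold corr convolution
  rw [← integral_neg_eq_self]
  refine integral_congr_ae (Eventually.of_forall fun y => ?_)
  simp only [ContinuousLinearMap.mul_apply', sub_eq_add_neg]
  ring

theorem TF.corr {f g : E → ℝ} (hf : TF f) (hg : TF g) : TF (corr f g) := by
  rw [corr_eq_conv]
  exact ⟨hf.supp.continuous_convolution_right _ hg.comp_neg.integrable.locallyIntegrable hf.cont,
    hg.comp_neg.supp.convolution _ hf.supp⟩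

/-- Positive definiteness. -/
def PD (k : E → ℝ) : Prop := ∀ ψ : E → ℝ, TF ψ → 0 ≤ ∫ w, corr ψ ψ w * k w

theorem TF.integrable_mul {f k : E → ℝ} (hf : TF f) (hk : LocallyIntegrable k) :
    Integrable fun w => f w * k w := by
  simpa using hk.integrable_smul_left_of_hasCompactSupport hf.cont hf.supp

theorem corr_sub_left {f f' g : E → ℝ} (hf : TF f) (hf' : TF f') (hg : TF g) (w : E) :
    corr (fun x => f x - f' x) g w = corr f g w - corr f' g w := by
  unfold corr
  rw [← integral_sub (hf.integrable_corr hg w) (hf'.integrable_corr hg w)]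
  exact integral_congr_ae (Eventually.of_forall fun y => by simp only; ring)

theorem corr_sub_right {f g g' : E → ℝ} (hf : TF f) (hg : TF g) (hg' : TF g') (w : E) :
    corr f (fun x => g x - g' x) w = corr f g w - corr f g' w := by
  unfold corr
  rw [← integral_sub (hf.integrable_corr hg w) (hf.integrable_corr hg' w)]
  exact integral_congr_ae (Eventually.of_forall fun y => by simp only; ring)

theorem corr_add_left {f f' g : E → ℝ} (hf : TF f) (hf' : TF f') (hg : TF g) (w : E) :
    corr (fun x => f x + f' x) g w = corr f g w + corr f' g w := by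
  unfold corr
  rw [← integral_add (hf.integrable_corr hg w) (hf'.integrable_corr hg w)]
  exact integral_congr_ae (Eventually.of_forall fun y => by simp only; ring)

theorem corr_add_right {f g g' : E → ℝ} (hf : TF f) (hg : TF g) (hg' : TF g') (w : E) :
    corr f (fun x => g x + g' x) w = corr f g w + corr f g' w := by
  unfold corr
  rw [← integral_add (hf.integrable_corr hg w) (hf.integrable_corr hg' w)]
  exact integral_congr_ae (Eventually.of_forall fun y => by simp only; ring)

theorem corr_const_mul_left {f g : E → ℝ} (c : ℝ) (w : E) :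
    corr (fun x => c * f x) g w = c * corr f g w := by
  unfold corr
  rw [← integral_const_mul]
  exact integral_congr_ae (Eventually.of_forall fun y => by simp only; ring)

theorem corr_const_mul_right {f g : E → ℝ} (c : ℝ) (w : E) :
    corr f (fun x => c * g x) w = c * corr f g w := by
  unfold corr
  rw [← integral_const_mul]
  exact integral_congr_ae (Eventually.of_forall fun y => by simp only; ring)

theorem corr_translate_left {f g : E → ℝ} (h w : E) :
    corr (fun x => f (x - h)) g w = corr f g (w - h) := by
  unfold corr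
  refine integral_congr_ae (Eventually.of_forall fun y => ?_)
  have : w + y - h = w - h + y := by abel
  simp only [this]

theorem corr_translate_right {f g : E → ℝ} (h w : E) :
    corr f (fun x => g (x - h)) w = corr f g (w + h) := by
  unfold corr
  rw [← integral_add_right_eq_self _ h]
  refine integral_congr_ae (Eventually.of_forall fun y => ?_)
  have e1 : w + (y + h) = w + h + y := by abel
  have e2 : y + h - h = y := by abel
  simp only [e1, e2]

theorem corr_swap {f g : E → ℝ} (w : E) : corr f g (-w) = corr g f w := by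
  unfold corr
  rw [← integral_add_right_eq_self _ w]
  refine integral_congr_ae (Eventually.of_forall fun y => ?_)
  have e1 : -w + (w + y) = y := by abel
  have e2 : y + w = w + y := by abel
  simp only [e2, e1]
  ring

theorem integral_comb {f g h : E → ℝ} (hf : Integrable f) (hg : Integrable g)
    (hh : Integrable h) : ∫ w, (2 * f w - g w - h w) =
      2 * (∫ w, f w) - (∫ w, g w) - ∫ w, h w := by
  have i : Integrable (fun w => 2 * f w - g w) := (hf.const_mul 2).sub hg
  rw [integral_sub i hh, integral_sub (hf.const_mul 2) hg, integral_const_mul]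

theorem PD.diff {k : E → ℝ} (hk : PD k) (hl : LocallyIntegrable k) (h : E) :
    PD fun w => 2 * k w - k (w + h) - k (w - h) := by
  intro ψ hψ
  have h1 := hk (fun x => ψ x - ψ (x - h)) (hψ.sub (hψ.comp_sub h))
  have hC := hψ.corr hψ
  have e1 : ∀ w, corr (fun x => ψ x - ψ (x - h)) (fun x => ψ x - ψ (x - h)) w =
      2 * corr ψ ψ w - corr ψ ψ (w + h) - corr ψ ψ (w - h) := by
    intro w
    rw [corr_sub_left hψ (hψ.comp_sub h) (hψ.sub (hψ.comp_sub h)),
      corr_sub_right hψ hψ (hψ.comp_sub h), corr_sub_right (hψ.comp_sub h) hψ (hψ.comp_sub h),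
      corr_translate_right, corr_translate_left, corr_translate_left, corr_translate_right,
      sub_add_cancel]
    ring
  have i1 : Integrable fun w => corr ψ ψ w * k w := hC.integrable_mul hl
  have i2 : Integrable fun w => corr ψ ψ (w + h) * k w := (hC.comp_add_right h).integrable_mul hl
  have i3 : Integrable fun w => corr ψ ψ (w - h) * k w := (hC.comp_sub h).integrable_mul hl
  have i2' : Integrable fun w => corr ψ ψ w * k (w - h) := by
    have := i2.comp_sub_right h
    simpa using this
  have i3' : Integrable fun w => corr ψ ψ w * k (w + h) := by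
    have := i3.comp_add_right h
    simpa using this
  have e2 : ∫ w, corr ψ ψ (w + h) * k w = ∫ w, corr ψ ψ w * k (w - h) := by
    rw [← integral_sub_right_eq_self _ h]
    simp
  have e3 : ∫ w, corr ψ ψ (w - h) * k w = ∫ w, corr ψ ψ w * k (w + h) := by
    rw [← integral_add_right_eq_self _ h]
    simp
  have e4 : ∫ w, corr (fun x => ψ x - ψ (x - h)) (fun x => ψ x - ψ (x - h)) w * k w =
      2 * (∫ w, corr ψ ψ w * k w) - (∫ w, corr ψ ψ (w + h) * k w) -
        ∫ w, corr ψ ψ (w - h) * k w := by
    rw [← integral_comb i1 i2 i3]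
    exact integral_congr_ae (Eventually.of_forall fun w => by simp only [e1]; ring)
  have e5 : ∫ w, corr ψ ψ w * (2 * k w - k (w + h) - k (w - h)) =
      2 * (∫ w, corr ψ ψ w * k w) - (∫ w, corr ψ ψ w * k (w + h)) -
        ∫ w, corr ψ ψ w * k (w - h) := by
    rw [← integral_comb i1 i3' i2']
    exact integral_congr_ae (Eventually.of_forall fun w => by simp only; ring)
  rw [e5]
  rw [e4, e2, e3] at h1
  linarith

theorem PD.const_mul {k : E → ℝ} (hk : PD k) {c : ℝ} (hc : 0 ≤ c) : PD fun w => c * k w := by
  intro ψ hψ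
  have h1 : ∫ w, corr ψ ψ w * (c * k w) = c * ∫ w, corr ψ ψ w * k w := by
    rw [← integral_const_mul]
    exact integral_congr_ae (Eventually.of_forall fun w => by simp only; ring)
  rw [h1]
  exact mul_nonneg hc (hk ψ hψ)

/-- linear change of variables -/
theorem exists_scale (T : E ≃L[ℝ] E) : ∃ c : ℝ, 0 < c ∧ ∀ g : E → ℝ,
    ∫ x, g (T x) = c * ∫ x, g x := by
  have hH : (Measure.map T (volume : Measure E)).IsAddHaarMeasure := T.isAddHaarMeasure_map _
  have h1 := Measure.isAddLeftInvariant_eq_smul (Measure.map T (volume : Measure E))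
    (volume : Measure E)
  set c := Measure.addHaarScalarFactor (Measure.map T (volume : Measure E)) (volume : Measure E)
  refine ⟨c, ?_, fun g => ?_⟩
  · exact NNReal.coe_pos.mpr (Measure.addHaarScalarFactor_pos_of_isAddHaarMeasure _ _)
  · have h2 : ∫ x, g (T x) = ∫ x, g x ∂(Measure.map T (volume : Measure E)) :=
      (T.toHomeomorph.measurableEmbedding.integral_map g).symm
    rw [h2, h1, integral_smul_nnreal_measure]
    rfl

theorem PD.comp {k : E → ℝ} (hk : PD k) (T : E ≃L[ℝ] E) : PD fun w => k (T w) := by
  intro ψ hψ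
  obtain ⟨c, hc, hT⟩ := exists_scale T
  have h1 := hk (fun x => ψ (T.symm x)) (hψ.comp_equiv T.symm)
  have e1 : ∀ w, corr (fun x => ψ (T.symm x)) (fun x => ψ (T.symm x)) (T w) =
      c⁻¹ * corr ψ ψ w := by
    intro w
    have h2 := hT (fun y => ψ (T.symm (T w + y)) * ψ (T.symm y))
    unfold corr
    rw [eq_inv_mul_iff_mul_eq₀ hc.ne', ← h2]
    simp
  have h3 := hT (fun w => corr (fun x => ψ (T.symm x)) (fun x => ψ (T.symm x)) w * k w)
  have h4 : ∫ w, corr ψ ψ w * k (T w) = c * (c * ∫ w,
      corr (fun x => ψ (T.symm x)) (fun x => ψ (T.symm x)) w * k w) := by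
    rw [← h3, ← integral_const_mul]
    refine integral_congr_ae (Eventually.of_forall fun w => ?_)
    simp only
    rw [e1 w, ← mul_assoc, ← mul_assoc, mul_inv_cancel₀ hc.ne', one_mul]
  rw [h4]
  positivity

theorem PD.lim {k : ℕ → E → ℝ} {k' G : E → ℝ} (hk : ∀ n, PD (k n))
    (hm : ∀ n, AEStronglyMeasurable (k n)) (hG : LocallyIntegrable G)
    (hb : ∀ n, ∀ᵐ w, |k n w| ≤ G w)
    (hlim : ∀ᵐ w, Tendsto (fun n => k n w) atTop (𝓝 (k' w))) : PD k' := by
  intro ψ hψ
  have hC := hψ.corr hψ
  have hGi : Integrable fun w => corr ψ ψ w * G w := hC.integrable_mul hG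
  have h1 : Tendsto (fun n => ∫ w, corr ψ ψ w * k n w) atTop (𝓝 (∫ w, corr ψ ψ w * k' w)) := by
    refine tendsto_integral_of_dominated_convergence (fun w => |corr ψ ψ w * G w|) ?_ hGi.abs ?_ ?_
    · exact fun n => hC.cont.aestronglyMeasurable.mul (hm n)
    · intro n
      filter_upwards [hb n] with w hw
      rw [Real.norm_eq_abs, abs_mul, abs_mul]
      exact mul_le_mul_of_nonneg_left (hw.trans (le_abs_self _)) (abs_nonneg _)
    · filter_upwards [hlim] with w hw using hw.const_mul _
  exact ge_of_tendsto' h1 fun n => hk n ψ hψ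

end Pool.Agent.Helper54.IB
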